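import Pool.Agent.L0h31.KQ.Varq
import Pool.Agent.L0h85.KQ.Gram
import Pool.Agent.L0h38.KQ.Fib

/-!
# Block diagonal matrices as a `C*`-algebra
-/

set_option autoImplicit false
set_option linter.unusedSectionVars false

namespace Pool.Agent.L0h31.KQ

open MeasureTheory
open scoped ENNReal InnerProductSpace ComplexOrder Matrix.Norms.L2Operator

section blk

variable {ι κ : Type} [Fintype ι] [DecidableEq ι]

/-- block diagonal matrices -/
def Blk (f : ι → κ) : StarSubalgebra ℂ (Matrix ι ι ℂ) where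
  carrier := {M | ∀ i j, f i ≠ f j → M i j = 0}
  mul_mem' {A B} hA hB i j hij := by
    rw [Matrix.mul_apply]
    refine Finset.sum_eq_zero fun k _ => ?_
    by_cases h : f i = f k
    · rw [hB k j (fun e => hij (h.trans e)), mul_zero]
    · rw [hA i k h, zero_mul]
  add_mem' {A B} hA hB i j hij := by
    rw [Matrix.add_apply, hA i j hij, hB i j hij, add_zero]
  algebraMap_mem' r i j hij := by
    rw [Matrix.algebraMap_matrix_apply, if_neg]
    intro e
    exact hij (by rw [e])
  star_mem' {A} hA i j hij := by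
    rw [Matrix.star_apply, hA j i (Ne.symm hij), star_zero]

theorem Blk_closed (f : ι → κ) : IsClosed ((Blk f : StarSubalgebra ℂ (Matrix ι ι ℂ)) :
    Set (Matrix ι ι ℂ)) := by
  exact Submodule.closed_of_finiteDimensional
    (Subalgebra.toSubmodule (Blk f).toSubalgebra)

noncomputable instance instBlkC (f : ι → κ) : CStarAlgebra (Blk f) :=
  StarSubalgebra.cstarAlgebra (S := StarSubalgebra ℂ (Matrix ι ι ℂ)) (A := Matrix ι ι ℂ) (Blk f)
    (h_closed := Blk_closed f)

instance instBlkF (f : ι → κ) : FiniteDimensional ℂ (Blk f) :=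
  FiniteDimensional.finiteDimensional_submodule (Subalgebra.toSubmodule (Blk f).toSubalgebra)

noncomputable instance (priority := 2000) instBlkM (f : ι → κ) : MeasurableSpace (Blk f) := borel _

instance (priority := 2000) instBlkB (f : ι → κ) : BorelSpace (Blk f) := ⟨rfl⟩

theorem Blk_mem {f : ι → κ} (M : Blk f) (i j : ι) (h : f i ≠ f j) : M.1 i j = 0 := M.2 i j h

/-- the entries -/
noncomputable def ent (f : ι → κ) (i j : ι) : Blk f →ₗ[ℂ] ℂ where
  toFun M := M.1 i j
  map_add' _ _ := rfl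
  map_smul' _ _ := rfl

theorem continuous_ent (f : ι → κ) (i j : ι) : Continuous fun M : Blk f => M.1 i j :=
  LinearMap.continuous_of_finiteDimensional (ent f i j)

end blk

/-! ### the two algebras -/

variable {J C α β : Type} [Fintype J] [DecidableEq J] [Fintype C] [DecidableEq C]
  [DecidableEq α] [DecidableEq β] {at_ : J → α} {τ : C → α} {bl : C → β}

theorem sumRR {M : Type*} [AddCommMonoid M] (G : RR at_ τ → M) :
    ∑ r, G r = ∑ c : C, ∑ j : J, if h : τ c = at_ j then G ⟨(c, j), h⟩ else 0 := by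
  rw [← Fintype.sum_prod_type'
      (f := fun (c : C) (j : J) => if h : τ c = at_ j then G ⟨(c, j), h⟩ else 0),
    sum_sub (fun q : C × J => τ q.1 = at_ q.2)
      (fun q => if h : τ q.1 = at_ q.2 then G ⟨(q.1, q.2), h⟩ else 0)
      (fun q hq => dif_neg hq)]
  refine Finset.sum_congr rfl fun q _ => ?_
  rw [dif_pos q.2]

/-- sums over the rows of one copy -/
theorem sumRR_one {M : Type*} [AddCommMonoid M] (c0 : C) (G : J → M)
    (hG : ∀ j, τ c0 ≠ at_ j → G j = 0) :
    ∑ r : RR at_ τ, (if c0 = r.1.1 then G r.1.2 else 0) = ∑ j, G j := by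
  rw [sumRR, Finset.sum_eq_single c0]
  · refine Finset.sum_congr rfl fun j _ => ?_
    split_ifs with h h1
    · rfl
    · exact absurd rfl h1
    · exact (hG j h).symm
  · intro c _ hc
    refine Finset.sum_eq_zero fun j _ => ?_
    split_ifs with h h1
    · exact absurd h1.symm hc
    · rfl
    · rfl
  · intro h
    exact absurd (Finset.mem_univ _) h

/-- the inclusion -/
def iM (a : Matrix J J ℂ) : Matrix (RR at_ τ) (RR at_ τ) ℂ := fun r s =>
  if r.1.1 = s.1.1 then a r.1.2 s.1.2 else 0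

theorem iM_mul (a b : Matrix J J ℂ) (ha : a ∈ Blk at_) :
    (iM (a * b) : Matrix (RR at_ τ) (RR at_ τ) ℂ) = iM a * iM b := by
  ext r s
  rw [Matrix.mul_apply]
  unfold iM
  by_cases h : r.1.1 = s.1.1
  · rw [if_pos h, Matrix.mul_apply, ← sumRR_one (at_ := at_) (τ := τ) r.1.1
      (fun j => a r.1.2 j * b j s.1.2) (fun j hj => by
        rw [ha r.1.2 j (fun e => hj (r.2.trans e)), zero_mul])]
    refine Finset.sum_congr rfl fun t _ => ?_
    by_cases h1 : r.1.1 = t.1.1
    · rw [if_pos h1, if_pos h1, if_pos (h1.symm.trans h)]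
    · rw [if_neg h1, if_neg h1, zero_mul]
  · rw [if_neg h]
    symm
    refine Finset.sum_eq_zero fun t _ => ?_
    by_cases h1 : r.1.1 = t.1.1
    · rw [if_neg (fun e => h (h1.trans e)), mul_zero]
    · rw [if_neg h1, zero_mul]

theorem iM_mem (a : Matrix J J ℂ) : (iM a : Matrix (RR at_ τ) (RR at_ τ) ℂ) ∈
    Blk (bR bl : RR at_ τ → β) := by
  intro r s h
  unfold iM
  rw [if_neg]
  intro e
  exact h (by unfold bR; rw [e])

/-- the inclusion, a homomorphism -/
noncomputable def iH (at_ : J → α) (τ : C → α) (bl : C → β) :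
    Blk at_ →⋆ₐ[ℂ] Blk (bR bl : RR at_ τ → β) where
  toFun a := ⟨iM a.1, iM_mem a.1⟩
  map_one' := by
    apply Subtype.ext
    ext r s
    change (if r.1.1 = s.1.1 then (1 : Matrix J J ℂ) r.1.2 s.1.2 else 0) =
      (1 : Matrix (RR at_ τ) (RR at_ τ) ℂ) r s
    rw [Matrix.one_apply, Matrix.one_apply]
    by_cases h : r = s
    · rw [h]
      simp
    · rw [if_neg h]
      by_cases h1 : r.1.1 = s.1.1
      · rw [if_pos h1, if_neg]
        intro h2
        exact h (Subtype.ext (Prod.ext h1 h2))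
      · rw [if_neg h1]
  map_mul' a b := Subtype.ext (iM_mul a.1 b.1 a.2)
  map_zero' := by
    apply Subtype.ext
    ext r s
    change (if r.1.1 = s.1.1 then (0 : ℂ) else 0) = 0
    simp
  map_add' a b := by
    apply Subtype.ext
    ext r s
    change (if r.1.1 = s.1.1 then a.1 r.1.2 s.1.2 + b.1 r.1.2 s.1.2 else 0) =
      (if r.1.1 = s.1.1 then a.1 r.1.2 s.1.2 else 0) + (if r.1.1 = s.1.1 then b.1 r.1.2 s.1.2 else 0)
    split_ifs
    · rfl
    · rw [add_zero]
  commutes' z := by
    apply Subtype.ext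
    ext r s
    change (if r.1.1 = s.1.1 then (algebraMap ℂ (Matrix J J ℂ) z) r.1.2 s.1.2 else 0) =
      (algebraMap ℂ (Matrix (RR at_ τ) (RR at_ τ) ℂ) z) r s
    rw [Matrix.algebraMap_matrix_apply, Matrix.algebraMap_matrix_apply]
    by_cases h : r = s
    · rw [h]
      simp
    · rw [if_neg h]
      by_cases h1 : r.1.1 = s.1.1
      · rw [if_pos h1, if_neg]
        intro h2
        exact h (Subtype.ext (Prod.ext h1 h2))
      · rw [if_neg h1]
  map_star' a := by
    apply Subtype.ext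
    ext r s
    change (if r.1.1 = s.1.1 then star (a.1 s.1.2 r.1.2) else 0) =
      star (if s.1.1 = r.1.1 then a.1 s.1.2 r.1.2 else 0)
    by_cases h : r.1.1 = s.1.1
    · rw [if_pos h, if_pos h.symm]
    · rw [if_neg h, if_neg (Ne.symm h), star_zero]

/-- the conditional expectation (partial trace) -/
noncomputable def eM (X : Matrix (RR at_ τ) (RR at_ τ) ℂ) : Matrix J J ℂ := fun j j' =>
  ∑ c : C, if h : τ c = at_ j ∧ τ c = at_ j' then X ⟨(c, j), h.1⟩ ⟨(c, j'), h.2⟩ else 0

theorem eM_mem (X : Matrix (RR at_ τ) (RR at_ τ) ℂ) : eM X ∈ Blk at_ := by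
  intro j j' h
  unfold eM
  refine Finset.sum_eq_zero fun c _ => ?_
  rw [dif_neg]
  rintro ⟨h1, h2⟩
  exact h (h1.symm.trans h2)

/-- the partial trace, a linear map -/
noncomputable def eL (at_ : J → α) (τ : C → α) (bl : C → β) :
    Blk (bR bl : RR at_ τ → β) →ₗ[ℂ] Blk at_ where
  toFun X := ⟨eM X.1, eM_mem X.1⟩
  map_add' X Y := by
    apply Subtype.ext
    ext j j'
    change eM (X.1 + Y.1) j j' = eM X.1 j j' + eM Y.1 j j'
    unfold eM
    rw [← Finset.sum_add_distrib]
    refine Finset.sum_congr rfl fun c _ => ?_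
    split_ifs
    · rfl
    · rw [add_zero]
  map_smul' z X := by
    apply Subtype.ext
    ext j j'
    change eM (z • X.1) j j' = z * eM X.1 j j'
    unfold eM
    rw [Finset.mul_sum]
    refine Finset.sum_congr rfl fun c _ => ?_
    split_ifs
    · rfl
    · rw [mul_zero]

theorem eM_star (X : Matrix (RR at_ τ) (RR at_ τ) ℂ) : eM (star X) = star (eM X) := by
  ext j j'
  rw [Matrix.star_apply]
  unfold eM
  rw [star_sum]
  refine Finset.sum_congr rfl fun c _ => ?_
  by_cases h : τ c = at_ j ∧ τ c = at_ j'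
  · rw [dif_pos h, dif_pos h.symm]
    rfl
  · rw [dif_neg h, dif_neg fun h' => h h'.symm, star_zero]

theorem eM_left (a : Matrix J J ℂ) (ha : a ∈ Blk at_) (X : Matrix (RR at_ τ) (RR at_ τ) ℂ) :
    eM (iM a * X) = a * eM X := by
  ext j j'
  rw [Matrix.mul_apply]
  unfold eM
  simp_rw [Finset.mul_sum]
  rw [Finset.sum_comm]
  refine Finset.sum_congr rfl fun c _ => ?_
  by_cases h : τ c = at_ j ∧ τ c = at_ j'
  · rw [dif_pos h, Matrix.mul_apply]
    have e := sumRR_one (at_ := at_) (τ := τ) c (fun l => a j l *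
      (if h : τ c = at_ l ∧ τ c = at_ j' then X ⟨(c, l), h.1⟩ ⟨(c, j'), h.2⟩ else 0)) (fun l hl => by
        rw [ha j l (fun e => hl (h.1.trans e)), zero_mul])
    rw [← e]
    refine Finset.sum_congr rfl fun t _ => ?_
    unfold iM
    by_cases h1 : c = t.1.1
    · rw [if_pos (show ((⟨(c, j), h.1⟩ : RR at_ τ).1.1 = t.1.1) from h1), if_pos h1]
      subst h1
      rw [dif_pos ⟨t.2, h.2⟩]
    · rw [if_neg (show ¬ ((⟨(c, j), h.1⟩ : RR at_ τ).1.1 = t.1.1) from h1), if_neg h1, zero_mul]
  · rw [dif_neg h]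
    symm
    refine Finset.sum_eq_zero fun l _ => ?_
    by_cases h2 : τ c = at_ l ∧ τ c = at_ j'
    · have : at_ j ≠ at_ l := fun e => h ⟨h2.1.trans e.symm, h2.2⟩
      rw [ha j l this, zero_mul]
    · rw [dif_neg h2, mul_zero]

theorem eM_right (b : Matrix J J ℂ) (hb : b ∈ Blk at_) (X : Matrix (RR at_ τ) (RR at_ τ) ℂ) :
    eM (X * iM b) = eM X * b := by
  have hb' : star b ∈ Blk at_ := (Blk at_).star_mem' hb
  have e1 : (iM (star b) : Matrix (RR at_ τ) (RR at_ τ) ℂ) = star (iM b) := by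
    ext r s
    change (if r.1.1 = s.1.1 then star (b s.1.2 r.1.2) else 0) =
      star (if s.1.1 = r.1.1 then b s.1.2 r.1.2 else 0)
    by_cases h : r.1.1 = s.1.1
    · rw [if_pos h, if_pos h.symm]
    · rw [if_neg h, if_neg (Ne.symm h), star_zero]
  have h := eM_left (star b) hb' (star X)
  rw [e1, ← star_mul, eM_star, eM_star, ← star_mul] at h
  exact star_injective h

theorem eM_diag (X : Matrix (RR at_ τ) (RR at_ τ) ℂ) (j : J) :
    eM (X * star X) j j = ((∑ c : C, ∑ k, (if h : τ c = at_ j then ‖X ⟨(c, j), h⟩ k‖ ^ 2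
      else 0) : ℝ) : ℂ) := by
  unfold eM
  rw [Complex.ofReal_sum]
  refine Finset.sum_congr rfl fun c _ => ?_
  by_cases h : τ c = at_ j
  · rw [dif_pos ⟨h, h⟩, Matrix.mul_apply, Complex.ofReal_sum]
    refine Finset.sum_congr rfl fun k _ => ?_
    rw [dif_pos h, Matrix.star_apply, Complex.star_def, Complex.mul_conj,
      Complex.normSq_eq_norm_sq]
  · rw [dif_neg fun h' => h h'.1]
    symm
    rw [Complex.ofReal_eq_zero]
    exact Finset.sum_eq_zero fun k _ => dif_neg h

/-- the partial trace is faithful -/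
theorem eM_faith {X : Matrix (RR at_ τ) (RR at_ τ) ℂ} (h : eM (X * star X) = 0) : X = 0 := by
  ext r k
  have h1 := congrFun (congrFun h r.1.2) r.1.2
  rw [eM_diag] at h1
  change _ = (0 : ℂ) at h1
  rw [Complex.ofReal_eq_zero] at h1
  have hn : ∀ c ∈ Finset.univ, (0 : ℝ) ≤ ∑ k, (if h : τ c = at_ r.1.2 then
      ‖X ⟨(c, r.1.2), h⟩ k‖ ^ 2 else 0) := fun c _ => Finset.sum_nonneg fun k _ => by
    split_ifs <;> positivity
  have h2 := (Finset.sum_eq_zero_iff_of_nonneg hn).1 h1 r.1.1 (Finset.mem_univ _)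
  have h3 := (Finset.sum_eq_zero_iff_of_nonneg (fun k _ => by
    split_ifs <;> positivity)).1 h2 k (Finset.mem_univ _)
  rw [dif_pos r.2] at h3
  exact norm_eq_zero.1 (pow_eq_zero_iff two_ne_zero |>.1 h3)

/-- the sum of rank one matrices -/
theorem eM_nonneg (X : Matrix (RR at_ τ) (RR at_ τ) ℂ) :
    ∃ b : C × RR at_ τ → Blk at_, (∑ q, b q * star (b q)).1 = eM (X * star X) := by
  classical
  let b : C × RR at_ τ → Blk at_ := fun q =>
    if hq : ∃ l, τ q.1 = at_ l then
      ⟨fun j l => if h : τ q.1 = at_ j ∧ l = hq.choose then X ⟨(q.1, j), h.1⟩ q.2 else 0, by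
        intro j l hjl
        change (if h : τ q.1 = at_ j ∧ l = hq.choose then X ⟨(q.1, j), h.1⟩ q.2 else 0) = 0
        rw [dif_neg]
        rintro ⟨h1, h2⟩
        apply hjl
        rw [← h1, h2]
        exact hq.choose_spec⟩
    else 0
  refine ⟨b, ?_⟩
  have e0 : (∑ q, b q * star (b q)).1 = ∑ q, (b q).1 * star (b q).1 := by
    exact map_sum (Blk at_).subtype (fun q => b q * star (b q)) Finset.univ
  rw [e0]
  ext j j'
  rw [Matrix.sum_apply, Fintype.sum_prod_type]
  unfold eM
  refine Finset.sum_congr rfl fun c _ => ?_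
  by_cases hq : ∃ l, τ c = at_ l
  · have hb : ∀ k j l, (b (c, k)).1 j l =
        if h : τ c = at_ j ∧ l = hq.choose then X ⟨(c, j), h.1⟩ k else 0 := by
      intro k j l
      change (b (c, k)).1 j l = _
      simp only [b]
      rw [dif_pos hq]
    have e1 : ∀ k, ((b (c, k)).1 * star (b (c, k)).1) j j' =
        if h : τ c = at_ j ∧ τ c = at_ j' then X ⟨(c, j), h.1⟩ k * star (X ⟨(c, j'), h.2⟩ k) else 0 := by
      intro k
      rw [Matrix.mul_apply, Finset.sum_eq_single hq.choose]
      · rw [Matrix.star_apply, hb, hb]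
        by_cases h1 : τ c = at_ j
        · by_cases h2 : τ c = at_ j'
          · rw [dif_pos ⟨h1, rfl⟩, dif_pos ⟨h2, rfl⟩, dif_pos ⟨h1, h2⟩]
          · rw [dif_neg (c := τ c = at_ j' ∧ _) (fun h => h2 h.1), star_zero, mul_zero,
              dif_neg fun h => h2 h.2]
        · rw [dif_neg (c := τ c = at_ j ∧ _) (fun h => h1 h.1), zero_mul, dif_neg fun h => h1 h.1]
      · intro l _ hl
        rw [hb, dif_neg (fun h => hl h.2), zero_mul]
      · intro h
        exact absurd (Finset.mem_univ _) h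
    rw [Finset.sum_congr rfl fun k _ => e1 k]
    by_cases h : τ c = at_ j ∧ τ c = at_ j'
    · rw [dif_pos h, Matrix.mul_apply]
      refine Finset.sum_congr rfl fun k _ => ?_
      rw [dif_pos h]
      rfl
    · rw [dif_neg h]
      exact Finset.sum_eq_zero fun k _ => dif_neg h
  · have hb : ∀ k, b (c, k) = 0 := by
      intro k
      simp only [b]
      rw [dif_neg hq]
    rw [dif_neg fun h => hq ⟨j, h.1⟩]
    refine Finset.sum_eq_zero fun k _ => ?_
    rw [hb k]
    simp

end Pool.Agent.L0h31.KQ
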