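import Pool.Agent.L0h31.KQ.Ccq

/-!
# The compact body
-/

set_option autoImplicit false
set_option linter.unusedSectionVars false

namespace Pool.Agent.L0h31.KQ

open MeasureTheory
open scoped ENNReal InnerProductSpace ComplexOrder
open Pool.Agent.H212R2.KLS (V)

section pd

variable {ι κ : Type} [Fintype ι] [DecidableEq ι] {f : ι → κ}

/-- an element with an invertible matrix is invertible -/
theorem unit_of_det (x : Blk f) (h : IsUnit x.1) : IsUnit x := by
  have hinj : Function.Injective (LinearMap.mulLeft ℂ x) := by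
    rw [← LinearMap.ker_eq_bot, LinearMap.ker_eq_bot']
    intro b hb
    have hb' : x.1 * b.1 = 0 := congrArg Subtype.val (show x * b = 0 from hb)
    apply Subtype.ext
    exact (IsUnit.mul_right_eq_zero h).1 hb'
  obtain ⟨c, hc⟩ := LinearMap.injective_iff_surjective.1 hinj 1
  have hc' : x * c = 1 := hc
  have h6 : x.1 * c.1 = 1 := congrArg Subtype.val hc'
  have h7 : c.1 * x.1 = 1 := mul_eq_one_comm.1 h6
  exact ⟨⟨x, c, hc', Subtype.ext h7⟩, rfl⟩

theorem det_of_unit (x : Blk f) (h : IsUnit x) : IsUnit x.1 := by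
  obtain ⟨u, rfl⟩ := h
  have h1 : (u : Blk f).1 * (↑u⁻¹ : Blk f).1 = 1 := congrArg Subtype.val u.mul_inv
  have h2 : (↑u⁻¹ : Blk f).1 * (u : Blk f).1 = 1 := congrArg Subtype.val u.inv_mul
  exact ⟨⟨_, _, h1, h2⟩, rfl⟩

theorem pd_iff (w : Hs (Blk f)) : w ∈ PD (Blk f) ↔ (w : Blk f).1.PosDef := by
  constructor
  · rintro ⟨p, hp, hw⟩
    have e : (w : Blk f).1 = p.1 * star p.1 := congrArg Subtype.val hw
    rw [e]
    refine Matrix.PosDef.mul_conjTranspose_self p.1 ?_
    exact Matrix.vecMul_injective_of_isUnit (det_of_unit p hp)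
  · intro h
    let _ := CStarAlgebra.spectralOrder (Blk f)
    let _ := CStarAlgebra.spectralOrderedRing (Blk f)
    have hsa : IsSelfAdjoint (w : Blk f) := w.2
    have h0 : 0 ≤ (w : Blk f) := by
      rw [StarOrderedRing.nonneg_iff_spectrum_nonneg (R := ℝ) (w : Blk f) hsa]
      intro t ht
      by_contra hneg
      push Not at hneg
      apply ht
      have h1 : IsUnit (algebraMap ℝ (Blk f) t - w : Blk f).1 := by
        have h2 : ((w : Blk f).1 + (-t) • (1 : Matrix ι ι ℂ)).PosDef := by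
          refine h.add_posSemidef ?_
          exact Matrix.PosSemidef.one.smul (by linarith : (0 : ℝ) ≤ -t)
        have h3 := h2.isUnit.neg
        have e : (algebraMap ℝ (Blk f) t - w : Blk f).1 =
            -((w : Blk f).1 + (-t) • (1 : Matrix ι ι ℂ)) := by
          have e2 : (algebraMap ℝ (Blk f) t : Blk f).1 = t • (1 : Matrix ι ι ℂ) := by
            rw [Algebra.algebraMap_eq_smul_one]
            rfl
          change (algebraMap ℝ (Blk f) t : Blk f).1 - (w : Blk f).1 = _
          rw [e2, neg_smul]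
          abel
        rw [e]
        exact h3
      exact unit_of_det _ h1
    refine ⟨CFC.sqrt (w : Blk f), (CFC.isUnit_sqrt_iff _ h0).2 (unit_of_det _ h.isUnit), ?_⟩
    have h2 : star (CFC.sqrt (w : Blk f)) = CFC.sqrt (w : Blk f) :=
      (CFC.sqrt_nonneg (w : Blk f)).isSelfAdjoint
    rw [h2]
    exact (CFC.sqrt_mul_sqrt_self _ h0).symm

end pd

theorem ae_abs {M : Type} [NormedAddCommGroup M] [NormedSpace ℝ M] [FiniteDimensional ℝ M]
    [MeasurableSpace M] [BorelSpace M] (lam : Measure M) [lam.IsAddHaarMeasure] {Q K : Set M}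
    (h1 : Convex ℝ Q) (h2 : IsOpen Q) (h3 : Q ⊆ K) (h4 : K ⊆ closure Q) : K =ᵐ[lam] Q := by
  have h5 : closure Q =ᵐ[lam] Q := by
    have hf := h1.addHaar_frontier lam
    have h6 : closure Q =ᵐ[lam] interior Q := by
      refine (Filter.EventuallyEq.symm ?_)
      rw [ae_eq_set]
      refine ⟨?_, hf⟩
      rw [sdiff_eq_bot_iff.2 (interior_subset.trans subset_closure)]
      exact measure_empty
    rwa [h2.interior_eq] at h6
  exact Filter.EventuallyLE.antisymm (h4.eventuallyLE.trans h5.le) h3.eventuallyLE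

section op

variable {B : Type} [CStarAlgebra B] [FiniteDimensional ℂ B]

theorem isOpen_PD : IsOpen (PD B) := by
  rw [isOpen_iff_mem_nhds]
  rintro w ⟨p, hp, hw⟩
  have hc : Continuous fun w : Hs B => cg (Ring.inverse p) w := by
    have : FiniteDimensional ℝ B := FiniteDimensional.complexToReal B
    exact LinearMap.continuous_of_finiteDimensional _
  have h0 : cg (Ring.inverse p) w = Pool.Agent.L0h85.KQ.one' := by
    have h1 : w = cg p Pool.Agent.L0h85.KQ.one' := by
      apply Subtype.ext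
      rw [Pool.Agent.L0h85.KQ.cg_coe]
      change (w : B) = p * 1 * star p
      rw [mul_one]
      exact hw
    rw [h1, Pool.Agent.L0h85.KQ.cg_inv hp]
  have hop : IsOpen ((fun w : Hs B => cg (Ring.inverse p) w) ⁻¹'
      Metric.ball (Pool.Agent.L0h85.KQ.one' : Hs B) 1) := Metric.isOpen_ball.preimage hc
  refine Filter.mem_of_superset (hop.mem_nhds ?_) ?_
  · rw [Set.mem_preimage, h0]
    exact Metric.mem_ball_self one_pos
  · intro z hz
    have h2 := Pool.Agent.L0h85.KQ.ball_pd hz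
    have h3 := Pool.Agent.L0h85.KQ.cg_pd hp h2
    have h4 : cg p (cg (Ring.inverse p) z) = z := by
      rw [← Pool.Agent.L0h85.KQ.cg_mul, Ring.mul_inverse_cancel _ hp, Pool.Agent.L0h85.KQ.cg_one]
    rw [h4] at h3
    exact h3

end op

variable {J C α β : Type} [Fintype J] [DecidableEq J] [Fintype C] [DecidableEq C] [Fintype α]
  [DecidableEq α] [DecidableEq β] {at_ : J → α} {τ : C → α} {bl : C → β}

variable (hcov : Cov at_ τ)

theorem K1_iff (z : (DD hcov bl).N) :
    z ∈ K1 (DD hcov bl) (x0 at_ τ bl) ↔ (Xz hcov z).PosDef := pd_iff _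

/-- the compact body -/
def Kc (hcov : Cov at_ τ) (bl : C → β) : Set (DD hcov bl).N := {z | (Xz hcov z).PosSemidef}

theorem K1_sub : K1 (DD hcov bl) (x0 at_ τ bl) ⊆ Kc hcov bl := fun z hz =>
  ((K1_iff hcov z).1 hz).posSemidef

theorem K1_open : IsOpen (K1 (DD hcov bl) (x0 at_ τ bl)) :=
  isOpen_PD.preimage (continuous_const.add continuous_subtype_val)

theorem Xz_zero : (Xz hcov (0 : (DD hcov bl).N)).PosDef := by
  have h := (pd_iff _).1 (x0_pd (at_ := at_) (τ := τ) (bl := bl))
  have e : Xz hcov (0 : (DD hcov bl).N) = (x0 at_ τ bl : Blk (bR bl : RR at_ τ → β)).1 := by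
    unfold Xz
    rw [Submodule.coe_zero, add_zero]
  rw [e]
  exact h

theorem Xz_comb (z z' : (DD hcov bl).N) {a b : ℝ} (hab : a + b = 1) :
    Xz hcov (a • z + b • z') = a • Xz hcov z + b • Xz hcov z' := by
  unfold Xz
  ext r s
  change (x0 at_ τ bl : Blk (bR bl : RR at_ τ → β)).1 r s +
    (a • ((z : Hs (Blk (bR bl : RR at_ τ → β))) : Blk (bR bl : RR at_ τ → β)).1 r s +
      b • ((z' : Hs (Blk (bR bl : RR at_ τ → β))) : Blk (bR bl : RR at_ τ → β)).1 r s) =
    a • ((x0 at_ τ bl : Blk (bR bl : RR at_ τ → β)).1 r s +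
      ((z : Hs (Blk (bR bl : RR at_ τ → β))) : Blk (bR bl : RR at_ τ → β)).1 r s) +
    b • ((x0 at_ τ bl : Blk (bR bl : RR at_ τ → β)).1 r s +
      ((z' : Hs (Blk (bR bl : RR at_ τ → β))) : Blk (bR bl : RR at_ τ → β)).1 r s)
  rw [smul_add, smul_add]
  have h : (x0 at_ τ bl : Blk (bR bl : RR at_ τ → β)).1 r s =
      a • (x0 at_ τ bl : Blk (bR bl : RR at_ τ → β)).1 r s +
      b • (x0 at_ τ bl : Blk (bR bl : RR at_ τ → β)).1 r s := by
    rw [← add_smul, hab, one_smul]
  conv_lhs => rw [h]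
  abel

theorem Kc_convex : Convex ℝ (Kc hcov bl) := by
  intro x hx y hy a b ha hb hab
  change (Xz hcov (a • x + b • y)).PosSemidef
  rw [Xz_comb hcov x y hab]
  exact (Matrix.PosSemidef.smul hx ha).add (Matrix.PosSemidef.smul hy hb)

theorem smul_Kc {x : (DD hcov bl).N} (hx : x ∈ Kc hcov bl) {t : ℝ} (h0 : 0 ≤ t) (h1 : t < 1) :
    t • x ∈ K1 (DD hcov bl) (x0 at_ τ bl) := by
  rw [K1_iff]
  have e : t • x = t • x + (1 - t) • (0 : (DD hcov bl).N) := by rw [smul_zero, add_zero]
  rw [e, Xz_comb hcov x 0 (by ring)]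
  exact Matrix.PosDef.posSemidef_add (Matrix.PosSemidef.smul hx h0)
    ((Xz_zero hcov).smul (by linarith : 0 < 1 - t))

theorem K1_convex : Convex ℝ (K1 (DD hcov bl) (x0 at_ τ bl)) := by
  intro x hx y hy a b ha hb hab
  rw [K1_iff] at hx hy ⊢
  rw [Xz_comb hcov x y hab]
  rcases eq_or_lt_of_le ha with h | h
  · rw [← h, zero_smul, zero_add]
    have : b = 1 := by linarith
    rw [this, one_smul]
    exact hy
  · exact Matrix.PosDef.add_posSemidef (hx.smul h) (hy.posSemidef.smul hb)

theorem Kc_sub : Kc hcov bl ⊆ closure (K1 (DD hcov bl) (x0 at_ τ bl)) := by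
  intro x hx
  have hlim : Filter.Tendsto (fun t : ℝ => t • x) (nhdsWithin 1 (Set.Ico 0 1)) (nhds x) := by
    have : Filter.Tendsto (fun t : ℝ => t • x) (nhds 1) (nhds ((1 : ℝ) • x)) :=
      (continuous_id.smul continuous_const).tendsto 1
    rw [one_smul] at this
    exact this.mono_left nhdsWithin_le_nhds
  have hNe : (nhdsWithin (1 : ℝ) (Set.Ico 0 1)).NeBot := by
    rw [← mem_closure_iff_nhdsWithin_neBot, closure_Ico (by norm_num)]
    simp
  refine mem_closure_of_tendsto hlim ?_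
  filter_upwards [self_mem_nhdsWithin] with t ht
  exact smul_Kc hcov hx ht.1 ht.2

theorem Kc_ae (lam : Measure (DD hcov bl).N) [lam.IsAddHaarMeasure] :
    Kc hcov bl =ᵐ[lam] K1 (DD hcov bl) (x0 at_ τ bl) := by
  have : FiniteDimensional ℝ (Blk (bR bl : RR at_ τ → β)) := FiniteDimensional.complexToReal _
  exact ae_abs lam (K1_convex hcov) (K1_open hcov) (K1_sub hcov) (Kc_sub hcov)

theorem Kc_closed : IsClosed (Kc hcov bl) := by
  have hent : ∀ r s, Continuous fun z : (DD hcov bl).N => Xz hcov z r s := by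
    intro r s
    unfold Xz
    exact (continuous_ent _ r s).comp (continuous_subtype_val.comp
      (continuous_const.add continuous_subtype_val))
  have h : Kc hcov bl = ⋂ v : RR at_ τ → ℂ, {z | 0 ≤ star v ⬝ᵥ (Xz hcov z).mulVec v} := by
    ext z
    rw [Set.mem_iInter]
    constructor
    · intro hz v
      exact Matrix.PosSemidef.dotProduct_mulVec_nonneg hz v
    · intro hz
      refine Matrix.PosSemidef.of_dotProduct_mulVec_nonneg ?_ hz
      ext r s
      exact Hs_star (x0 at_ τ bl + (z : Hs (Blk (bR bl : RR at_ τ → β)))) r s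
  rw [h]
  refine isClosed_iInter fun v => isClosed_le continuous_const ?_
  unfold dotProduct Matrix.mulVec dotProduct
  exact continuous_finsetSum _ fun r _ => continuous_const.mul
    (continuous_finsetSum _ fun s _ => (hent r s).mul continuous_const)

theorem K1_bdd : K1 (DD hcov bl) (x0 at_ τ bl) ⊆ (entN hcov bl) ⁻¹' Metric.closedBall 0 2 := by
  intro z hz
  rw [Set.mem_preimage, mem_closedBall_zero_iff]
  refine (pi_norm_le_iff_of_nonneg zero_le_two).2 fun q => ?_
  have hz' : x0 at_ τ bl + (z : Hs (Blk (bR bl : RR at_ τ → β))) ∈ PD _ := hz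
  have h1 : (DD hcov bl).e ((x0 at_ τ bl + (z : Hs (Blk (bR bl : RR at_ τ → β))) : Hs _) :
      Blk (bR bl : RR at_ τ → β)) = 1 := by
    change (DD hcov bl).e ((x0 at_ τ bl : Blk (bR bl : RR at_ τ → β)) + _) = 1
    rw [map_add, es_x0]
    have h2 : (DD hcov bl).es (z : Hs (Blk (bR bl : RR at_ τ → β))) = 0 := z.2
    have h3 : (DD hcov bl).e ((z : Hs (Blk (bR bl : RR at_ τ → β))) : Blk (bR bl : RR at_ τ → β)) = 0 :=
      congrArg Subtype.val h2
    rw [h3, add_zero]
  have h4 := pd_entry hcov hz' h1 q.1 q.2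
  have h5 := pd_entry hcov (x0_pd (at_ := at_) (τ := τ) (bl := bl)) (es_x0 hcov) q.1 q.2
  have h6 : entN hcov bl z q = ((x0 at_ τ bl + (z : Hs (Blk (bR bl : RR at_ τ → β))) : Hs _) :
      Blk (bR bl : RR at_ τ → β)).1 q.1 q.2 - (x0 at_ τ bl : Blk (bR bl : RR at_ τ → β)).1 q.1 q.2 := by
    change entN hcov bl z q = ((x0 at_ τ bl : Blk (bR bl : RR at_ τ → β)).1 q.1 q.2 +
      entN hcov bl z q) - (x0 at_ τ bl : Blk (bR bl : RR at_ τ → β)).1 q.1 q.2
    rw [add_sub_cancel_left]
  rw [h6]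
  exact (norm_sub_le _ _).trans (by linarith)

theorem Kc_compact : IsCompact (Kc hcov bl) := by
  have : FiniteDimensional ℝ (Blk (bR bl : RR at_ τ → β)) := FiniteDimensional.complexToReal _
  have he := (LinearMap.isClosedEmbedding_of_injective
    (LinearMap.ker_eq_bot.2 (entN_inj hcov (bl := bl))))
  have hc : IsCompact ((entN hcov bl) ⁻¹' Metric.closedBall 0 2) :=
    he.isCompact_preimage (isCompact_closedBall _ _)
  refine hc.of_isClosed_subset (Kc_closed hcov) ((Kc_sub hcov).trans ?_)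
  exact closure_minimal (K1_bdd hcov) hc.isClosed

end Pool.Agent.L0h31.KQ
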