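import Pool.Agent.L0h31.KQ.Body

/-!
# Translations, coordinates
-/

set_option autoImplicit false
set_option linter.unusedSectionVars false

namespace Pool.Agent.L0h31.KQ

open MeasureTheory
open scoped ENNReal InnerProductSpace ComplexOrder
open Pool.Agent.H212R2.KLS (V)
open Pool.Agent.Y506.PV (CcW ind)
open Pool.Agent.R754.KG (un VW_ind un_prob)
open Pool.Agent.Y506.RG (VW EW)

section tr

variable {n : ℕ}

theorem un_int {K : Set (V n)} (hK : IsCompact K) (h0 : volume K ≠ 0) {F : V n → ℝ}
    (hF : Continuous F) : Integrable F (un K) := by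
  unfold un
  exact Integrable.smul_measure (hF.continuousOn.integrableOn_compact hK)
    (ENNReal.inv_ne_top.2 h0)

theorem VW_sub {K : Set (V n)} (hK : IsCompact K) (h0 : volume K ≠ 0) {F : V n → ℝ}
    (hF : Continuous F) (c : ℝ) : VW (ind K) (fun x => F x - c) = VW (ind K) F := by
  have hp : IsProbabilityMeasure (un K) := un_prob h0 hK.measure_lt_top.ne
  have i1 := un_int hK h0 hF
  have i2 := un_int hK h0 (hF.pow 2)
  rw [VW_ind hK.measurableSet, VW_ind hK.measurableSet, Pool.Agent.L0h31.KE.var_eq i1 i2 c,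
    integral_sub i1 (integrable_const c), integral_const, probReal_univ, one_smul]
  ring

theorem VW_tr (K : Set (V n)) (w : V n) (F : V n → ℝ) :
    VW (ind ((fun x => x + w) ⁻¹' K)) F = VW (ind K) (fun y => F (y - w)) := by
  have hE : ∀ G : V n → ℝ, EW (ind ((fun x => x + w) ⁻¹' K)) G = EW (ind K) (fun y => G (y - w)) := by
    intro G
    unfold EW
    have e1 : ∀ H : V n → ℝ, ∫ x, H x * ind ((fun x => x + w) ⁻¹' K) x =
        ∫ y, H (y - w) * ind K y := by
      intro H
      rw [← integral_add_right_eq_self (fun y => H (y - w) * ind K y) w]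
      refine integral_congr_ae (Filter.Eventually.of_forall fun x => ?_)
      simp only
      rw [add_sub_cancel_right]
      rfl
    have e2 := e1 (fun _ => 1)
    simp only [one_mul] at e2
    rw [e1 G, e2]
  unfold VW
  rw [hE, hE]

theorem ccw_tr {κ δ : ℝ} {K : Set (V n)} (hK : IsCompact K) (h0 : volume K ≠ 0) (w : V n)
    (h : CcW κ δ (ind K)) : CcW κ δ (ind ((fun x => x + w) ⁻¹' K)) := by
  intro k hk T s hs hT v hv hv1 hvd
  have hTc : Continuous T := LinearMap.continuous_of_finiteDimensional T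
  rw [VW_tr]
  have e : (fun y => v (T (y - w))) = fun y => (fun z => v (z - T w)) (T y) := by
    funext y
    simp only
    rw [map_sub]
  rw [e]
  refine h k hk T s hs ?_ (fun z => v (z - T w)) (hv.comp (contDiff_id.sub contDiff_const))
    (fun y => hv1 _) ?_
  · intro θ hθ
    have h1 := hT θ hθ
    rw [VW_tr] at h1
    have e2 : (fun y => ⟪T (y - w), θ⟫_ℝ) = fun y => ⟪T y, θ⟫_ℝ - ⟪T w, θ⟫_ℝ := by
      funext y
      rw [map_sub, inner_sub_left]
    rw [e2, VW_sub hK h0 (by fun_prop : Continuous fun y => ⟪T y, θ⟫_ℝ)] at h1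
    exact h1
  · intro y
    have h1 : HasFDerivAt (fun z => v (z - T w)) (fderiv ℝ v (y - T w)) y := by
      have h2 : HasFDerivAt (fun z : V k => z - T w) (ContinuousLinearMap.id ℝ (V k)) y :=
        (hasFDerivAt_id y).sub_const (T w)
      have h3 := ((hv.differentiable one_ne_zero) (y - T w)).hasFDerivAt.comp y h2
      rwa [ContinuousLinearMap.comp_id] at h3
    rw [h1.fderiv]
    exact hvd _

end tr

variable {J C α β : Type} [Fintype J] [DecidableEq J] [Fintype C] [DecidableEq C] [Fintype α]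
  [DecidableEq α] [DecidableEq β] {at_ : J → α} {τ : C → α} {bl : C → β}

variable (hcov : Cov at_ τ)

/-- the body in linear coordinates -/
theorem body_lin {N : ℕ} (A : (DD hcov bl).N ≃ₗ[ℝ] V N) {K : Set (V N)}
    (h : A ⁻¹' K = Kc hcov bl) : IsCompact K ∧ Convex ℝ K ∧ (interior K).Nonempty := by
  have : FiniteDimensional ℝ (Blk (bR bl : RR at_ τ → β)) := FiniteDimensional.complexToReal _
  have hK : K = A '' Kc hcov bl := by
    rw [← h, Set.image_preimage_eq _ A.surjective]
  have hAc : Continuous A := LinearMap.continuous_of_finiteDimensional A.toLinearMap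
  refine ⟨?_, ?_, ?_⟩
  · rw [hK]
    exact (Kc_compact hcov).image hAc
  · rw [hK]
    exact (Kc_convex hcov).linear_image A.toLinearMap
  · have hopen : IsOpen (A '' K1 (DD hcov bl) (x0 at_ τ bl)) := by
      have := A.toContinuousLinearEquiv.toHomeomorph.isOpenMap _ (K1_open hcov (bl := bl))
      exact this
    have hsub : A '' K1 (DD hcov bl) (x0 at_ τ bl) ⊆ K := by
      rw [hK]
      exact Set.image_mono (K1_sub hcov)
    exact ⟨A 0, interior_maximal hsub hopen ⟨0, (K1_iff hcov 0).2 (Xz_zero hcov), rfl⟩⟩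

/-- the body in affine coordinates -/
theorem body_of {N : ℕ} (A : (DD hcov bl).N ≃ₗ[ℝ] V N) (w : V N) {K : Set (V N)}
    (h : ∀ x, x ∈ K ↔ A.symm (x + w) ∈ Kc hcov bl) :
    IsCompact K ∧ Convex ℝ K ∧ (interior K).Nonempty ∧
    ∃ K' : Set (V N), IsCompact K' ∧ volume K' ≠ 0 ∧ A ⁻¹' K' = Kc hcov bl ∧
      K = (fun x => x + w) ⁻¹' K' := by
  set K' : Set (V N) := {y | A.symm y ∈ Kc hcov bl} with hK'
  have h1 : A ⁻¹' K' = Kc hcov bl := by
    ext z
    change A.symm (A z) ∈ Kc hcov bl ↔ _
    rw [A.symm_apply_apply]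
  have h2 : K = (fun x => x + w) ⁻¹' K' := by
    ext x
    exact h x
  obtain ⟨b1, b2, b3⟩ := body_lin hcov A h1
  refine ⟨?_, ?_, ?_, K', b1, ?_, h1, h2⟩
  · rw [h2]
    exact (Homeomorph.addRight w).isCompact_preimage.2 b1
  · rw [h2]
    exact b2.translate_preimage_left w
  · rw [h2]
    have h3 : (fun x : V N => x + w) ⁻¹' interior K' ⊆ interior ((fun x => x + w) ⁻¹' K') :=
      interior_maximal (Set.preimage_mono interior_subset)
        (isOpen_interior.preimage (continuous_id.add continuous_const))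
    obtain ⟨y, hy⟩ := b3
    refine ⟨y - w, h3 ?_⟩
    change y - w + w ∈ interior K'
    rw [sub_add_cancel]
    exact hy
  · exact (Pool.Agent.Y506.PV.vol_pos b3).ne'

end Pool.Agent.L0h31.KQ
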