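import Mathlib

/-!
# The gap of the Casimir operator of `u(M)` in unitary representations with integral weights
-/

set_option autoImplicit false

namespace Pool.Agent.L0h31.KQ

open scoped InnerProductSpace

/-- the sum of the differences of the weights -/
theorem weight_sum {ι : Type*} [Fintype ι] (w : ι → ℤ) {p0 : ι} (h : w p0 ≠ 0) :
    (2 * Fintype.card ι : ℝ) ≤ (∑ p, ∑ q, |((w p : ℝ) - w q)|) + 2 * ∑ p, (w p : ℝ) ^ 2 := by
  classical
  have h1 : ∀ q, (1 : ℝ) ≤ |((w p0 : ℝ) - w q)| + (w q : ℝ) ^ 2 := by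
    intro q
    have : (1 : ℤ) ≤ |w p0 - w q| + (w q) ^ 2 := by
      by_cases hq : w q = 0
      · rw [hq]
        have := Int.one_le_abs h
        simpa using this
      · have h2 : 1 ≤ (w q) ^ 2 := by
          have := Int.one_le_abs hq
          nlinarith [sq_abs (w q), abs_nonneg (w q)]
        have := abs_nonneg (w p0 - w q)
        linarith
    exact_mod_cast this
  have h2 : ∑ q, |((w p0 : ℝ) - w q)| + ∑ p, |((w p : ℝ) - w p0)| ≤
      ∑ p, ∑ q, |((w p : ℝ) - w q)| := by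
    have e1 : ∑ p, ∑ q, |((w p : ℝ) - w q)| =
        (∑ q, |((w p0 : ℝ) - w q)|) + ∑ p ∈ Finset.univ.erase p0, ∑ q, |((w p : ℝ) - w q)| :=
      (Finset.add_sum_erase _ _ (Finset.mem_univ p0)).symm
    have e2 : ∑ p, |((w p : ℝ) - w p0)| =
        |((w p0 : ℝ) - w p0)| + ∑ p ∈ Finset.univ.erase p0, |((w p : ℝ) - w p0)| :=
      (Finset.add_sum_erase _ _ (Finset.mem_univ p0)).symm
    rw [e1, e2, sub_self, abs_zero, zero_add]
    gcongr with p hp
    exact Finset.single_le_sum (f := fun q => |((w p : ℝ) - w q)|) (fun q _ => abs_nonneg _)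
      (Finset.mem_univ p0)
  have h3 : ∑ p, |((w p : ℝ) - w p0)| = ∑ q, |((w p0 : ℝ) - w q)| :=
    Finset.sum_congr rfl fun p _ => abs_sub_comm _ _
  have h4 : (Fintype.card ι : ℝ) ≤ ∑ q, (|((w p0 : ℝ) - w q)| + (w q : ℝ) ^ 2) := by
    calc (Fintype.card ι : ℝ) = ∑ _q : ι, (1 : ℝ) := by simp
      _ ≤ _ := Finset.sum_le_sum fun q _ => h1 q
  rw [Finset.sum_add_distrib] at h4
  linarith

section
variable {W : Type*} [NormedAddCommGroup W] [InnerProductSpace ℂ W]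
variable {ι : Type*} [Fintype ι] [DecidableEq ι]

/-- a unitary representation of `u(M)`, complexified: `T p q` is the image of the matrix unit -/
structure Rep (T : ι → ι → W →ₗ[ℂ] W) : Prop where
  adj : ∀ p q x y, ⟪T p q x, y⟫_ℂ = ⟪x, T q p y⟫_ℂ
  comm : ∀ p q r s x, T p q (T r s x) - T r s (T p q x) =
    (if q = r then T p s x else 0) - (if p = s then T r q x else 0)

/-- the Casimir operator -/
noncomputable def cas (T : ι → ι → W →ₗ[ℂ] W) : W →ₗ[ℂ] W := ∑ p, ∑ q, T q p ∘ₗ T p q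

theorem cas_apply (T : ι → ι → W →ₗ[ℂ] W) (x : W) :
    cas T x = ∑ p, ∑ q, T q p (T p q x) := by
  simp [cas, LinearMap.sum_apply]

variable {T : ι → ι → W →ₗ[ℂ] W}

theorem inner_cas (h : Rep T) (x : W) :
    ⟪x, cas T x⟫_ℂ = ((∑ p, ∑ q, ‖T p q x‖ ^ 2 : ℝ) : ℂ) := by
  rw [cas_apply, inner_sum]
  push_cast
  refine Finset.sum_congr rfl fun p _ => ?_
  rw [inner_sum]
  refine Finset.sum_congr rfl fun q _ => ?_
  rw [← h.adj p q x (T p q x), inner_self_eq_norm_sq_to_K]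
  rfl

theorem cas_symm (h : Rep T) : (cas T).IsSymmetric := by
  intro x y
  rw [cas_apply, cas_apply, sum_inner, inner_sum]
  refine Finset.sum_congr rfl fun p _ => ?_
  rw [sum_inner, inner_sum]
  refine Finset.sum_congr rfl fun q _ => ?_
  rw [h.adj, h.adj]

theorem diag_symm (h : Rep T) (p : ι) : (T p p).IsSymmetric := fun x y => h.adj p p x y

/-- the Casimir operator is central -/
theorem cas_comm (h : Rep T) (r s : ι) (x : W) : T r s (cas T x) = cas T (T r s x) := by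
  rw [cas_apply, cas_apply, map_sum]
  simp_rw [map_sum]
  rw [← sub_eq_zero, ← Finset.sum_sub_distrib]
  simp_rw [← Finset.sum_sub_distrib]
  have e : ∀ p q : ι, T r s (T q p (T p q x)) - T q p (T p q (T r s x)) =
      ((if s = q then T r p (T p q x) else 0) - (if r = p then T q s (T p q x) else 0)) +
      ((if s = p then T q p (T r q x) else 0) - (if r = q then T q p (T p s x) else 0)) := by
    intro p q
    have h1 := h.comm r s q p (T p q x)
    have h2 := congrArg (T q p) (h.comm r s p q x)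
    rw [map_sub, map_sub, apply_ite (T q p), apply_ite (T q p), map_zero] at h2
    rw [← h1, ← h2]
    abel
  simp_rw [e]
  simp only [Finset.sum_add_distrib, Finset.sum_sub_distrib]
  have s1 : ∑ p, ∑ q, (if s = q then T r p (T p q x) else 0) = ∑ p, T r p (T p s x) :=
    Finset.sum_congr rfl fun p _ => by rw [Finset.sum_ite_eq]; simp
  have s2 : ∑ p, ∑ q, (if r = p then T q s (T p q x) else 0) = ∑ q, T q s (T r q x) := by
    rw [Finset.sum_comm]
    exact Finset.sum_congr rfl fun p _ => by rw [Finset.sum_ite_eq]; simp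
  have s3 : ∑ p, ∑ q, (if s = p then T q p (T r q x) else 0) = ∑ q, T q s (T r q x) := by
    rw [Finset.sum_comm]
    exact Finset.sum_congr rfl fun p _ => by rw [Finset.sum_ite_eq]; simp
  have s4 : ∑ p, ∑ q, (if r = q then T q p (T p s x) else 0) = ∑ p, T r p (T p s x) :=
    Finset.sum_congr rfl fun p _ => by rw [Finset.sum_ite_eq]; simp
  rw [s1, s2, s3, s4]
  abel

theorem norm_comm_sq (h : Rep T) {x : W} (hw : ∀ p, T p p x = 0) (p q r s : ι) :
    ‖T p q (T r s x) - T r s (T p q x)‖ ^ 2 =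
      (if q = r then ‖T p s x‖ ^ 2 else 0) + (if p = s then ‖T r q x‖ ^ 2 else 0) := by
  rw [h.comm]
  by_cases h1 : q = r
  · by_cases h2 : p = s
    · subst h1 h2
      simp [hw]
    · simp [h1, h2]
  · by_cases h2 : p = s
    · simp [h1, h2]
    · simp [h1, h2]

theorem sq_sub_le (u v : W) : ‖u - v‖ ^ 2 ≤ 2 * ‖u‖ ^ 2 + 2 * ‖v‖ ^ 2 := by
  have h1 := norm_sub_le u v
  nlinarith [norm_nonneg (u - v), sq_nonneg (‖u‖ - ‖v‖), norm_nonneg u, norm_nonneg v]

/-- **the gap** on joint eigenvectors -/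
theorem gap_joint (h : Rep T) {x : W} (hx : x ≠ 0) (w : ι → ℤ)
    (hw : ∀ p, T p p x = ((w p : ℂ)) • x) {ℓ : ℂ} (hℓ : cas T x = ℓ • x) :
    ((ℓ.re : ℂ) = ℓ) ∧ (∑ p, ∑ q, ‖T p q x‖ ^ 2 = ℓ.re * ‖x‖ ^ 2) ∧
      (ℓ.re = 0 ∨ (Fintype.card ι : ℝ) / 2 ≤ ℓ.re) := by
  have hx0 : 0 < ‖x‖ ^ 2 := by positivity
  set S : ℝ := ∑ p, ∑ q, ‖T p q x‖ ^ 2 with hS
  have h1 : ((S : ℝ) : ℂ) = ℓ * ((‖x‖ ^ 2 : ℝ) : ℂ) := by
    rw [hS, ← inner_cas h, hℓ, inner_smul_right, inner_self_eq_norm_sq_to_K]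
    push_cast
    rfl
  have h2 : ℓ = ((S / ‖x‖ ^ 2 : ℝ) : ℂ) := by
    have h3 : ((‖x‖ ^ 2 : ℝ) : ℂ) ≠ 0 := by exact_mod_cast hx0.ne'
    rw [Complex.ofReal_div, h1, mul_div_cancel_right₀ _ h3]
  have hre : ℓ.re = S / ‖x‖ ^ 2 := by rw [h2, Complex.ofReal_re]
  have hSl : S = ℓ.re * ‖x‖ ^ 2 := by rw [hre]; field_simp
  refine ⟨by rw [hre, ← h2], hSl, ?_⟩
  have hS0 : 0 ≤ S := Finset.sum_nonneg fun p _ => Finset.sum_nonneg fun q _ => sq_nonneg _
  have hℓ0 : 0 ≤ ℓ.re := by rw [hre]; positivity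
  by_cases hz : ∀ p, w p = 0
  · -- weight zero
    have hw0 : ∀ p, T p p x = 0 := fun p => by rw [hw p, hz p]; simp
    have hB : ∑ i : ι × ι, ∑ j : ι × ι, ‖T j.1 j.2 (T i.1 i.2 x)‖ ^ 2 = ℓ.re * S := by
      have e : ∀ i : ι × ι, ∑ j : ι × ι, ‖T j.1 j.2 (T i.1 i.2 x)‖ ^ 2 =
          ℓ.re * ‖T i.1 i.2 x‖ ^ 2 := by
        intro i
        have h3 := inner_cas h (T i.1 i.2 x)
        rw [← cas_comm h, hℓ, map_smul, inner_smul_right, inner_self_eq_norm_sq_to_K,
          ← Fintype.sum_prod_type'] at h3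
        rw [h2] at h3
        have h4 : (((S / ‖x‖ ^ 2) * ‖T i.1 i.2 x‖ ^ 2 : ℝ) : ℂ) =
            ((∑ j : ι × ι, ‖T j.1 j.2 (T i.1 i.2 x)‖ ^ 2 : ℝ) : ℂ) := by
          rw [← h3]
          push_cast
          rfl
        rw [hre]
        exact_mod_cast h4.symm
      rw [Finset.sum_congr rfl fun i _ => e i, ← Finset.mul_sum, hS, Fintype.sum_prod_type]
    have hA : ∑ i : ι × ι, ∑ j : ι × ι, ‖T i.1 i.2 (T j.1 j.2 x) - T j.1 j.2 (T i.1 i.2 x)‖ ^ 2 =
        2 * Fintype.card ι * S := by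
      simp_rw [norm_comm_sq h hw0]
      rw [Fintype.sum_prod_type]
      simp_rw [Fintype.sum_prod_type]
      simp only [Finset.sum_add_distrib]
      have s1 : ∑ p : ι, ∑ q : ι, ∑ r : ι, ∑ s : ι, (if q = r then ‖T p s x‖ ^ 2 else 0) =
          Fintype.card ι * S := by
        have : ∀ p q : ι, ∑ r : ι, ∑ s : ι, (if q = r then ‖T p s x‖ ^ 2 else 0) =
            ∑ s, ‖T p s x‖ ^ 2 := by
          intro p q
          rw [Finset.sum_comm]
          exact Finset.sum_congr rfl fun s _ => by rw [Finset.sum_ite_eq]; simp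
        simp_rw [this]
        rw [hS, Finset.mul_sum]
        refine Finset.sum_congr rfl fun p _ => ?_
        rw [Finset.sum_const, Finset.card_univ, nsmul_eq_mul]
      have s2 : ∑ p : ι, ∑ q : ι, ∑ r : ι, ∑ s : ι, (if p = s then ‖T r q x‖ ^ 2 else 0) =
          Fintype.card ι * S := by
        have : ∀ p q : ι, ∑ r : ι, ∑ s : ι, (if p = s then ‖T r q x‖ ^ 2 else 0) =
            ∑ r, ‖T r q x‖ ^ 2 := by
          intro p q
          exact Finset.sum_congr rfl fun s _ => by rw [Finset.sum_ite_eq]; simp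
        simp_rw [this]
        rw [Finset.sum_const, Finset.card_univ, nsmul_eq_mul, Finset.sum_comm]
      rw [s1, s2]
      ring
    have hC : ∑ i : ι × ι, ∑ j : ι × ι, ‖T i.1 i.2 (T j.1 j.2 x) - T j.1 j.2 (T i.1 i.2 x)‖ ^ 2 ≤
        4 * (ℓ.re * S) := by
      calc ∑ i : ι × ι, ∑ j : ι × ι, ‖T i.1 i.2 (T j.1 j.2 x) - T j.1 j.2 (T i.1 i.2 x)‖ ^ 2
          ≤ ∑ i : ι × ι, ∑ j : ι × ι, (2 * ‖T i.1 i.2 (T j.1 j.2 x)‖ ^ 2 +
            2 * ‖T j.1 j.2 (T i.1 i.2 x)‖ ^ 2) :=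
            Finset.sum_le_sum fun i _ => Finset.sum_le_sum fun j _ => sq_sub_le _ _
        _ = 4 * (ℓ.re * S) := by
            simp only [Finset.sum_add_distrib, ← Finset.mul_sum]
            rw [Finset.sum_comm (f := fun i j : ι × ι => ‖T i.1 i.2 (T j.1 j.2 x)‖ ^ 2), hB]
            ring
    rw [hA] at hC
    rw [hSl] at hC
    have h5 : ℓ.re * (2 * Fintype.card ι - 4 * ℓ.re) * ‖x‖ ^ 2 ≤ 0 := by nlinarith
    rcases hℓ0.eq_or_lt with h6 | h6
    · exact Or.inl h6.symm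
    · right
      by_contra h7
      push Not at h7
      have : 0 < ℓ.re * (2 * Fintype.card ι - 4 * ℓ.re) * ‖x‖ ^ 2 := by
        refine mul_pos (mul_pos h6 ?_) hx0
        linarith
      linarith
  · push Not at hz
    obtain ⟨p0, hp0⟩ := hz
    right
    have hd : ∀ p q, ‖T p q x‖ ^ 2 - ‖T q p x‖ ^ 2 = ((w q : ℝ) - w p) * ‖x‖ ^ 2 := by
      intro p q
      have h3 : ⟪x, T q p (T p q x)⟫_ℂ - ⟪x, T p q (T q p x)⟫_ℂ =
          (((w q : ℝ) - w p) * ‖x‖ ^ 2 : ℝ) := by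
        rw [← inner_sub_right, h.comm q p p q, if_pos rfl, if_pos rfl, hw, hw, ← sub_smul,
          inner_smul_right, inner_self_eq_norm_sq_to_K]
        push_cast
        rfl
      rw [← h.adj p q x (T p q x), ← h.adj q p x (T q p x), inner_self_eq_norm_sq_to_K,
        inner_self_eq_norm_sq_to_K] at h3
      have h4 : ((‖T p q x‖ ^ 2 - ‖T q p x‖ ^ 2 : ℝ) : ℂ) =
          ((((w q : ℝ) - w p) * ‖x‖ ^ 2 : ℝ) : ℂ) := by
        rw [← h3]
        push_cast
        rfl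
      exact_mod_cast h4
    have hab : ∀ p q, |((w p : ℝ) - w q)| * ‖x‖ ^ 2 + (if p = q then 2 * ((w p : ℝ) ^ 2 * ‖x‖ ^ 2)
        else 0) ≤ ‖T p q x‖ ^ 2 + ‖T q p x‖ ^ 2 := by
      intro p q
      by_cases hpq : p = q
      · subst hpq
        rw [sub_self, abs_zero, zero_mul, zero_add, if_pos rfl, hw, norm_smul, mul_pow]
        have : ‖((w p : ℂ))‖ ^ 2 = (w p : ℝ) ^ 2 := by
          rw [Complex.norm_intCast, sq_abs]
        rw [this]
        linarith
      · rw [if_neg hpq, add_zero]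
        have h3 := hd p q
        have h4 := sq_nonneg ‖T p q x‖
        have h5 := sq_nonneg ‖T q p x‖
        rcases le_total ((w p : ℝ) - w q) 0 with h6 | h6
        · rw [abs_of_nonpos h6]
          nlinarith
        · rw [abs_of_nonneg h6]
          nlinarith
    have hsum : ∑ p, ∑ q, (|((w p : ℝ) - w q)| * ‖x‖ ^ 2 + (if p = q then
        2 * ((w p : ℝ) ^ 2 * ‖x‖ ^ 2) else 0)) ≤ 2 * S := by
      calc _ ≤ ∑ p, ∑ q, (‖T p q x‖ ^ 2 + ‖T q p x‖ ^ 2) :=
            Finset.sum_le_sum fun p _ => Finset.sum_le_sum fun q _ => hab p q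
        _ = 2 * S := by
            simp only [Finset.sum_add_distrib]
            rw [Finset.sum_comm (f := fun p q => ‖T q p x‖ ^ 2), hS]
            ring
    have hsum2 : ∑ p, ∑ q, (|((w p : ℝ) - w q)| * ‖x‖ ^ 2 + (if p = q then
        2 * ((w p : ℝ) ^ 2 * ‖x‖ ^ 2) else 0)) =
        ((∑ p, ∑ q, |((w p : ℝ) - w q)|) + 2 * ∑ p, (w p : ℝ) ^ 2) * ‖x‖ ^ 2 := by
      simp only [Finset.sum_add_distrib, Finset.sum_ite_eq, Finset.mem_univ, if_true]
      rw [add_mul, Finset.sum_mul, Finset.mul_sum, Finset.sum_mul]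
      congr 1
      · exact Finset.sum_congr rfl fun p _ => by rw [Finset.sum_mul]
      · exact Finset.sum_congr rfl fun p _ => by ring
    rw [hsum2] at hsum
    have h3 := mul_le_mul_of_nonneg_right (weight_sum w hp0) hx0.le
    rw [hSl] at hsum
    have h4 : (2 * Fintype.card ι : ℝ) * ‖x‖ ^ 2 ≤ 2 * (ℓ.re * ‖x‖ ^ 2) := h3.trans hsum
    have h5 : (Fintype.card ι : ℝ) ≤ ℓ.re := by
      have : (2 * Fintype.card ι : ℝ) * ‖x‖ ^ 2 ≤ (2 * ℓ.re) * ‖x‖ ^ 2 := by linarith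
      have := le_of_mul_le_mul_right this hx0
      linarith
    have : (0 : ℝ) ≤ Fintype.card ι := by positivity
    linarith

end

end Pool.Agent.L0h31.KQ
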