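import Pool.Agent.L0h31.KQ.Riesz
import Pool.Agent.L0h31.KE.Ccw
import Pool.Agent.L0h79.KQ.Joint
import Pool.Agent.L0h60.KQ.Mom

/-!
# Concentration for the linear images of the uniform measure on the state spaces
-/

set_option autoImplicit false
set_option linter.unusedSectionVars false

namespace Pool.Agent.L0h31.KQ

open MeasureTheory
open scoped ENNReal InnerProductSpace ComplexOrder
open Pool.Agent.H212R2.KLS (V)
open Pool.Agent.Y506.PV (CcW ind)
open Pool.Agent.R754.KG (un VW_ind)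

variable {J C α β : Type} [Fintype J] [DecidableEq J] [Fintype C] [DecidableEq C] [Fintype α]
  [DecidableEq α] [DecidableEq β] {at_ : J → α} {τ : C → α} {bl : C → β}

variable (hcov : Cov at_ τ)

/-- the uniform measure in other coordinates -/
theorem map_abs {M : Type} [NormedAddCommGroup M] [NormedSpace ℝ M] [FiniteDimensional ℝ M]
    [MeasurableSpace M] [BorelSpace M] (lam : Measure M) [lam.IsAddHaarMeasure] (Q : Set M) {N : ℕ}
    (A : M ≃ₗ[ℝ] V N) {K : Set (V N)} (hK : MeasurableSet K) (h : A ⁻¹' K =ᵐ[lam] Q) :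
    ((lam Q)⁻¹ • lam.restrict Q).map A = un K := by
  obtain ⟨c, hc0, hc1, hc⟩ := Pool.Agent.L0h38.KQF.haar_lin (V := M) (W := V N)
    lam volume A
  have hAm : Measurable A := (LinearMap.continuous_of_finiteDimensional A.toLinearMap).measurable
  have hv : ∀ s : Set (V N), MeasurableSet s → volume s = c * lam (A ⁻¹' s) := by
    intro s hs
    have h1 := hc (s.indicator 1) (measurable_one.indicator hs)
    rw [lintegral_indicator_one hs] at h1
    rw [h1, ← lintegral_indicator_one (hAm hs)]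
    rfl
  have hKv : volume K = c * lam Q := by
    rw [hv K hK, measure_congr h]
  ext s hs
  rw [Measure.map_apply hAm hs]
  unfold un
  rw [Measure.smul_apply, Measure.smul_apply, Measure.restrict_apply (hAm hs),
    Measure.restrict_apply hs, smul_eq_mul, smul_eq_mul, hKv, hv _ (hs.inter hK)]
  have h2 : lam (A ⁻¹' (s ∩ K)) = lam (A ⁻¹' s ∩ Q) := by
    rw [Set.preimage_inter]
    exact measure_congr ((Filter.EventuallyEq.refl _ _).inter h)
  rw [h2, ENNReal.mul_inv (Or.inl hc0) (Or.inl hc1)]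
  have h3 : c⁻¹ * (lam Q)⁻¹ * (c * lam (A ⁻¹' s ∩ Q)) =
      (c⁻¹ * c) * ((lam Q)⁻¹ * lam (A ⁻¹' s ∩ Q)) := by ring
  rw [h3, ENNReal.inv_mul_cancel hc0 hc1, one_mul]

/-- the uniform measure in other coordinates -/
theorem map_unq (lam : Measure (DD hcov bl).N) [lam.IsAddHaarMeasure] {N : ℕ}
    (A : (DD hcov bl).N ≃ₗ[ℝ] V N) {K : Set (V N)}
    (hK : MeasurableSet K) (h : A ⁻¹' K =ᵐ[lam] K1 (DD hcov bl) (x0 at_ τ bl)) :
    (uK (DD hcov bl) (x0 at_ τ bl) lam).map A = un K := by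
  have : FiniteDimensional ℝ (Blk (bR bl : RR at_ τ → β)) := FiniteDimensional.complexToReal _
  exact map_abs lam _ A hK h

/-- integrals over the body as integrals over the frames -/
theorem int_frame (lam : Measure (DD hcov bl).N) [lam.IsAddHaarMeasure] {N : ℕ}
    (A : (DD hcov bl).N ≃ₗ[ℝ] V N) {K : Set (V N)}
    (hK : MeasurableSet K) (h : A ⁻¹' K =ᵐ[lam] K1 (DD hcov bl) (x0 at_ τ bl))
    {F : V N → ℝ} (hF : Continuous F) :
    ∫ x, F x ∂(un K) = ∫ x, F (A (prL hcov bl (XH x))) ∂(lw hcov bl) := by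
  have : FiniteDimensional ℝ (Blk (bR bl : RR at_ τ → β)) := FiniteDimensional.complexToReal _
  have hAc : Continuous A := LinearMap.continuous_of_finiteDimensional A.toLinearMap
  have e1 : ∫ x, F x ∂(un K) = ∫ z, F (A z) ∂(uK (DD hcov bl) (x0 at_ τ bl) lam) := by
    rw [← map_unq hcov lam A hK h, integral_map hAc.measurable.aemeasurable hF.aestronglyMeasurable]
  have e2 : ∫ z, F (A z) ∂(uK (DD hcov bl) (x0 at_ τ bl) lam) =
      ∫ g, F (A (zf hcov g)) ∂(gau (ZZ at_ τ bl)) := by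
    rw [← map_zf hcov lam]
    exact integral_map (measurable_zf hcov).aemeasurable (hF.comp hAc).aestronglyMeasurable
  have e3 : ∫ x, F (A (prL hcov bl (XH x))) ∂(lw hcov bl) =
      ∫ g, F (A (prL hcov bl (XH (fr hcov g)))) ∂(gau (ZZ at_ τ bl)) :=
    integral_map (measurable_fr hcov).aemeasurable
      (hF.comp (hAc.comp ((continuous_prL hcov).comp continuous_XH))).aestronglyMeasurable
  rw [e1, e2, e3]
  refine integral_congr_ae (Filter.Eventually.of_forall fun g => ?_)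
  simp only
  rw [XH_fr]
  rfl

/-- concentration for all linear images -/
theorem ccw [Fintype β] {Kc : ℝ} (hKc : 0 < Kc) (hG : Gbc Kc) {T : ℝ} (hT : 0 ≤ T)
    (hs : ∑ b ∈ Finset.univ.image (bR bl : RR at_ τ → β), Real.exp (-(T * Nb at_ τ bl b)) ≤ 1)
    (lam : Measure (DD hcov bl).N) [lam.IsAddHaarMeasure] {N : ℕ}
    (A : (DD hcov bl).N ≃ₗ[ℝ] V N) {K : Set (V N)}
    (hK : MeasurableSet K) (hA : A ⁻¹' K =ᵐ[lam] K1 (DD hcov bl) (x0 at_ τ bl))
    {κ0 : ℝ} (hκ0 : 0 < κ0) :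
    CcW κ0 ((512 * Kc + 2) * (1 + T) * κ0 ^ 2) (ind K) := by
  intro k hk S s hsp hS v hv hv1 hvd
  have : FiniteDimensional ℝ (Blk (bR bl : RR at_ τ → β)) := FiniteDimensional.complexToReal _
  have hSc : Continuous S := LinearMap.continuous_of_finiteDimensional S
  have hFL := lw_FL hcov (bl := bl)
  set L : (DD hcov bl).N →ₗ[ℝ] V k := S ∘ₗ A.toLinearMap with hLdef
  obtain ⟨Y, hY, hYL⟩ := exists_Y hcov L
  set y : XX J (PP at_ τ bl) → V k := yv (fun i => AY (Y i)) with hy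
  have hyc : Continuous y := continuous_yv _
  have hvar : ∀ F : V k → ℝ, Continuous F → Pool.Agent.Y506.RG.VW (ind K) (fun x => F (S x)) =
      (∫ x, F (y x) ^ 2 ∂(lw hcov bl)) - (∫ x, F (y x) ∂(lw hcov bl)) ^ 2 := by
    intro F hF
    have e : ∀ x, S (A (prL hcov bl (XH x))) = y x := fun x => (hYL x).symm
    rw [VW_ind hK, int_frame hcov lam A hK hA (F := fun x => F (S x) ^ 2) ((hF.comp hSc).pow 2),
      int_frame hcov lam A hK hA (F := fun x => F (S x)) (hF.comp hSc)]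
    simp_rw [e]
  have hmean : ∀ θ : V k, ∫ x, ⟪y x, θ⟫_ℝ ∂(lw hcov bl) = 0 := by
    intro θ
    have h1 := mean_zero Pool.Agent.L0h60.KQ.t_MOM2 hFL (Nrm.lin hY fun i => θ i)
    have e : ∀ x, ⟪y x, θ⟫_ℝ = qf (AY (∑ i, ((θ i : ℝ) : ℂ) • Y i)) x := by
      intro x
      rw [hy, yv_inner, ← AY_lin]
    simp_rw [e]
    exact h1
  have hvs : ∀ θ : V k, ‖θ‖ = 1 → ∫ x, ⟪y x, θ⟫_ℝ ^ 2 ∂(lw hcov bl) ≤ s := by
    intro θ hθ
    have h1 := hS θ hθ
    rw [hvar (fun y => ⟪y, θ⟫_ℝ) (by fun_prop), hmean θ] at h1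
    simpa using h1
  obtain ⟨hZ1, hZ2, hZ3⟩ := Zf_main hcov hKc hG hT hs
  obtain ⟨c, hc⟩ := varq Pool.Agent.L0h79.KQ.joint Pool.Agent.L0h60.KQ.t_MOM4 hFL hY hZ1
    (fun x => Zz_nonneg hcov _) hZ3 hsp hvs hκ0 hv hvd
  rw [hvar v hv.continuous]
  have hvc : Continuous fun x => v (y x) := hv.continuous.comp hyc
  have h1 := Pool.Agent.L0h31.KE.var_eq (hFL.int (W := ℝ) hvc) (hFL.int (W := ℝ) (hvc.pow 2)) c
  have h2 := sq_nonneg (∫ x, v (y x) ∂(lw hcov bl) - c)
  have h3 : (∫ x, v (y x) ^ 2 ∂(lw hcov bl)) - (∫ x, v (y x) ∂(lw hcov bl)) ^ 2 ≤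
      (128 * ∫ x, Zf hcov x ∂(lw hcov bl) + 2) * κ0 ^ 2 := by
    have hc' : ∫ x, (v (y x) - c) ^ 2 ∂(lw hcov bl) ≤
      (128 * ∫ x, Zf hcov x ∂(lw hcov bl) + 2) * κ0 ^ 2 := hc
    linarith
  refine h3.trans (mul_le_mul_of_nonneg_right ?_ (by positivity))
  nlinarith

end Pool.Agent.L0h31.KQ
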