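import Pool.Agent.L0h31.KQ.Blk

/-!
# The conditional expectation
-/

set_option autoImplicit false
set_option linter.unusedSectionVars false

namespace Pool.Agent.L0h31.KQ

open MeasureTheory
open scoped ENNReal InnerProductSpace ComplexOrder Matrix.Norms.L2Operator

variable {J C α β : Type} [Fintype J] [DecidableEq J] [Fintype C] [DecidableEq C]
  [DecidableEq α] [DecidableEq β] {at_ : J → α} {τ : C → α} {bl : C → β}

/-- every label has a copy -/
def Cov (at_ : J → α) (τ : C → α) : Prop := ∀ j, ∃ c, τ c = at_ j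

theorem eL_pos (hcov : Cov at_ τ) (x : Blk (bR bl : RR at_ τ → β)) (hx : IsUnit x) :
    ∃ a : Blk at_, IsUnit a ∧ eL at_ τ bl (x * star x) = a * star a := by
  let _ := CStarAlgebra.spectralOrder (Blk at_)
  let _ := CStarAlgebra.spectralOrderedRing (Blk at_)
  set m : Blk at_ := eL at_ τ bl (x * star x) with hm
  have hmv : m.1 = eM (x.1 * star x.1) := rfl
  have h0 : 0 ≤ m := by
    obtain ⟨b, hb⟩ := eM_nonneg (x.1 : Matrix (RR at_ τ) (RR at_ τ) ℂ)
    have : m = ∑ q, b q * star (b q) := Subtype.ext (hmv.trans hb.symm)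
    rw [this]
    exact Finset.sum_nonneg fun q _ => mul_star_self_nonneg _
  have hu : IsUnit m := by
    have hinj : Function.Injective (LinearMap.mulLeft ℂ m) := by
      rw [← LinearMap.ker_eq_bot, LinearMap.ker_eq_bot']
      intro b hb
      have hb' : m * b = 0 := hb
      have h1 : eM (iM (star b.1) * x.1 * star (iM (star b.1) * x.1)) = 0 := by
        have hs : star b.1 ∈ Blk at_ := (Blk at_).star_mem' b.2
        have e1 : (star (iM (star b.1)) : Matrix (RR at_ τ) (RR at_ τ) ℂ) = iM b.1 := by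
          ext r s
          change star (if s.1.1 = r.1.1 then star (b.1 r.1.2 s.1.2) else 0) =
            (if r.1.1 = s.1.1 then b.1 r.1.2 s.1.2 else 0)
          by_cases h : r.1.1 = s.1.1
          · rw [if_pos h, if_pos h.symm, star_star]
          · rw [if_neg h, if_neg (Ne.symm h), star_zero]
        rw [star_mul, e1, mul_assoc, eM_left _ hs, ← mul_assoc, eM_right _ b.2, ← hmv]
        have : m.1 * b.1 = 0 := congrArg Subtype.val hb'
        rw [this, mul_zero]
      have h2 := eM_faith h1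
      obtain ⟨u, hu⟩ := hx
      have h3 : iM (star b.1) = (0 : Matrix (RR at_ τ) (RR at_ τ) ℂ) := by
        have h4 : x.1 * (↑u⁻¹ : Blk (bR bl : RR at_ τ → β)).1 = 1 := by
          have h5 : (x * (↑u⁻¹ : Blk (bR bl : RR at_ τ → β))) = 1 := by
            rw [← hu]
            exact u.mul_inv
          exact congrArg Subtype.val h5
        calc iM (star b.1) = iM (star b.1) * (x.1 * (↑u⁻¹ : Blk (bR bl : RR at_ τ → β)).1) := by
              rw [h4, mul_one]
          _ = 0 := by rw [← mul_assoc, h2, zero_mul]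
      apply Subtype.ext
      ext j j'
      change b.1 j j' = 0
      by_cases hj : at_ j = at_ j'
      · obtain ⟨c, hc⟩ := hcov j
        have h5 := congrFun (congrFun h3 ⟨(c, j'), hc.trans hj⟩) ⟨(c, j), hc⟩
        change (if c = c then star (b.1 j j') else 0) = 0 at h5
        rw [if_pos rfl] at h5
        exact star_eq_zero.1 h5
      · exact b.2 j j' hj
    have hsurj := LinearMap.injective_iff_surjective.1 hinj
    obtain ⟨c, hc⟩ := hsurj 1
    have hc' : m * c = 1 := hc
    have h6 : m.1 * c.1 = 1 := congrArg Subtype.val hc'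
    have h7 : c.1 * m.1 = 1 := mul_eq_one_comm.1 h6
    exact ⟨⟨m, c, hc', Subtype.ext h7⟩, rfl⟩
  refine ⟨CFC.sqrt m, (CFC.isUnit_sqrt_iff _ h0).2 hu, ?_⟩
  have h2 : star (CFC.sqrt m) = CFC.sqrt m := (CFC.sqrt_nonneg m).isSelfAdjoint
  rw [h2]
  exact (CFC.sqrt_mul_sqrt_self _ h0).symm

/-- the conditional expectation -/
noncomputable def DD (hcov : Cov at_ τ) (bl : C → β) :
    CE (Blk at_) (Blk (bR bl : RR at_ τ → β)) where
  i := iH at_ τ bl
  e := eL at_ τ bl
  bim a b x := by
    apply Subtype.ext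
    change eM (iM a.1 * x.1 * iM b.1) = a.1 * eM x.1 * b.1
    rw [eM_right _ b.2, eM_left _ a.2]
  st x := Subtype.ext (eM_star x.1)
  pos x hx := eL_pos hcov x hx

theorem Mc_sum [Fintype α] (a : α) : Mc at_ τ bl a = ∑ c : C, if τ c = a then Nb at_ τ bl (bl c) else 0 := by
  have h := sumPP (at_ := at_) (τ := τ) (bl := bl) (fun p => if tP p = a then (1 : ℝ) else 0)
  have e1 : ∑ p : PP at_ τ bl, (if tP p = a then (1 : ℝ) else 0) = Mc at_ τ bl a := by
    unfold Mc
    rw [Fintype.card_subtype, Finset.sum_boole]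
  rw [e1] at h
  rw [h]
  refine Finset.sum_congr rfl fun c _ => ?_
  have e2 : ∀ k : RR at_ τ, (if h : bl c = bl k.1.1 then
      (if tP (⟨(c, k), h⟩ : PP at_ τ bl) = a then (1 : ℝ) else 0) else 0) =
      (if τ c = a then (if bR bl k = bl c then (1 : ℝ) else 0) else 0) := by
    intro k
    by_cases h1 : bl c = bl k.1.1
    · rw [dif_pos h1, if_pos (show bR bl k = bl c from h1.symm)]
      rfl
    · rw [dif_neg h1, if_neg fun h2 : bR bl k = bl c => h1 h2.symm, ite_self]
  rw [Finset.sum_congr rfl fun k _ => e2 k]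
  split_ifs
  · unfold Nb
    rw [Fintype.card_subtype, Finset.sum_boole]
  · exact Finset.sum_const_zero

theorem Nb_pos (r : RR at_ τ) : 0 < Nb at_ τ bl (bR bl r) := by
  unfold Nb
  have : 0 < Fintype.card {s : RR at_ τ // bR bl s = bR bl r} := Fintype.card_pos_iff.2 ⟨⟨r, rfl⟩⟩
  exact_mod_cast this

theorem Mc_pos (r : RR at_ τ) : 0 < Mc at_ τ bl (tR r) := by
  unfold Mc
  have : 0 < Fintype.card {p : PP at_ τ bl // tP p = tR r} :=
    Fintype.card_pos_iff.2 ⟨⟨⟨(r.1.1, r), rfl⟩, rfl⟩⟩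
  exact_mod_cast this

/-- the section -/
noncomputable def sM (at_ : J → α) (τ : C → α) (bl : C → β) (S : Matrix J J ℂ) :
    Matrix (RR at_ τ) (RR at_ τ) ℂ := fun r s =>
  ((Nb at_ τ bl (bR bl r) / Mc at_ τ bl (tR r) : ℝ) : ℂ) * iM S r s

theorem sM_mem (S : Matrix J J ℂ) : sM at_ τ bl S ∈ Blk (bR bl : RR at_ τ → β) := by
  intro r s h
  unfold sM
  rw [iM_mem (bl := bl) S r s h, mul_zero]

theorem sM_star (S : Matrix J J ℂ) : sM at_ τ bl (star S) = star (sM at_ τ bl S) := by
  ext r s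
  rw [Matrix.star_apply]
  unfold sM iM
  by_cases h : r.1.1 = s.1.1
  · rw [if_pos h, if_pos h.symm, star_mul, star_re, mul_comm]
    unfold bR tR
    rw [h]
    rfl
  · rw [if_neg h, if_neg (Ne.symm h), mul_zero, mul_zero, star_zero]

theorem eM_sM [Fintype α] (hcov : Cov at_ τ) (S : Matrix J J ℂ) (hS : S ∈ Blk at_) :
    eM (sM at_ τ bl S) = S := by
  ext j j'
  by_cases hj : at_ j = at_ j'
  · unfold eM sM iM
    have e : ∀ c : C, (if h : τ c = at_ j ∧ τ c = at_ j' then
        ((Nb at_ τ bl (bR bl (⟨(c, j), h.1⟩ : RR at_ τ)) / Mc at_ τ bl (tR (⟨(c, j), h.1⟩ : RR at_ τ)) :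
          ℝ) : ℂ) * (if (⟨(c, j), h.1⟩ : RR at_ τ).1.1 = (⟨(c, j'), h.2⟩ : RR at_ τ).1.1 then
          S (⟨(c, j), h.1⟩ : RR at_ τ).1.2 (⟨(c, j'), h.2⟩ : RR at_ τ).1.2 else 0) else 0) =
        (((if τ c = at_ j then Nb at_ τ bl (bl c) else 0 : ℝ) / Mc at_ τ bl (at_ j) : ℝ) : ℂ) *
          S j j' := by
      intro c
      by_cases h : τ c = at_ j
      · rw [dif_pos ⟨h, h.trans hj⟩, if_pos rfl, if_pos h]
        unfold bR tR
        simp only
        rw [h]
      · rw [dif_neg fun h' => h h'.1, if_neg h, zero_div, Complex.ofReal_zero, zero_mul]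
    rw [Finset.sum_congr rfl fun c _ => e c, ← Finset.sum_mul, ← Complex.ofReal_sum,
      ← Finset.sum_div, ← Mc_sum]
    obtain ⟨c, hc⟩ := hcov j
    have hM : 0 < Mc at_ τ bl (at_ j) := by
      have := Mc_pos (bl := bl) (⟨(c, j), hc⟩ : RR at_ τ)
      unfold tR at this
      rwa [hc] at this
    rw [div_self hM.ne', Complex.ofReal_one, one_mul]
  · rw [hS j j' hj]
    exact eM_mem _ j j' hj

end Pool.Agent.L0h31.KQ
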