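import Pool.Agent.L0h31.KQ.Body2

/-!
# Coordinates and the final concentration theorem
-/

set_option autoImplicit false
set_option linter.unusedSectionVars false

namespace Pool.Agent.L0h31.KQ

open MeasureTheory
open scoped ENNReal InnerProductSpace ComplexOrder
open Pool.Agent.H212R2.KLS (V)
open Pool.Agent.Y506.PV (CcW ind)

variable {J C α β : Type} [Fintype J] [DecidableEq J] [Fintype C] [DecidableEq C] [Fintype α]
  [DecidableEq α] [DecidableEq β] {at_ : J → α} {τ : C → α} {bl : C → β}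

/-- a hermitian block diagonal matrix as a selfadjoint element -/
noncomputable def mkH {ι κ : Type} [Fintype ι] [DecidableEq ι] {f : ι → κ} (X : Matrix ι ι ℂ)
    (hb : ∀ r s, f r ≠ f s → X r s = 0) (hh : X.IsHermitian) : Hs (Blk f) :=
  ⟨⟨X, hb⟩, Subtype.ext hh⟩

theorem es_cg {A B : Type} [CStarAlgebra A] [CStarAlgebra B] (D : CE A B) (s : A) (X : Hs B) :
    D.es (cg (D.i s) X) = cg s (D.es X) := by
  apply Subtype.ext
  change D.e (D.i s * X * star (D.i s)) = s * D.e X * star s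
  rw [← map_star, D.bim]

variable (hcov : Cov at_ τ)

theorem coordsq {N : ℕ} (X0 : Matrix (RR at_ τ) (RR at_ τ) ℂ)
    (hb : ∀ r s, bR bl r ≠ bR bl s → X0 r s = 0) (hh : X0.IsHermitian) (hS : (eM X0).PosDef)
    (ι : V N →ₗ[ℝ] Matrix (RR at_ τ) (RR at_ τ) ℂ) (hinj : Function.Injective ι)
    (hr : ∀ Y : Matrix (RR at_ τ) (RR at_ τ) ℂ, (∃ x, ι x = Y) ↔
      Y.IsHermitian ∧ (∀ r s, bR bl r ≠ bR bl s → Y r s = 0) ∧ eM Y = 0) :
    ∃ (A : (DD hcov bl).N ≃ₗ[ℝ] V N) (w : V N),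
      ∀ x, (X0 + ι x).PosSemidef ↔ A.symm (x + w) ∈ Kc hcov bl := by
  have hi : ∀ x, (ι x).IsHermitian ∧ (∀ r s, bR bl r ≠ bR bl s → ι x r s = 0) ∧ eM (ι x) = 0 :=
    fun x => (hr _).1 ⟨x, rfl⟩
  set D := DD hcov bl with hD
  set X : Hs (Blk (bR bl : RR at_ τ → β)) := mkH X0 hb hh with hX
  have hSpd : D.es X ∈ PD (Blk at_) := (pd_iff _).2 hS
  obtain ⟨hs1, hs2⟩ := tA_spec hSpd
  set s : Blk at_ := tA (D.es X) with hs
  have hu : IsUnit (D.i s) := hs1.map D.i
  -- the linear part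
  let I0 : V N →ₗ[ℝ] Hs (Blk (bR bl : RR at_ τ → β)) :=
    { toFun := fun x => mkH (ι x) (hi x).2.1 (hi x).1
      map_add' := fun x y => by
        apply Subtype.ext
        apply Subtype.ext
        exact map_add ι x y
      map_smul' := fun c x => by
        apply Subtype.ext
        apply Subtype.ext
        exact map_smul ι c x }
  have hI0 : ∀ x, D.es (I0 x) = 0 := by
    intro x
    apply Subtype.ext
    apply Subtype.ext
    exact (hi x).2.2
  let I1 : V N →ₗ[ℝ] D.N := LinearMap.codRestrict D.N ((cg (D.i s)).comp I0) (by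
    intro x
    change D.es (cg (D.i s) (I0 x)) = 0
    rw [es_cg, hI0, map_zero])
  have hI1 : ∀ x, ((I1 x : D.N) : Hs (Blk (bR bl : RR at_ τ → β))) = cg (D.i s) (I0 x) := fun x => rfl
  have hbij : Function.Bijective I1 := by
    constructor
    · intro x y hxy
      have h1 : cg (D.i s) (I0 x) = cg (D.i s) (I0 y) := by
        rw [← hI1, ← hI1, hxy]
      have h2 : I0 x = I0 y := by
        rw [← Pool.Agent.L0h85.KQ.cg_inv hu (I0 x), h1, Pool.Agent.L0h85.KQ.cg_inv hu]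
      apply hinj
      exact congrArg (fun X : Hs (Blk (bR bl : RR at_ τ → β)) => (X : Blk (bR bl : RR at_ τ → β)).1) h2
    · intro z
      set Y := cg (Ring.inverse (D.i s)) (z : Hs (Blk (bR bl : RR at_ τ → β))) with hY
      have h1 : cg (D.i s) Y = z := by
        rw [hY, ← Pool.Agent.L0h85.KQ.cg_mul, Ring.mul_inverse_cancel _ hu,
          Pool.Agent.L0h85.KQ.cg_one]
      have h2 : D.es Y = 0 := by
        have h3 : cg s (D.es Y) = 0 := by
          rw [← es_cg, h1]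
          exact z.2
        rw [← Pool.Agent.L0h85.KQ.cg_inv hs1 (D.es Y), h3, map_zero]
      obtain ⟨x, hx⟩ := (hr (Y : Blk (bR bl : RR at_ τ → β)).1).2 ⟨by
          ext r t
          exact Hs_star Y r t, (Y : Blk (bR bl : RR at_ τ → β)).2, by
          have := congrArg (fun X : Hs (Blk at_) => (X : Blk at_).1) h2
          exact this⟩
      refine ⟨x, ?_⟩
      apply Subtype.ext
      rw [hI1, ← h1]
      congr 1
      apply Subtype.ext
      apply Subtype.ext
      exact hx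
  let E : V N ≃ₗ[ℝ] D.N := LinearEquiv.ofBijective I1 hbij
  have hz0 : D.es (cg (D.i s) X - x0 at_ τ bl) = 0 := by
    rw [map_sub, es_cg]
    have h1 : cg s (D.es X) = (⟨1, star_one _⟩ : Hs (Blk at_)) := Subtype.ext hs2
    have h2 : D.es (x0 at_ τ bl) = (⟨1, star_one _⟩ : Hs (Blk at_)) := Subtype.ext (es_x0 hcov)
    rw [h1, h2, sub_self]
  set z0 : D.N := ⟨cg (D.i s) X - x0 at_ τ bl, hz0⟩ with hz0d
  refine ⟨E.symm, E.symm z0, fun x => ?_⟩
  have h1 : E.symm.symm (x + E.symm z0) = I1 x + z0 := by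
    rw [LinearEquiv.symm_symm, map_add, LinearEquiv.apply_symm_apply]
    rfl
  rw [h1]
  have h2 : Xz hcov (I1 x + z0) = (D.i s).1 * (X0 + ι x) * star (D.i s).1 := by
    have h3 : x0 at_ τ bl + (((I1 x + z0 : D.N)) : Hs (Blk (bR bl : RR at_ τ → β))) =
        cg (D.i s) (X + I0 x) := by
      rw [Submodule.coe_add, hI1, map_add]
      change x0 at_ τ bl + (cg (D.i s) (I0 x) + (cg (D.i s) X - x0 at_ τ bl)) = _
      abel
    unfold Xz
    rw [h3]
    rfl
  change _ ↔ (Xz hcov (I1 x + z0)).PosSemidef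
  rw [h2, Matrix.IsUnit.posSemidef_star_right_conjugate_iff (det_of_unit _ hu)]

/-- **concentration for the family** -/
theorem fam [Fintype β] {K0 : ℝ} (hK0 : 0 < K0) (hG : Gbc K0) {T : ℝ} (hT : 0 ≤ T)
    (hs : ∑ b ∈ Finset.univ.image (bR bl : RR at_ τ → β), Real.exp (-(T * Nb at_ τ bl b)) ≤ 1)
    {N : ℕ} (A : (DD hcov bl).N ≃ₗ[ℝ] V N) (w : V N) {K : Set (V N)}
    (h : ∀ x, x ∈ K ↔ A.symm (x + w) ∈ Kc hcov bl) {κ0 : ℝ} (hκ0 : 0 < κ0) :
    IsCompact K ∧ Convex ℝ K ∧ (interior K).Nonempty ∧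
      CcW κ0 ((512 * K0 + 2) * (1 + T) * κ0 ^ 2) (ind K) := by
  have : FiniteDimensional ℝ (Blk (bR bl : RR at_ τ → β)) := FiniteDimensional.complexToReal _
  obtain ⟨b1, b2, b3, K', b4, b5, b6, b7⟩ := body_of hcov A w h
  refine ⟨b1, b2, b3, ?_⟩
  rw [b7]
  refine ccw_tr b4 b5 w ?_
  refine ccw hcov hK0 hG hT hs (Measure.addHaar (G := (DD hcov bl).N)) A b4.measurableSet ?_ hκ0
  rw [b6]
  exact Kc_ae hcov _

end Pool.Agent.L0h31.KQ
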