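import Mathlib

/-!
# KQ: statements of the modules (helper31)

KLS for operator-valued state spaces `{X ∈ B | 0 ≤ X, E X = S}`, `A ⊂ B` finite dimensional
`C*`-algebras. The modules below are independent of each other and need only Mathlib.
-/

set_option autoImplicit false

namespace Pool.Agent.L0h31.KQ

open MeasureTheory
open scoped ENNReal InnerProductSpace

/-! ## G: the Gram law in a finite dimensional `C*`-algebra -/

/-- the selfadjoint elements, a real vector space -/
noncomputable abbrev Hs (B : Type) [CStarAlgebra B] : Submodule ℝ B := selfAdjoint.submodule ℝ B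

/-- `x x*` -/
noncomputable def gram {B : Type} [CStarAlgebra B] (x : B) : Hs B :=
  ⟨x * star x, by
    change star (x * star x) = x * star x
    rw [star_mul, star_star]⟩

/-- the strictly positive elements, `p p*` with `p` invertible -/
def PD (B : Type) [CStarAlgebra B] : Set (Hs B) := {w | ∃ p : B, IsUnit p ∧ (w : B) = p * star p}

/-- `p w p*` -/
noncomputable def cg {B : Type} [CStarAlgebra B] (p : B) : Hs B →ₗ[ℝ] Hs B where
  toFun w := ⟨p * w * star p, by
    change star (p * w * star p) = p * w * star p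
    have h : star (w : B) = w := w.2
    rw [star_mul, star_mul, star_star, h, mul_assoc]⟩
  map_add' v w := by
    ext
    change p * ((v : B) + w) * star p = p * v * star p + p * w * star p
    rw [mul_add, add_mul]
  map_smul' c w := by
    ext
    change p * (c • (w : B)) * star p = c • (p * w * star p)
    rw [mul_smul_comm, smul_mul_assoc]

/-- G1. The strictly positive elements: measurability. -/
def S_PD : Prop := ∀ (B : Type) [CStarAlgebra B] [MeasurableSpace B] [BorelSpace B],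
  MeasurableSet (PD B)

/-- G2. Almost all elements are invertible. -/
def S_UNIT : Prop := ∀ (B : Type) [CStarAlgebra B] [FiniteDimensional ℂ B] [MeasurableSpace B]
  [BorelSpace B] (μ : Measure B) [μ.IsAddHaarMeasure], ∀ᵐ x ∂μ, IsUnit x

/-- G3. The Gram law: under `x ↦ x x*` the Lebesgue measure goes to a multiple of the Lebesgue
measure on the strictly positive elements. -/
def S_GRAM : Prop := ∀ (B : Type) [CStarAlgebra B] [FiniteDimensional ℂ B] [MeasurableSpace B]
  [BorelSpace B] (μ : Measure B) [μ.IsAddHaarMeasure] (ν : Measure (Hs B)) [ν.IsAddHaarMeasure],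
  ∃ c : ℝ≥0∞, c ≠ 0 ∧ c ≠ ⊤ ∧ ∀ Φ : Hs B → ℝ≥0∞, Measurable Φ →
    ∫⁻ x, (PD B).indicator Φ (gram x) ∂μ = c * ∫⁻ w in PD B, Φ w ∂ν

/-! ## F: the law of the normalised element -/

/-- a unital inclusion `i` of `A` in `B` and an `A`-bimodule map `e : B → A` -/
structure CE (A B : Type) [CStarAlgebra A] [CStarAlgebra B] where
  i : A →⋆ₐ[ℂ] B
  e : B →ₗ[ℂ] A
  bim : ∀ (a b : A) (x : B), e (i a * x * i b) = a * e x * b
  st : ∀ x, e (star x) = star (e x)
  pos : ∀ x : B, IsUnit x → ∃ a : A, IsUnit a ∧ e (x * star x) = a * star a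

/-- `e` on the selfadjoint elements -/
noncomputable def CE.es {A B : Type} [CStarAlgebra A] [CStarAlgebra B] (D : CE A B) :
    Hs B →ₗ[ℝ] Hs A where
  toFun w := ⟨D.e w, by
    change star (D.e w) = D.e w
    rw [← D.st]
    congr 1
    exact w.2⟩
  map_add' v w := by
    ext
    change D.e ((v : B) + w) = D.e v + D.e w
    rw [map_add]
  map_smul' c w := by
    ext
    change D.e (c • (w : B)) = c • D.e w
    rw [← Complex.coe_smul, map_smul, Complex.coe_smul]

/-- the kernel of `e`, selfadjoint part -/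
noncomputable abbrev CE.N {A B : Type} [CStarAlgebra A] [CStarAlgebra B] (D : CE A B) :
    Submodule ℝ (Hs B) := LinearMap.ker D.es

/-- F1. Let `x0` be strictly positive with `e x0 = 1`. Let `T : Hs A → A` be a measurable map with
`T s` invertible, `T s * s * star (T s) = 1` for `s` strictly positive. Then under the Lebesgue measure
on the strictly positive elements of `B`, `w ↦ (e w, i (T (e w)) w i (T (e w))* - x0)` has a law of the
form `ρ(s) ds × (Lebesgue measure on {y ∈ N | x0 + y strictly positive})`. -/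
def S_FIB : Prop := ∀ (A B : Type) [CStarAlgebra A] [CStarAlgebra B] [FiniteDimensional ℂ A]
  [FiniteDimensional ℂ B] [MeasurableSpace A] [BorelSpace A] [MeasurableSpace B] [BorelSpace B]
  (D : CE A B) (x0 : Hs B), x0 ∈ PD B → D.e x0 = 1 →
  ∀ (T : Hs A → A), Measurable T → (∀ s ∈ PD A, IsUnit (T s) ∧ T s * s * star (T s) = 1) →
  ∀ (ν : Measure (Hs B)) [ν.IsAddHaarMeasure] (lam : Measure D.N) [lam.IsAddHaarMeasure]
    (νA : Measure (Hs A)) [νA.IsAddHaarMeasure]
    (y : Hs B → D.N), (∀ w ∈ PD B, ((y w : Hs B) : B) =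
      D.i (T (D.es w)) * w * star (D.i (T (D.es w))) - x0) → Measurable y →
  ∃ ρ : Hs A → ℝ≥0∞, Measurable ρ ∧ ∀ Φ : Hs A × D.N → ℝ≥0∞, Measurable Φ →
    ∫⁻ w in PD B, Φ (D.es w, y w) ∂ν =
      ∫⁻ s, ρ s * ∫⁻ z in {z : D.N | x0 + (z : Hs B) ∈ PD B}, Φ (s, z) ∂lam ∂νA

/-! ## N: the operator norm of a random operator with subgaussian entries -/

/-- N1. -/
def S_SLICE : Prop := ∀ (Ω F1 F2 : Type) [MeasurableSpace Ω] [NormedAddCommGroup F1]
  [InnerProductSpace ℝ F1] [FiniteDimensional ℝ F1] [NormedAddCommGroup F2]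
  [InnerProductSpace ℝ F2] [FiniteDimensional ℝ F2] (μ : Measure Ω) [IsProbabilityMeasure μ]
  (H : Ω → F1 →L[ℝ] F2), (∀ x y, Measurable fun ω => ⟪H ω x, y⟫_ℝ) →
  ∀ (K t : ℝ), 0 ≤ t → (∀ x y, ‖x‖ ≤ 1 → ‖y‖ ≤ 1 →
    ∫⁻ ω, ENNReal.ofReal (Real.exp (t * ⟪H ω x, y⟫_ℝ)) ∂μ ≤ ENNReal.ofReal (Real.exp (K * t ^ 2))) →
  ∫⁻ ω, ENNReal.ofReal (Real.exp (t * ‖H ω‖ / 2)) ∂μ ≤
    ENNReal.ofReal (8 ^ (Module.finrank ℝ F1 + Module.finrank ℝ F2) * Real.exp (K * t ^ 2))

/-! ## A: the gap of a product of Casimir operators -/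

/-- A1. -/
def S_JOINT : Prop := ∀ (W P α : Type) [NormedAddCommGroup W] [InnerProductSpace ℂ W]
  [FiniteDimensional ℂ W] [Fintype P] [DecidableEq P] [Fintype α] [DecidableEq α] (τ : P → α)
  (T : P → P → W →ₗ[ℂ] W),
  (∀ p q, τ p = τ q → ∀ x y, ⟪T p q x, y⟫_ℂ = ⟪x, T q p y⟫_ℂ) →
  (∀ p q r s, τ p = τ q → τ r = τ s → ∀ x, T p q (T r s x) - T r s (T p q x) =
    (if q = r then T p s x else 0) - (if p = s then T r q x else 0)) →
  (Submodule.span ℂ {x : W | ∃ w : P → ℤ, ∀ p, T p p x = ((w p : ℂ)) • x} = ⊤) →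
  ∀ x : W, ∃ x0 : W, (∀ p q, τ p = τ q → T p q x0 = 0) ∧
    ‖x - x0‖ ^ 2 ≤ ∑ p, ∑ q, (if τ p = τ q then
      2 / (Fintype.card {r // τ r = τ p} : ℝ) * ‖T p q x‖ ^ 2 else 0)

/-! ## M: the moments of a random unitary frame -/

section pol

variable (J P : Type)

/-- polynomials in `v_{jp}` (left summand) and the conjugates (right summand) -/
abbrev Pol : Type := MvPolynomial ((J × P) ⊕ (J × P)) ℂ

variable {J P} [DecidableEq J] [DecidableEq P]

/-- `v_{jp}` -/
noncomputable def vv (j : J) (p : P) : Pol J P := MvPolynomial.X (Sum.inl (j, p))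

/-- the conjugate of `v_{jp}` -/
noncomputable def vb (j : J) (p : P) : Pol J P := MvPolynomial.X (Sum.inr (j, p))

/-- the infinitesimal right multiplication by the matrix unit `E_{pq}` -/
noncomputable def TT (p q : P) : Derivation ℂ (Pol J P) (Pol J P) :=
  MvPolynomial.mkDerivation ℂ (Sum.elim (fun z => if q = z.2 then vv z.1 p else 0)
    (fun z => -(if p = z.2 then vb z.1 q else 0)))

/-- the quadratic polynomial `∑ A_{z' z} v_z conj v_{z'}` -/
noncomputable def psi [Fintype J] [Fintype P] (A : Matrix (J × P) (J × P) ℂ) : Pol J P :=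
  ∑ z, ∑ z', MvPolynomial.C (A z' z) * (vv z.1 z.2 * vb z'.1 z'.2)

end pol

/-- the properties of the expectation of a random unitary frame: `at_ j` is the label of the row
`j`, `τ p` the label of the column `p` -/
structure Expect {J P α : Type} [Fintype J] [DecidableEq J] [Fintype P] [DecidableEq P]
    (at_ : J → α) (τ : P → α) (I : Pol J P →ₗ[ℂ] ℂ) : Prop where
  one : I 1 = 1
  inv : ∀ p q, τ p = τ q → ∀ f, I (TT p q f) = 0
  orth : ∀ j j' (f : Pol J P), at_ j = at_ j' → I ((∑ p, vv j p * vb j' p) * f) =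
    if j = j' then I f else 0
  mask : ∀ j p (f : Pol J P), at_ j ≠ τ p → I (vv j p * f) = 0 ∧ I (vb j p * f) = 0

/-- M1. Second moments. -/
def S_MOM2 : Prop := ∀ (J P α : Type) [Fintype J] [DecidableEq J] [Fintype P] [DecidableEq P]
  [DecidableEq α] (at_ : J → α) (τ : P → α) (I : Pol J P →ₗ[ℂ] ℂ), Expect at_ τ I →
  ∀ j j' p p', I (vv j p * vb j' p') = if j = j' ∧ p = p' ∧ at_ j = τ p then
    ((Fintype.card {r // τ r = τ p} : ℂ))⁻¹ else 0

/-- M2. The variance of a quadratic form. -/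
def S_MOM4 : Prop := ∀ (J P α : Type) [Fintype J] [DecidableEq J] [Fintype P] [DecidableEq P]
  [DecidableEq α] (at_ : J → α) (τ : P → α) (I : Pol J P →ₗ[ℂ] ℂ), Expect at_ τ I →
  ∀ A : Matrix (J × P) (J × P) ℂ, A.IsHermitian →
  (∀ z z', A z z' ≠ 0 → at_ z.1 = τ z.2 ∧ at_ z'.1 = τ z'.2) →
  (∀ j j', ∑ p, A (j, p) (j', p) = 0) →
  (∀ z z', A z z' ≠ 0 → at_ z.1 = at_ z'.1 →
    2 * Fintype.card {j // at_ j = at_ z.1} ≤ Fintype.card {p // τ p = at_ z.1}) →
  (1 / 2) * ∑ z, ∑ z', ‖A z z'‖ ^ 2 / ((Fintype.card {r // τ r = at_ z.1} : ℝ) *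
    (Fintype.card {r // τ r = at_ z'.1} : ℝ)) ≤ (I (psi A ^ 2)).re

end Pool.Agent.L0h31.KQ
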