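import Pool.Agent.L0h31.KQ.Defs

/-!
# KQ: statements of the modules, part 2 (helper31)
-/

set_option autoImplicit false

namespace Pool.Agent.L0h31.KQ

open MeasureTheory
open scoped ENNReal InnerProductSpace ComplexOrder

/-! ## GAU: the standard complex Gaussian measure -/

/-- independent standard complex Gaussian variables -/
noncomputable def gau (Z : Type) [Fintype Z] : Measure (Z → ℂ) :=
  (volume : Measure (Z → ℂ)).withDensity fun g =>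
    ENNReal.ofReal (Real.exp (-∑ z, ‖g z‖ ^ 2) / Real.pi ^ Fintype.card Z)

def S_GAU1 : Prop := ∀ (Z : Type) [Fintype Z], IsProbabilityMeasure (gau Z)

/-- moment generating function -/
def S_GAU2 : Prop := ∀ (Z : Type) [Fintype Z] (l : Z → ℂ),
  ∫⁻ g, ENNReal.ofReal (Real.exp (∑ z, (star (l z) * g z).re)) ∂(gau Z) =
    ENNReal.ofReal (Real.exp ((∑ z, ‖l z‖ ^ 2) / 4))

/-- moments -/
def S_GAU3 : Prop := ∀ (Z : Type) [Fintype Z] [DecidableEq Z],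
  (∀ k : ℕ, Integrable (fun g : Z → ℂ => ‖g‖ ^ k) (gau Z)) ∧
  (∀ z, ∫ g, ‖g z‖ ^ 2 ∂(gau Z) = 1) ∧
  ∀ z z', ∫ g, ‖g z‖ ^ 2 * ‖g z'‖ ^ 2 ∂(gau Z) = if z = z' then 2 else 1

/-- invariance -/
def S_GAU4 : Prop := ∀ (Z : Type) [Fintype Z] (L : (Z → ℂ) →ₗ[ℝ] (Z → ℂ)),
  (∀ g, ∑ z, ‖L g z‖ ^ 2 = ∑ z, ‖g z‖ ^ 2) → (gau Z).map L = gau Z

/-- other index sets -/
def S_GAU5 : Prop := ∀ (Z Z' : Type) [Fintype Z] [Fintype Z'] (e : Z ≃ Z'),
  (gau Z').map (fun g z => g (e z)) = gau Z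

/-! ## GBN: the operator norm of a block diagonal Gaussian matrix -/

/-- the block diagonal matrix with the entries `g`, the rows of the block `b` divided by
`√N_b`, `N_b` the size of the block -/
noncomputable def bmat {ι κ : Type} [Fintype ι] [DecidableEq κ] (f : ι → κ)
    (g : {z : ι × ι // f z.1 = f z.2} → ℂ) : Matrix ι ι ℂ := fun i j =>
  if h : f i = f j then g ⟨(i, j), h⟩ / (Real.sqrt (Fintype.card {k // f k = f i}) : ℝ) else 0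

/-- the operator norm -/
noncomputable def opnm {ι : Type} [Fintype ι] [DecidableEq ι] (M : Matrix ι ι ℂ) : ℝ :=
  ‖Matrix.toEuclideanCLM (n := ι) (𝕜 := ℂ) M‖

def S_GBN : Prop := ∃ C : ℝ, 0 < C ∧ ∀ (ι κ : Type) [Fintype ι] [DecidableEq ι] [Fintype κ]
  [DecidableEq κ] (f : ι → κ) (T : ℝ), 0 ≤ T →
  ∑ b ∈ Finset.univ.image f, Real.exp (-(T * Fintype.card {k // f k = b})) ≤ 1 →
  ∫⁻ g, ENNReal.ofReal (opnm (bmat f g) ^ 2) ∂(gau {z : ι × ι // f z.1 = f z.2}) ≤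
    ENNReal.ofReal (C * (1 + T))

/-! ## SQ: the mean of the square root of a Wishart matrix -/

/-- the Gaussian matrix, `0` if the labels are different -/
noncomputable def gext {J P α : Type} [DecidableEq α] (at_ : J → α) (τ : P → α)
    (g : {z : J × P // at_ z.1 = τ z.2} → ℂ) : J × P → ℂ := fun z =>
  if h : at_ z.1 = τ z.2 then g ⟨z, h⟩ else 0

/-- the Wishart matrix -/
noncomputable def wis {J P α : Type} [Fintype P] [DecidableEq α] (at_ : J → α) (τ : P → α)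
    (g : {z : J × P // at_ z.1 = τ z.2} → ℂ) : Matrix J J ℂ := fun j j' =>
  ∑ p, gext at_ τ g (j, p) * star (gext at_ τ g (j', p))

def S_SQ : Prop := ∀ (J P α : Type) [Fintype J] [DecidableEq J] [Fintype P] [DecidableEq P]
  [DecidableEq α] (at_ : J → α) (τ : P → α) (R : ({z : J × P // at_ z.1 = τ z.2} → ℂ) → Matrix J J ℂ),
  (∀ j j', Measurable fun g => R g j j') →
  (∀ᵐ g ∂(gau {z : J × P // at_ z.1 = τ z.2}), (R g).PosSemidef ∧ R g * R g = wis at_ τ g) →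
  ∀ (a : α), Fintype.card {j // at_ j = a} ≤ Fintype.card {p // τ p = a} →
  ∀ v : J → ℂ, (∀ j, v j ≠ 0 → at_ j = a) →
  (∀ j j', Integrable (fun g => R g j j') (gau {z : J × P // at_ z.1 = τ z.2})) ∧
  (1 / 2) * Real.sqrt (Fintype.card {p // τ p = a}) * ∑ j, ‖v j‖ ^ 2 ≤
    (∑ j, ∑ j', star (v j) * (∫ g, R g j j' ∂(gau {z : J × P // at_ z.1 = τ z.2})) * v j').re

/-! ## JEN: removing a random square root -/

def S_JEN : Prop := ∀ (Ω ι κ : Type) [MeasurableSpace Ω] [Fintype ι] [DecidableEq ι] (μ : Measure Ω)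
  [IsProbabilityMeasure μ] (c : ι → κ) (m n : κ → ℝ), (∀ k, 0 < m k) → (∀ k, 0 ≤ n k) →
  ∀ R : Ω → Matrix ι ι ℂ, (∀ i j, Integrable (fun ω => R ω i j) μ) →
  (∀ᵐ ω ∂μ, (R ω).IsHermitian) → (∀ᵐ ω ∂μ, ∀ i j, c i ≠ c j → R ω i j = 0) →
  (∀ k, ∀ w : ι → ℂ, (∀ i, w i ≠ 0 → c i = k) → (1 / 2) * Real.sqrt (m k) * ∑ i, ‖w i‖ ^ 2 ≤
    (∑ i, ∑ j, star (w i) * (∫ ω, R ω i j ∂μ) * w j).re) →
  ∀ X : Matrix ι ι ℂ, X.PosSemidef → ∀ Z : Ω → ℝ, Integrable Z μ →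
  (∀ᵐ ω ∂μ, ∀ u : ι → ℂ, (∑ i, ∑ j, star (u i) * (R ω * X * R ω) i j * u j).re ≤
    Z ω * ∑ i, n (c i) * ‖u i‖ ^ 2) →
  ∀ u : ι → ℂ, (∑ i, ∑ j, star (u i) * X i j * u j).re ≤
    4 * (∫ ω, Z ω ∂μ) * ∑ i, n (c i) / m (c i) * ‖u i‖ ^ 2

end Pool.Agent.L0h31.KQ
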