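import Pool.Agent.L0h31.KQ.Law
import Pool.Agent.L0h82.KQ.GBN
import Pool.Agent.L0h88.KQ.SQ
import Pool.Agent.L0h57.KQ.Jen

/-!
# The expectation of the relative size of the normalised matrix
-/

set_option autoImplicit false
set_option linter.unusedSectionVars false

namespace Pool.Agent.L0h31.KQ

open MeasureTheory
open scoped ENNReal InnerProductSpace ComplexOrder

section op

variable {ι : Type} [Fintype ι] [DecidableEq ι]

theorem opnm_nonneg (M : Matrix ι ι ℂ) : 0 ≤ opnm M := norm_nonneg _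

theorem opnm_quad (M : Matrix ι ι ℂ) (u : ι → ℂ) :
    (∑ i, ∑ j, star (u i) * M i j * u j).re ≤ opnm M * ∑ i, ‖u i‖ ^ 2 := by
  set v : EuclideanSpace ℂ ι := WithLp.toLp 2 u with hv
  have h1 : ∑ i, ∑ j, star (u i) * M i j * u j =
      ⟪v, Matrix.toEuclideanCLM (n := ι) (𝕜 := ℂ) M v⟫_ℂ := by
    rw [PiLp.inner_apply]
    refine Finset.sum_congr rfl fun i _ => ?_
    have h2 : (Matrix.toEuclideanCLM (n := ι) (𝕜 := ℂ) M v) i = ∑ j, M i j * u j :=
      congrFun (Matrix.ofLp_toEuclideanCLM M v) i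
    rw [h2, RCLike.inner_apply, mul_comm, Finset.mul_sum]
    refine Finset.sum_congr rfl fun j _ => ?_
    rw [hv]
    change _ = star (u i) * (M i j * u j)
    rw [mul_assoc]
  have h3 : ∑ i, ‖u i‖ ^ 2 = ‖v‖ ^ 2 := (EuclideanSpace.norm_sq_eq v).symm
  rw [h1, h3]
  calc (⟪v, Matrix.toEuclideanCLM (n := ι) (𝕜 := ℂ) M v⟫_ℂ).re
      ≤ ‖⟪v, Matrix.toEuclideanCLM (n := ι) (𝕜 := ℂ) M v⟫_ℂ‖ := Complex.re_le_norm _
    _ ≤ ‖v‖ * ‖Matrix.toEuclideanCLM (n := ι) (𝕜 := ℂ) M v‖ := norm_inner_le_norm _ _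
    _ ≤ ‖v‖ * (opnm M * ‖v‖) := by
        refine mul_le_mul_of_nonneg_left ?_ (norm_nonneg _)
        exact ContinuousLinearMap.le_opNorm _ _
    _ = opnm M * ‖v‖ ^ 2 := by ring

theorem opnm_gram (M : Matrix ι ι ℂ) : opnm (M * star M) ≤ opnm M ^ 2 := by
  unfold opnm
  rw [map_mul, map_star, sq]
  refine (norm_mul_le _ _).trans ?_
  rw [ContinuousLinearMap.star_eq_adjoint, LinearIsometryEquiv.norm_map]

theorem measurable_opnm {Ω : Type*} [MeasurableSpace Ω] {M : Ω → Matrix ι ι ℂ}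
    (h : ∀ i j, Measurable fun ω => M ω i j) : Measurable fun ω => opnm (M ω) := by
  let L : (ι → ι → ℂ) →ₗ[ℂ] (EuclideanSpace ℂ ι →L[ℂ] EuclideanSpace ℂ ι) :=
    { toFun := fun m => Matrix.toEuclideanCLM (n := ι) (𝕜 := ℂ) (Matrix.of m)
      map_add' := fun m m' => map_add (Matrix.toEuclideanCLM (n := ι) (𝕜 := ℂ)) (Matrix.of m)
        (Matrix.of m')
      map_smul' := fun c m => map_smul (Matrix.toEuclideanCLM (n := ι) (𝕜 := ℂ)) c (Matrix.of m) }
  have hL : Continuous fun m => ‖L m‖ := (LinearMap.continuous_of_finiteDimensional L).norm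
  have hM : Measurable fun ω => (fun i j => M ω i j : ι → ι → ℂ) :=
    measurable_pi_iff.2 fun i => measurable_pi_iff.2 fun j => h i j
  exact hL.measurable.comp hM

end op

variable {J C α β : Type} [Fintype J] [DecidableEq J] [Fintype C] [DecidableEq C] [Fintype α]
  [DecidableEq α] [DecidableEq β] {at_ : J → α} {τ : C → α} {bl : C → β}

variable (hcov : Cov at_ τ)

/-- the matrix of a point -/
noncomputable def Xz (z : (DD hcov bl).N) : Matrix (RR at_ τ) (RR at_ τ) ℂ :=
  ((x0 at_ τ bl + (z : Hs (Blk (bR bl : RR at_ τ → β))) : Hs _) : Blk (bR bl : RR at_ τ → β)).1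

/-- the square root in the big algebra -/
noncomputable def RM (s : Hs (Blk at_)) : Matrix (RR at_ τ) (RR at_ τ) ℂ := iM (sqA (s : Blk at_)).1

/-- the matrix between the square roots -/
noncomputable def sX (s : Hs (Blk at_)) (z : (DD hcov bl).N) : Matrix (RR at_ τ) (RR at_ τ) ℂ :=
  (RM s : Matrix (RR at_ τ) (RR at_ τ) ℂ) * Xz hcov z * (RM s : Matrix (RR at_ τ) (RR at_ τ) ℂ)

/-- the scaled matrix -/
noncomputable def wM (s : Hs (Blk at_)) (z : (DD hcov bl).N) : Matrix (RR at_ τ) (RR at_ τ) ℂ :=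
  fun r r' => (((Real.sqrt (Nb at_ τ bl (bR bl r)))⁻¹ : ℝ) : ℂ) *
    sX hcov s z r r' * (((Real.sqrt (Nb at_ τ bl (bR bl r')))⁻¹ : ℝ) : ℂ)

/-- the norm of the scaled matrix -/
noncomputable def Ps (q : Hs (Blk at_) × (DD hcov bl).N) : ℝ := opnm (wM hcov q.1 q.2)

theorem measurable_Ps : Measurable (Ps hcov (bl := bl)) := by
  refine measurable_opnm fun r r' => ?_
  unfold wM
  refine Measurable.mul_const (Measurable.const_mul ?_ _) _
  have hR : ∀ i j, Measurable fun q : Hs (Blk at_) × (DD hcov bl).N =>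
      (RM q.1 : Matrix (RR at_ τ) (RR at_ τ) ℂ) i j := by
    intro i j
    unfold RM iM
    by_cases h : i.1.1 = j.1.1
    · simp only [if_pos h]
      exact (continuous_ent at_ _ _).measurable.comp (measurable_sqA.comp
        (measurable_subtype_coe.comp measurable_fst))
    · simp only [if_neg h]
      exact measurable_const
  have hX : ∀ i j, Measurable fun q : Hs (Blk at_) × (DD hcov bl).N => Xz hcov q.2 i j := by
    intro i j
    have h1 : Continuous fun z : (DD hcov bl).N => Xz hcov z i j := by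
      unfold Xz
      exact (continuous_ent _ i j).comp (continuous_subtype_val.comp
        (continuous_const.add continuous_subtype_val))
    exact h1.measurable.comp measurable_snd
  have e : ∀ q : Hs (Blk at_) × (DD hcov bl).N, sX hcov q.1 q.2 r r' =
      ∑ k, (∑ l, (RM q.1 : Matrix (RR at_ τ) (RR at_ τ) ℂ) r l * Xz hcov q.2 l k) *
        (RM q.1 : Matrix (RR at_ τ) (RR at_ τ) ℂ) k r' := by
    intro q
    unfold sX
    rw [Matrix.mul_apply]
    refine Finset.sum_congr rfl fun k _ => ?_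
    rw [Matrix.mul_apply]
  simp_rw [e]
  exact Finset.measurable_sum _ fun k _ => (Finset.measurable_sum _ fun l _ =>
    (hR r l).mul (hX l k)).mul (hR k r')

/-- the scaled Gaussian matrix -/
noncomputable def bG (g : ZZ at_ τ bl → ℂ) : Matrix (RR at_ τ) (RR at_ τ) ℂ :=
  bmat (bR bl : RR at_ τ → β) (fun q => g ((eZ at_ τ bl).symm q))

theorem bG_apply (g : ZZ at_ τ bl → ℂ) (r k : RR at_ τ) :
    bG g r k = (((Real.sqrt (Nb at_ τ bl (bR bl r)))⁻¹ : ℝ) : ℂ) * (GB g).1 r k := by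
  unfold bG bmat
  rw [GB_apply]
  by_cases h : bR bl r = bR bl k
  · rw [dif_pos h, vh_gx g r k h]
    unfold Nb
    rw [Complex.ofReal_inv, div_eq_mul_inv, mul_comm]
  · rw [dif_neg h]
    unfold vh
    rw [dif_neg h, mul_zero]

theorem sand {g : ZZ at_ τ bl → ℂ} (hg : IsUnit (GB g : Blk (bR bl : RR at_ τ → β))) :
    sX hcov (SS hcov g) (zf hcov g) = (GB g).1 * star (GB g).1 := by
  have hpd : SS hcov g ∈ PD (Blk at_) := es_pd _ (gram_pd hg)
  set D := DD hcov bl with hD
  have e1 : D.i (sqA (SS hcov g : Blk at_)) * D.i (tA (SS hcov g)) = 1 := by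
    rw [← map_mul, tA_sq hpd, map_one]
  have e2 : star (D.i (tA (SS hcov g))) * D.i (sqA (SS hcov g : Blk at_)) = 1 := by
    have := congrArg star e1
    rw [star_mul, star_one, ← map_star D.i (sqA _), sqA_sa] at this
    exact this
  have e3 : D.i (sqA (SS hcov g : Blk at_)) *
      ((nrm D (gram (GB g)) : Hs _) : Blk (bR bl : RR at_ τ → β)) *
      D.i (sqA (SS hcov g : Blk at_)) = GB g * star (GB g) := by
    change D.i (sqA (SS hcov g : Blk at_)) * (D.i (tA (SS hcov g)) * (GB g * star (GB g)) *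
      star (D.i (tA (SS hcov g)))) * D.i (sqA (SS hcov g : Blk at_)) = _
    calc _ = (D.i (sqA (SS hcov g : Blk at_)) * D.i (tA (SS hcov g))) * (GB g * star (GB g)) *
          (star (D.i (tA (SS hcov g))) * D.i (sqA (SS hcov g : Blk at_))) := by
          simp only [mul_assoc]
      _ = _ := by rw [e1, e2, one_mul, mul_one]
  have e4 : Xz hcov (zf hcov g) = ((nrm D (gram (GB g)) : Hs _) : Blk (bR bl : RR at_ τ → β)).1 := by
    unfold Xz
    rw [zf_eq hcov hg]
  unfold sX
  rw [e4]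
  exact congrArg Subtype.val e3

theorem Ps_le {g : ZZ at_ τ bl → ℂ} (hg : IsUnit (GB g : Blk (bR bl : RR at_ τ → β))) :
    Ps hcov (SS hcov g, zf hcov g) ≤ opnm (bG g) ^ 2 := by
  refine le_trans (le_of_eq ?_) (opnm_gram (bG g))
  unfold Ps
  congr 1
  ext r r'
  unfold wM
  simp only
  rw [sand hcov hg, Matrix.mul_apply, Matrix.mul_apply, Finset.mul_sum, Finset.sum_mul]
  refine Finset.sum_congr rfl fun k _ => ?_
  rw [Matrix.star_apply, Matrix.star_apply, bG_apply, bG_apply, star_mul, star_re]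
  ring

/-- the constant of the bound for block diagonal Gaussian matrices -/
def Gbc (K : ℝ) : Prop := ∀ (ι κ : Type) [Fintype ι] [DecidableEq ι] [Fintype κ]
  [DecidableEq κ] (f : ι → κ) (T : ℝ), 0 ≤ T →
  ∑ b ∈ Finset.univ.image f, Real.exp (-(T * Fintype.card {k // f k = b})) ≤ 1 →
  ∫⁻ g, ENNReal.ofReal (opnm (bmat f g) ^ 2) ∂(gau {z : ι × ι // f z.1 = f z.2}) ≤
    ENNReal.ofReal (K * (1 + T))

theorem exists_Gbc : ∃ K : ℝ, 0 < K ∧ Gbc K :=
  Pool.Agent.L0h82.KQ.gbn Pool.Agent.L0h60.KQ.t_GAU1 Pool.Agent.L0h60.KQ.t_GAU2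

/-- the bound for the expectation -/
theorem ez_lint [Fintype β] {K : ℝ} (h : Gbc K) {T : ℝ} (hT : 0 ≤ T)
    (hs : ∑ b ∈ Finset.univ.image (bR bl : RR at_ τ → β), Real.exp (-(T * Nb at_ τ bl b)) ≤ 1) :
    ∫⁻ g, ENNReal.ofReal (Ps hcov (SS hcov g, zf hcov g)) ∂(gau (ZZ at_ τ bl)) ≤
      ENNReal.ofReal (K * (1 + T)) := by
  have h1 := h (RR at_ τ) β (bR bl) T hT hs
  refine le_trans ?_ h1
  have h2 := Pool.Agent.L0h60.KQ.t_GAU5 _ _ (eZ at_ τ bl).symm
  have hm : Measurable fun g : {q : RR at_ τ × RR at_ τ // bR bl q.1 = bR bl q.2} → ℂ =>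
      ENNReal.ofReal (opnm (bmat (bR bl : RR at_ τ → β) g) ^ 2) := by
    refine ENNReal.measurable_ofReal.comp (Measurable.pow_const (measurable_opnm fun i j => ?_) 2)
    unfold bmat
    by_cases h : bR bl i = bR bl j
    · simp only [dif_pos h]
      exact (measurable_pi_apply _).div_const _
    · simp only [dif_neg h]
      exact measurable_const
  rw [← h2, lintegral_map hm (by
    refine measurable_pi_iff.2 fun q => measurable_pi_apply _)]
  refine lintegral_mono_ae ?_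
  filter_upwards [GB_unit_ae (at_ := at_) (τ := τ) (bl := bl)] with g hg
  exact ENNReal.ofReal_le_ofReal (Ps_le hcov hg)

end Pool.Agent.L0h31.KQ
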