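import Pool.Agent.L0h31.KQ.Ez

/-!
# The relative size of the normalised matrix, pointwise
-/

set_option autoImplicit false
set_option linter.unusedSectionVars false

namespace Pool.Agent.L0h31.KQ

open MeasureTheory
open scoped ENNReal InnerProductSpace ComplexOrder

variable {J C α β : Type} [Fintype J] [DecidableEq J] [Fintype C] [DecidableEq C] [Fintype α]
  [DecidableEq α] [DecidableEq β] {at_ : J → α} {τ : C → α} {bl : C → β}

variable (hcov : Cov at_ τ)

theorem sumRR_k {M : Type*} [AddCommMonoid M] (k : C) (F : RR at_ τ → M)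
    (hF : ∀ r, r.1.1 ≠ k → F r = 0) :
    ∑ r, F r = ∑ j, if h : τ k = at_ j then F ⟨(k, j), h⟩ else 0 := by
  rw [sumRR, Finset.sum_eq_single k]
  · intro c _ hc
    refine Finset.sum_eq_zero fun j _ => ?_
    split_ifs with h
    · exact hF _ hc
    · rfl
  · intro h
    exact absurd (Finset.mem_univ _) h

/-- the square root of the Wishart matrix -/
noncomputable def Rg (g : ZZ at_ τ bl → ℂ) : Matrix J J ℂ := (sqA (SS hcov g : Blk at_)).1

theorem Rg_meas (j j' : J) : Measurable fun g : ZZ at_ τ bl → ℂ => Rg hcov g j j' :=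
  (continuous_ent at_ j j').measurable.comp (measurable_sqA.comp
    (measurable_subtype_coe.comp (measurable_SS hcov)))

theorem Rg_psd (g : ZZ at_ τ bl → ℂ) : (Rg hcov g).PosSemidef := by
  obtain ⟨b, hb⟩ := sqA_sum (SS hcov g : Blk at_)
  have : Rg hcov g = star b.1 * b.1 := congrArg Subtype.val hb
  rw [this]
  exact Matrix.posSemidef_conjTranspose_mul_self b.1

theorem Rg_sq {g : ZZ at_ τ bl → ℂ} (hg : IsUnit (GB g : Blk (bR bl : RR at_ τ → β))) :
    Rg hcov g * Rg hcov g = wis at_ (tP (at_ := at_) (τ := τ) (bl := bl)) g := by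
  have hpd : SS hcov g ∈ PD (Blk at_) := es_pd _ (gram_pd hg)
  rw [← SS_coe hcov g]
  exact congrArg Subtype.val (sqA_mul hpd)

theorem card_le (k : C) : Fintype.card {j // at_ j = τ k} ≤
    Fintype.card {p : PP at_ τ bl // tP p = τ k} := by
  refine Fintype.card_le_of_injective (fun j : {j // at_ j = τ k} =>
    (⟨⟨(k, ⟨(k, j.1), j.2.symm⟩), rfl⟩, rfl⟩ : {p : PP at_ τ bl // tP p = τ k})) ?_
  intro j j' h
  apply Subtype.ext
  have h1 := congrArg (fun p : {p : PP at_ τ bl // tP p = τ k} => p.1.1.2.1.2) h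
  exact h1

theorem Mc_one (r : RR at_ τ) : 1 ≤ Mc at_ τ bl (tR r) := by
  have h := Mc_pos (bl := bl) r
  unfold Mc at h ⊢
  exact_mod_cast h

theorem sq_app (k : C) (v : J → ℂ) (hv : ∀ j, v j ≠ 0 → at_ j = τ k) :
    (∀ j j', Integrable (fun g => Rg hcov g j j') (gau (ZZ at_ τ bl))) ∧
    (1 / 2) * Real.sqrt (Mc at_ τ bl (τ k)) * ∑ j, ‖v j‖ ^ 2 ≤
      (∑ j, ∑ j', star (v j) * (∫ g, Rg hcov g j j' ∂(gau (ZZ at_ τ bl))) * v j').re := by
  have h := Pool.Agent.L0h88.KQ.sq Pool.Agent.L0h60.KQ.t_GAU3 Pool.Agent.L0h60.KQ.t_GAU4 J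
    (PP at_ τ bl) α at_ tP (Rg hcov) (Rg_meas hcov) (by
      filter_upwards [GB_unit_ae (at_ := at_) (τ := τ) (bl := bl)] with g hg
      exact ⟨Rg_psd hcov g, Rg_sq hcov hg⟩) (τ k) (card_le k) v hv
  exact h

theorem K1_psd {z : (DD hcov bl).N} (hz : z ∈ K1 (DD hcov bl) (x0 at_ τ bl)) :
    (Xz hcov z).PosSemidef := by
  obtain ⟨p, -, hp⟩ := hz
  have : Xz hcov z = p.1 * star p.1 := congrArg Subtype.val hp
  rw [this]
  exact Matrix.posSemidef_self_mul_conjTranspose p.1

/-- the quadratic form of the scaled matrix -/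
theorem wM_quad (s : Hs (Blk at_)) (z : (DD hcov bl).N) (u : RR at_ τ → ℂ) :
    (∑ i, ∑ j, star (u i) * sX hcov s z i j * u j).re ≤
      Ps hcov (s, z) * ∑ r, Nb at_ τ bl (bR bl r) * ‖u r‖ ^ 2 := by
  have hN : ∀ r : RR at_ τ, 0 < Real.sqrt (Nb at_ τ bl (bR bl r)) := fun r =>
    Real.sqrt_pos.2 (Nb_pos r)
  have h := opnm_quad (wM hcov s z) (fun r => ((Real.sqrt (Nb at_ τ bl (bR bl r)) : ℝ) : ℂ) * u r)
  refine le_trans (le_of_eq ?_) (h.trans (le_of_eq ?_))
  · congr 1
    refine Finset.sum_congr rfl fun i _ => Finset.sum_congr rfl fun j _ => ?_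
    unfold wM
    have h1 : ((Real.sqrt (Nb at_ τ bl (bR bl i)) : ℝ) : ℂ) *
        (((Real.sqrt (Nb at_ τ bl (bR bl i)))⁻¹ : ℝ) : ℂ) = 1 := by
      rw [← Complex.ofReal_mul, mul_inv_cancel₀ (hN i).ne', Complex.ofReal_one]
    have h2 : (((Real.sqrt (Nb at_ τ bl (bR bl j)))⁻¹ : ℝ) : ℂ) *
        ((Real.sqrt (Nb at_ τ bl (bR bl j)) : ℝ) : ℂ) = 1 := by
      rw [← Complex.ofReal_mul, inv_mul_cancel₀ (hN j).ne', Complex.ofReal_one]
    rw [star_mul, star_re]
    generalize sX hcov s z i j = X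
    linear_combination (-(star (u i) * X * u j) * ((((Real.sqrt (Nb at_ τ bl (bR bl j)))⁻¹ : ℝ) : ℂ) *
        ((Real.sqrt (Nb at_ τ bl (bR bl j)) : ℝ) : ℂ))) * h1 - (star (u i) * X * u j) * h2
  · unfold Ps
    congr 1
    refine Finset.sum_congr rfl fun r _ => ?_
    rw [norm_mul, mul_pow, Complex.norm_real, Real.norm_of_nonneg (hN r).le,
      Real.sq_sqrt (Nb_pos r).le]

theorem jen_app {z : (DD hcov bl).N} (hz : z ∈ K1 (DD hcov bl) (x0 at_ τ bl))
    (hint : Integrable (fun g => Ps hcov (SS hcov g, z)) (gau (ZZ at_ τ bl))) (u : RR at_ τ → ℂ) :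
    (∑ i, ∑ j, star (u i) * Xz hcov z i j * u j).re ≤
      4 * (∫ g, Ps hcov (SS hcov g, z) ∂(gau (ZZ at_ τ bl))) *
        ∑ r, Nb at_ τ bl (bR bl r) / Mc at_ τ bl (tR r) * ‖u r‖ ^ 2 := by
  have hRint : ∀ i j : RR at_ τ, Integrable (fun g => (RM (SS hcov g) :
      Matrix (RR at_ τ) (RR at_ τ) ℂ) i j) (gau (ZZ at_ τ bl)) := by
    intro i j
    unfold RM iM
    by_cases h : i.1.1 = j.1.1
    · simp only [if_pos h]
      exact (sq_app hcov i.1.1 (0 : J → ℂ) (fun j h => absurd rfl h)).1 i.1.2 j.1.2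
    · simp only [if_neg h]
      exact integrable_const _
  have h := Pool.Agent.L0h57.KQ.jen (ZZ at_ τ bl → ℂ) (RR at_ τ) C (gau (ZZ at_ τ bl))
    (fun r => r.1.1) (fun k => max (Mc at_ τ bl (τ k)) 1) (fun k => Nb at_ τ bl (bl k))
    (fun k => lt_max_of_lt_right one_pos) (fun k => Nat.cast_nonneg _)
    (fun g => (RM (SS hcov g) : Matrix (RR at_ τ) (RR at_ τ) ℂ)) hRint ?_ ?_ ?_ (Xz hcov z)
    (K1_psd hcov hz) (fun g => Ps hcov (SS hcov g, z)) hint ?_ u
  · refine h.trans (le_of_eq ?_)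
    congr 1
    refine Finset.sum_congr rfl fun r _ => ?_
    have h1 : max (Mc at_ τ bl (τ r.1.1)) 1 = Mc at_ τ bl (tR r) := max_eq_left (Mc_one r)
    rw [h1]
    rfl
  · refine Filter.Eventually.of_forall fun g => ?_
    ext r s
    rw [Matrix.conjTranspose_apply]
    unfold RM iM
    have h1 : star (sqA (SS hcov g : Blk at_)).1 = (sqA (SS hcov g : Blk at_)).1 :=
      congrArg Subtype.val (sqA_sa (SS hcov g : Blk at_))
    by_cases h : r.1.1 = s.1.1
    · rw [if_pos h, if_pos h.symm]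
      exact congrFun (congrFun h1 r.1.2) s.1.2
    · rw [if_neg h, if_neg (Ne.symm h), star_zero]
  · refine Filter.Eventually.of_forall fun g i j hij => ?_
    unfold RM iM
    rw [if_neg hij]
  · intro k w hw
    set v : J → ℂ := fun j => if h : τ k = at_ j then w ⟨(k, j), h⟩ else 0 with hv
    have hv0 : ∀ j, v j ≠ 0 → at_ j = τ k := by
      intro j hj
      by_contra h
      exact hj (dif_neg fun e => h e.symm)
    have hw0 : ∀ r, r.1.1 ≠ k → w r = 0 := by
      intro r hr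
      by_contra h
      exact hr (hw r h)
    have e1 : ∑ r, ‖w r‖ ^ 2 = ∑ j, ‖v j‖ ^ 2 := by
      rw [sumRR_k k (fun r => ‖w r‖ ^ 2) (fun r hr => by rw [hw0 r hr, norm_zero, zero_pow two_ne_zero])]
      refine Finset.sum_congr rfl fun j _ => ?_
      rw [hv]
      simp only
      split_ifs
      · rfl
      · rw [norm_zero, zero_pow two_ne_zero]
    have e2 : ∑ i, ∑ j, star (w i) * (∫ g, (RM (SS hcov g) : Matrix (RR at_ τ) (RR at_ τ) ℂ) i j
        ∂(gau (ZZ at_ τ bl))) * w j =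
        ∑ j, ∑ j', star (v j) * (∫ g, Rg hcov g j j' ∂(gau (ZZ at_ τ bl))) * v j' := by
      rw [sumRR_k k (fun i => ∑ j, star (w i) * (∫ g, (RM (SS hcov g) :
        Matrix (RR at_ τ) (RR at_ τ) ℂ) i j ∂(gau (ZZ at_ τ bl))) * w j) (fun r hr => by
          refine Finset.sum_eq_zero fun j _ => ?_
          rw [hw0 r hr, star_zero, zero_mul, zero_mul])]
      refine Finset.sum_congr rfl fun j _ => ?_
      by_cases hj : τ k = at_ j
      · rw [dif_pos hj, sumRR_k k (fun i => star (w ⟨(k, j), hj⟩) * (∫ g, (RM (SS hcov g) :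
          Matrix (RR at_ τ) (RR at_ τ) ℂ) ⟨(k, j), hj⟩ i ∂(gau (ZZ at_ τ bl))) * w i) (fun r hr => by
            rw [hw0 r hr, mul_zero])]
        refine Finset.sum_congr rfl fun j' _ => ?_
        by_cases hj' : τ k = at_ j'
        · rw [dif_pos hj', hv]
          simp only
          rw [dif_pos hj, dif_pos hj']
          congr 2
          refine integral_congr_ae (Filter.Eventually.of_forall fun g => ?_)
          change (if k = k then (sqA (SS hcov g : Blk at_)).1 j j' else 0) = _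
          rw [if_pos rfl]
          rfl
        · rw [dif_neg hj', hv]
          simp only
          rw [dif_neg hj', mul_zero]
      · rw [dif_neg hj]
        symm
        refine Finset.sum_eq_zero fun j' _ => ?_
        rw [hv]
        simp only
        rw [dif_neg hj, star_zero, zero_mul, zero_mul]
    rw [e1, e2]
    have h2 := (sq_app hcov (bl := bl) k v hv0).2
    by_cases hne : ∃ r : RR at_ τ, r.1.1 = k
    · obtain ⟨r, hr⟩ := hne
      have h1 : max (Mc at_ τ bl (τ k)) 1 = Mc at_ τ bl (τ k) := by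
        rw [← hr]
        exact max_eq_left (Mc_one (bl := bl) r)
      rw [h1]
      exact h2
    · have hv1 : v = 0 := by
        funext j
        rw [hv]
        simp only
        split_ifs with h
        · exact absurd ⟨⟨(k, j), h⟩, rfl⟩ hne
        · rfl
      rw [hv1]
      simp
  · exact Filter.Eventually.of_forall fun g u => wM_quad hcov _ _ u

end Pool.Agent.L0h31.KQ
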