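import Pool.Agent.L0h31.KQ.Ez2

/-!
# The expectation of the relative size, for frames
-/

set_option autoImplicit false
set_option linter.unusedSectionVars false

namespace Pool.Agent.L0h31.KQ

open MeasureTheory
open scoped ENNReal InnerProductSpace ComplexOrder

variable {J C α β : Type} [Fintype J] [DecidableEq J] [Fintype C] [DecidableEq C] [Fintype α]
  [DecidableEq α] [DecidableEq β] {at_ : J → α} {τ : C → α} {bl : C → β}

variable (hcov : Cov at_ τ)

/-- the relative size -/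
noncomputable def Zz (z : (DD hcov bl).N) : ℝ :=
  4 * (∫⁻ g, ENNReal.ofReal (Ps hcov (SS hcov g, z)) ∂(gau (ZZ at_ τ bl))).toReal

theorem Zz_nonneg (z : (DD hcov bl).N) : 0 ≤ Zz hcov z := by
  unfold Zz
  positivity

theorem Psi_meas : Measurable fun q : Hs (Blk at_) × (DD hcov bl).N =>
    ENNReal.ofReal (Ps hcov q) := ENNReal.measurable_ofReal.comp (measurable_Ps hcov)

theorem inner_meas : Measurable fun z : (DD hcov bl).N =>
    ∫⁻ g, ENNReal.ofReal (Ps hcov (SS hcov g, z)) ∂(gau (ZZ at_ τ bl)) :=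
  Measurable.lintegral_prod_right' (f := fun q : (DD hcov bl).N × (ZZ at_ τ bl → ℂ) =>
    ENNReal.ofReal (Ps hcov (SS hcov q.2, q.1)))
    ((Psi_meas hcov).comp (((measurable_SS hcov).comp measurable_snd).prodMk measurable_fst))

theorem measurable_Zz : Measurable (Zz hcov (bl := bl)) :=
  ((inner_meas hcov).ennreal_toReal).const_mul 4

theorem Zz_lint [Fintype β] {K : ℝ} (h : Gbc K) {T : ℝ} (hT : 0 ≤ T)
    (hs : ∑ b ∈ Finset.univ.image (bR bl : RR at_ τ → β), Real.exp (-(T * Nb at_ τ bl b)) ≤ 1)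
    (lam : Measure (DD hcov bl).N) [lam.IsAddHaarMeasure] :
    ∫⁻ z, ∫⁻ g, ENNReal.ofReal (Ps hcov (SS hcov g, z)) ∂(gau (ZZ at_ τ bl))
      ∂(uK (DD hcov bl) (x0 at_ τ bl) lam) ≤ ENNReal.ofReal (K * (1 + T)) := by
  have h1 := law_gau hcov lam (fun q => ENNReal.ofReal (Ps hcov q)) (Psi_meas hcov)
  rw [lintegral_lintegral_swap]
  · rw [← h1]
    exact ez_lint hcov h hT hs
  · exact ((Psi_meas hcov).comp
      (((measurable_SS hcov).comp measurable_snd).prodMk measurable_fst)).aemeasurable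

theorem Zz_main [Fintype β] {K : ℝ} (hK : 0 < K) (h : Gbc K) {T : ℝ} (hT : 0 ≤ T)
    (hs : ∑ b ∈ Finset.univ.image (bR bl : RR at_ τ → β), Real.exp (-(T * Nb at_ τ bl b)) ≤ 1)
    (lam : Measure (DD hcov bl).N) [lam.IsAddHaarMeasure] :
    Integrable (Zz hcov) (uK (DD hcov bl) (x0 at_ τ bl) lam) ∧
    ∫ z, Zz hcov z ∂(uK (DD hcov bl) (x0 at_ τ bl) lam) ≤ 4 * (K * (1 + T)) ∧
    ∀ᵐ z ∂(uK (DD hcov bl) (x0 at_ τ bl) lam), ∀ u : RR at_ τ → ℂ,
      (∑ i, ∑ j, star (u i) * Xz hcov z i j * u j).re ≤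
        Zz hcov z * ∑ r, Nb at_ τ bl (bR bl r) / Mc at_ τ bl (tR r) * ‖u r‖ ^ 2 := by
  have h1 := Zz_lint hcov h hT hs lam
  have hne : ∫⁻ z, ∫⁻ g, ENNReal.ofReal (Ps hcov (SS hcov g, z)) ∂(gau (ZZ at_ τ bl))
      ∂(uK (DD hcov bl) (x0 at_ τ bl) lam) ≠ ⊤ := (h1.trans_lt ENNReal.ofReal_lt_top).ne
  have hae := ae_lt_top (inner_meas hcov) hne
  refine ⟨?_, ?_, ?_⟩
  · unfold Zz
    exact (integrable_toReal_of_lintegral_ne_top (inner_meas hcov).aemeasurable hne).const_mul 4
  · unfold Zz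
    rw [integral_const_mul, integral_toReal (inner_meas hcov).aemeasurable hae]
    refine mul_le_mul_of_nonneg_left ?_ (by norm_num)
    exact ENNReal.toReal_le_of_le_ofReal (by positivity) h1
  · have hmem : ∀ᵐ z ∂(uK (DD hcov bl) (x0 at_ τ bl) lam), z ∈ K1 (DD hcov bl) (x0 at_ τ bl) := by
      have h2 : MeasurableSet (K1 (DD hcov bl) (x0 at_ τ bl)) := by
        have hc : Continuous fun z : (DD hcov bl).N =>
            x0 at_ τ bl + (z : Hs (Blk (bR bl : RR at_ τ → β))) :=
          continuous_const.add continuous_subtype_val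
        exact hc.measurable (Pool.Agent.L0h85.KQ.t_PD (Blk (bR bl : RR at_ τ → β)))
      unfold uK
      exact Measure.ae_smul_measure (ae_restrict_mem h2) _
    filter_upwards [hae, hmem] with z hz hz1 u
    have hmz : Measurable fun g : ZZ at_ τ bl → ℂ => Ps hcov (SS hcov g, z) :=
      (measurable_Ps hcov).comp ((measurable_SS hcov).prodMk measurable_const)
    have hnn : 0 ≤ᵐ[gau (ZZ at_ τ bl)] fun g => Ps hcov (SS hcov g, z) :=
      Filter.Eventually.of_forall fun g => opnm_nonneg _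
    have hint : Integrable (fun g => Ps hcov (SS hcov g, z)) (gau (ZZ at_ τ bl)) := by
      refine ⟨hmz.aestronglyMeasurable, ?_⟩
      rw [hasFiniteIntegral_iff_ofReal hnn]
      exact hz
    have h3 := jen_app hcov hz1 hint u
    rw [integral_eq_lintegral_of_nonneg_ae hnn hmz.aestronglyMeasurable] at h3
    exact h3

/-- the element given by a frame -/
noncomputable def VH (at_ : J → α) (τ : C → α) (bl : C → β) :
    XX J (PP at_ τ bl) →ₗ[ℝ] Blk (bR bl : RR at_ τ → β) where
  toFun x := ⟨fun r k => vh x r k, fun _ _ h => dif_neg h⟩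
  map_add' x y := by
    apply Subtype.ext
    ext r k
    change vh (x + y) r k = vh x r k + vh y r k
    unfold vh
    split_ifs
    · rfl
    · rw [add_zero]
  map_smul' c x := by
    apply Subtype.ext
    ext r k
    change vh (c • x) r k = c • vh x r k
    unfold vh
    split_ifs
    · rfl
    · rw [smul_zero]

theorem continuous_VH : Continuous (VH at_ τ bl) :=
  LinearMap.continuous_of_finiteDimensional _

/-- the Gram matrix of a frame as a selfadjoint element -/
noncomputable def XH (x : XX J (PP at_ τ bl)) : Hs (Blk (bR bl : RR at_ τ → β)) :=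
  gram (VH at_ τ bl x)

theorem continuous_XH : Continuous (XH : XX J (PP at_ τ bl) → Hs (Blk (bR bl : RR at_ τ → β))) :=
  Pool.Agent.L0h85.KQ.continuous_gram.comp continuous_VH

theorem XH_coe (x : XX J (PP at_ τ bl)) :
    ((XH x : Hs _) : Blk (bR bl : RR at_ τ → β)).1 = Xm x := by
  ext r s
  change ((VH at_ τ bl x).1 * star (VH at_ τ bl x).1) r s = _
  rw [Matrix.mul_apply]
  rfl

theorem XH_fr (g : ZZ at_ τ bl → ℂ) : XH (fr hcov g) = nrm (DD hcov bl) (gram (GB g)) := by
  apply Subtype.ext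
  apply Subtype.ext
  rw [XH_coe]
  exact Xm_fr hcov g

/-- the relative size of a frame -/
noncomputable def Zf (x : XX J (PP at_ τ bl)) : ℝ := Zz hcov (prL hcov bl (XH x))

theorem Zf_fr (g : ZZ at_ τ bl → ℂ) : Zf hcov (fr hcov g) = Zz hcov (zf hcov g) := by
  unfold Zf zf
  rw [XH_fr]

theorem continuous_prL : Continuous (prL hcov bl) := by
  have : FiniteDimensional ℝ (Blk (bR bl : RR at_ τ → β)) := FiniteDimensional.complexToReal _
  exact LinearMap.continuous_of_finiteDimensional _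

theorem measurable_Zf : Measurable (Zf hcov : XX J (PP at_ τ bl) → ℝ) :=
  (measurable_Zz hcov).comp ((continuous_prL hcov).comp continuous_XH).measurable

theorem Zf_main [Fintype β] {K : ℝ} (hK : 0 < K) (h : Gbc K) {T : ℝ} (hT : 0 ≤ T)
    (hs : ∑ b ∈ Finset.univ.image (bR bl : RR at_ τ → β), Real.exp (-(T * Nb at_ τ bl b)) ≤ 1) :
    Integrable (Zf hcov) (lw hcov bl) ∧ ∫ x, Zf hcov x ∂(lw hcov bl) ≤ 4 * (K * (1 + T)) ∧
    ∀ᵐ x ∂(lw hcov bl), ∀ u : RR at_ τ → ℂ,
      (∑ i, ∑ j, star (u i) * Xm x i j * u j).re ≤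
        Zf hcov x * ∑ r, Nb at_ τ bl (bR bl r) / Mc at_ τ bl (tR r) * ‖u r‖ ^ 2 := by
  have : FiniteDimensional ℝ (Blk (bR bl : RR at_ τ → β)) := FiniteDimensional.complexToReal _
  obtain ⟨h1, h2, h3⟩ := Zz_main hcov hK h hT hs (Measure.addHaar (G := (DD hcov bl).N))
  rw [← map_zf hcov (Measure.addHaar (G := (DD hcov bl).N))] at h1 h2 h3
  have hzm := (measurable_zf hcov (bl := bl)).aemeasurable (μ := gau (ZZ at_ τ bl))
  have hfm := (measurable_fr hcov (bl := bl)).aemeasurable (μ := gau (ZZ at_ τ bl))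
  refine ⟨?_, ?_, ?_⟩
  · unfold lw
    rw [integrable_map_measure (measurable_Zf hcov).aestronglyMeasurable hfm]
    rw [integrable_map_measure (measurable_Zz hcov).aestronglyMeasurable hzm] at h1
    refine h1.congr (Filter.Eventually.of_forall fun g => ?_)
    exact (Zf_fr hcov g).symm
  · unfold lw
    rw [integral_map hfm (measurable_Zf hcov).aestronglyMeasurable]
    rw [integral_map hzm (measurable_Zz hcov).aestronglyMeasurable] at h2
    refine le_trans (le_of_eq ?_) h2
    exact integral_congr_ae (Filter.Eventually.of_forall fun g => Zf_fr hcov g)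
  · obtain ⟨t, ht1, ht2, ht3⟩ := exists_measurable_superset_of_null
      (s := {z | ¬ ∀ u : RR at_ τ → ℂ, (∑ i, ∑ j, star (u i) * Xz hcov z i j * u j).re ≤
        Zz hcov z * ∑ r, Nb at_ τ bl (bR bl r) / Mc at_ τ bl (tR r) * ‖u r‖ ^ 2})
      (ae_iff.1 h3)
    have hG : ∀ᵐ x ∂(lw hcov bl), prL hcov bl (XH x) ∉ t ∧
        XH x = x0 at_ τ bl + (prL hcov bl (XH x) : Hs (Blk (bR bl : RR at_ τ → β))) := by
      refine (ae_map_iff hfm ?_).2 ?_
      · refine MeasurableSet.inter ?_ ?_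
        · exact (((continuous_prL hcov).comp continuous_XH).measurable ht2.compl)
        · refine (isClosed_eq continuous_XH ?_).measurableSet
          exact continuous_const.add (continuous_subtype_val.comp
            ((continuous_prL hcov).comp continuous_XH))
      · have h5 : ∀ᵐ z ∂((gau (ZZ at_ τ bl)).map (zf hcov)), z ∉ t := by
          rw [ae_iff]
          simpa using ht3
        filter_upwards [ae_of_ae_map hzm h5, GB_unit_ae (at_ := at_) (τ := τ) (bl := bl)] with g hg1 hg2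
        rw [XH_fr]
        exact ⟨hg1, (zf_eq hcov hg2).symm⟩
    filter_upwards [hG] with x hx u
    obtain ⟨hx1, hx2⟩ := hx
    have h6 : ∀ u : RR at_ τ → ℂ, (∑ i, ∑ j, star (u i) * Xz hcov (prL hcov bl (XH x)) i j * u j).re ≤
        Zz hcov (prL hcov bl (XH x)) *
          ∑ r, Nb at_ τ bl (bR bl r) / Mc at_ τ bl (tR r) * ‖u r‖ ^ 2 := by
      by_contra h7
      exact hx1 (ht1 h7)
    have h8 : Xz hcov (prL hcov bl (XH x)) = Xm x := by
      unfold Xz
      rw [← hx2, XH_coe]
    rw [h8] at h6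
    exact h6 u

end Pool.Agent.L0h31.KQ
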