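import Pool.Agent.L0h31.KQ.Fr

/-!
# The law of the random frame
-/

set_option autoImplicit false
set_option linter.unusedSectionVars false

namespace Pool.Agent.L0h31.KQ

open MeasureTheory
open scoped ENNReal InnerProductSpace ComplexOrder

section upd

variable {J P α : Type} [Fintype J] [DecidableEq J] [Fintype P] [DecidableEq P] [DecidableEq α]

theorem upd_gram {w : P → ℂ} (hw : ∑ p, w p * star (w p) = 1) (θ : ℝ) (x : XX J P) (j j' : J) :
    ∑ p, upd w θ x (j, p) * star (upd w θ x (j', p)) = ∑ p, x (j, p) * star (x (j', p)) := by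
  set ζ := Complex.exp (θ * Complex.I) with hζ
  set s := ∑ q, x (j, q) * w q with hs
  set s' := ∑ q, x (j', q) * w q with hs'
  have e1 : ∑ p, upd w θ x (j, p) * star (upd w θ x (j', p)) =
      ∑ p, (x (j, p) * star (x (j', p)) + (ζ - 1) * s * (star (w p) * star (x (j', p))) +
        star ((ζ - 1) * s') * (x (j, p) * w p) +
        (ζ - 1) * s * star ((ζ - 1) * s') * (w p * star (w p))) := by
    refine Finset.sum_congr rfl fun p _ => ?_
    unfold upd
    rw [star_add, star_mul (_ * _), star_star]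
    ring
  have e2 : ∑ p, star (w p) * star (x (j', p)) = star s' := by
    rw [hs', star_sum]
    exact Finset.sum_congr rfl fun p _ => by rw [star_mul]
  rw [e1, Finset.sum_add_distrib, Finset.sum_add_distrib, Finset.sum_add_distrib,
    ← Finset.mul_sum, ← Finset.mul_sum, ← Finset.mul_sum, hw, e2, ← hs]
  have e3 : ζ * star ζ = 1 := exp_norm θ
  have e4 : star ((ζ - 1) * s') = (star ζ - 1) * star s' := by
    rw [star_mul, star_sub, star_one, mul_comm]
  rw [e4]
  linear_combination (s * star s') * e3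

theorem upd_mask {at_ : J → α} {τ : P → α} {w : P → ℂ} (hw : UV τ w) (θ : ℝ) {x : XX J P}
    (hx : ∀ z : J × P, at_ z.1 ≠ τ z.2 → x z = 0) (z : J × P) (hz : at_ z.1 ≠ τ z.2) :
    upd w θ x z = 0 := by
  obtain ⟨a, ha⟩ := hw.lab
  unfold upd
  rw [hx z hz, zero_add]
  by_cases hp : w z.2 = 0
  · rw [hp, star_zero, mul_zero]
  · have h1 := ha _ hp
    have h2 : ∑ q, x (z.1, q) * w q = 0 := by
      refine Finset.sum_eq_zero fun q _ => ?_
      by_cases hq : w q = 0
      · rw [hq, mul_zero]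
      · rw [hx (z.1, q) (by rw [ha q hq, ← h1]; exact hz), zero_mul]
    simp only [h2, mul_zero, zero_mul]

theorem gext_mask (at_ : J → α) (τ : P → α) (g : {z : J × P // at_ z.1 = τ z.2} → ℂ) (z : J × P)
    (h : at_ z.1 ≠ τ z.2) : gext at_ τ g z = 0 := dif_neg h

theorem gext_sub (at_ : J → α) (τ : P → α) {x : XX J P}
    (hx : ∀ z : J × P, at_ z.1 ≠ τ z.2 → x z = 0) :
    gext at_ τ (fun z : {z : J × P // at_ z.1 = τ z.2} => x z.1) = x := by
  funext z
  unfold gext
  split_ifs with h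
  · rfl
  · exact (hx z h).symm

theorem gext_val (at_ : J → α) (τ : P → α) (g : {z : J × P // at_ z.1 = τ z.2} → ℂ)
    (z : {z : J × P // at_ z.1 = τ z.2}) : gext at_ τ g z.1 = g z := dif_pos z.2

/-- the action of a unitary matrix on the Gaussian variables -/
noncomputable def LU (at_ : J → α) (τ : P → α) (w : P → ℂ) (θ : ℝ) :
    ({z : J × P // at_ z.1 = τ z.2} → ℂ) →ₗ[ℝ] ({z : J × P // at_ z.1 = τ z.2} → ℂ) where
  toFun g := fun z => upd w θ (gext at_ τ g) z.1
  map_add' g g' := by
    funext z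
    have e : gext at_ τ (g + g') = gext at_ τ g + gext at_ τ g' := by
      funext z
      change gext at_ τ (g + g') z = gext at_ τ g z + gext at_ τ g' z
      unfold gext
      split_ifs
      · rfl
      · rw [add_zero]
    change upd w θ (gext at_ τ (g + g')) z.1 = upd w θ (gext at_ τ g) z.1 + upd w θ (gext at_ τ g') z.1
    rw [e]
    unfold upd
    have e2 : ∑ q, (gext at_ τ g + gext at_ τ g') (z.1.1, q) * w q =
        ∑ q, gext at_ τ g (z.1.1, q) * w q + ∑ q, gext at_ τ g' (z.1.1, q) * w q := by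
      rw [← Finset.sum_add_distrib]
      exact Finset.sum_congr rfl fun q _ => by rw [Pi.add_apply, add_mul]
    rw [e2, Pi.add_apply]
    ring
  map_smul' c g := by
    funext z
    have e : gext at_ τ (c • g) = c • gext at_ τ g := by
      funext z
      change gext at_ τ (c • g) z = c • gext at_ τ g z
      unfold gext
      split_ifs
      · rfl
      · rw [smul_zero]
    change upd w θ (gext at_ τ (c • g)) z.1 = c • upd w θ (gext at_ τ g) z.1
    rw [e]
    unfold upd
    have e2 : ∑ q, (c • gext at_ τ g) (z.1.1, q) * w q =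
        (c : ℂ) * ∑ q, gext at_ τ g (z.1.1, q) * w q := by
      rw [Finset.mul_sum]
      exact Finset.sum_congr rfl fun q _ => by
        rw [Pi.smul_apply, Complex.real_smul, mul_assoc]
    rw [e2, Pi.smul_apply, Complex.real_smul, Complex.real_smul]
    ring

theorem gext_LU {at_ : J → α} {τ : P → α} {w : P → ℂ} (hw : UV τ w) (θ : ℝ)
    (g : {z : J × P // at_ z.1 = τ z.2} → ℂ) :
    gext at_ τ (LU at_ τ w θ g) = upd w θ (gext at_ τ g) :=
  gext_sub at_ τ (upd_mask hw θ (gext_mask at_ τ g))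

theorem norm_gram (x : XX J P) : ∑ z, ‖x z‖ ^ 2 = ∑ j, (∑ p, x (j, p) * star (x (j, p))).re := by
  rw [Fintype.sum_prod_type]
  refine Finset.sum_congr rfl fun j _ => ?_
  rw [Complex.re_sum]
  exact Finset.sum_congr rfl fun p _ => (mul_star_re _).symm

theorem norm_gext (at_ : J → α) (τ : P → α) (g : {z : J × P // at_ z.1 = τ z.2} → ℂ) :
    ∑ z, ‖gext at_ τ g z‖ ^ 2 = ∑ z, ‖g z‖ ^ 2 := by
  rw [sum_sub (fun z : J × P => at_ z.1 = τ z.2) (fun z => ‖gext at_ τ g z‖ ^ 2) (fun z hz => by
    rw [gext_mask at_ τ g z hz, norm_zero, zero_pow two_ne_zero])]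
  exact Finset.sum_congr rfl fun z _ => by rw [gext_val]

theorem LU_norm {at_ : J → α} {τ : P → α} {w : P → ℂ} (hw : UV τ w) (θ : ℝ)
    (g : {z : J × P // at_ z.1 = τ z.2} → ℂ) :
    ∑ z, ‖LU at_ τ w θ g z‖ ^ 2 = ∑ z, ‖g z‖ ^ 2 := by
  rw [← norm_gext at_ τ (LU at_ τ w θ g), ← norm_gext at_ τ g, gext_LU hw, norm_gram, norm_gram]
  exact Finset.sum_congr rfl fun j _ => by rw [upd_gram hw.unit]

theorem wis_LU {at_ : J → α} {τ : P → α} {w : P → ℂ} (hw : UV τ w) (θ : ℝ)
    (g : {z : J × P // at_ z.1 = τ z.2} → ℂ) : wis at_ τ (LU at_ τ w θ g) = wis at_ τ g := by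
  ext j j'
  unfold wis
  rw [gext_LU hw]
  exact upd_gram hw.unit θ _ j j'

end upd

variable {J C α β : Type} [Fintype J] [DecidableEq J] [Fintype C] [DecidableEq C] [Fintype α]
  [DecidableEq α] [DecidableEq β] {at_ : J → α} {τ : C → α} {bl : C → β}

variable (hcov : Cov at_ τ)

theorem fr_LU {w : PP at_ τ bl → ℂ} (hw : UV (tP (at_ := at_) (τ := τ) (bl := bl)) w) (θ : ℝ)
    (g : ZZ at_ τ bl → ℂ) :
    fr hcov (LU at_ (tP (at_ := at_) (τ := τ) (bl := bl)) w θ g) = upd w θ (fr hcov g) := by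
  have hS : SS hcov (LU at_ (tP (at_ := at_) (τ := τ) (bl := bl)) w θ g) = SS hcov g := by
    apply Subtype.ext
    apply Subtype.ext
    exact (SS_coe hcov _).trans ((wis_LU hw θ g).trans (SS_coe hcov g).symm)
  funext z
  have e0 : fr hcov (LU at_ (tP (at_ := at_) (τ := τ) (bl := bl)) w θ g) z =
      ∑ l, (tA (SS hcov g) : Blk at_).1 z.1 l * upd w θ (gx g) (l, z.2) := by
    unfold fr
    rw [hS, show gx (LU at_ (tP (at_ := at_) (τ := τ) (bl := bl)) w θ g) = upd w θ (gx g) from
      gext_LU hw θ g]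
  rw [e0]
  unfold upd fr
  have e1 : ∑ q, (∑ l, (tA (SS hcov g) : Blk at_).1 z.1 l * gx g (l, q)) * w q =
      ∑ l, (tA (SS hcov g) : Blk at_).1 z.1 l * ∑ q, gx g (l, q) * w q := by
    simp_rw [Finset.sum_mul, Finset.mul_sum]
    rw [Finset.sum_comm]
    exact Finset.sum_congr rfl fun l _ => Finset.sum_congr rfl fun q _ => by ring
  simp only
  rw [e1, Finset.mul_sum, Finset.sum_mul, ← Finset.sum_add_distrib]
  exact Finset.sum_congr rfl fun l _ => by ring

theorem measurable_fr : Measurable (fr hcov : (ZZ at_ τ bl → ℂ) → XX J (PP at_ τ bl)) := by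
  refine measurable_pi_iff.2 fun z => ?_
  refine Finset.measurable_sum _ fun l _ => ?_
  refine Measurable.mul ?_ ?_
  · exact (continuous_ent at_ z.1 l).measurable.comp (measurable_tA.comp (measurable_SS hcov))
  · unfold gx gext
    by_cases h : at_ (l, z.2).1 = tP (l, z.2).2
    · simp only [dif_pos h]
      exact measurable_pi_apply _
    · simp only [dif_neg h]
      exact measurable_const

theorem isAddHaar_GB :
    ((volume : Measure (ZZ at_ τ bl → ℂ)).map GB : Measure (Blk (bR bl : RR at_ τ → β))).IsAddHaarMeasure := by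
  have : FiniteDimensional ℝ (Blk (bR bl : RR at_ τ → β)) := FiniteDimensional.complexToReal _
  exact ContinuousLinearEquiv.isAddHaarMeasure_map (GBe at_ τ bl).toContinuousLinearEquiv volume

theorem GB_unit_ae : ∀ᵐ g ∂(gau (ZZ at_ τ bl)), IsUnit (GB g : Blk (bR bl : RR at_ τ → β)) := by
  have h0 : gau (ZZ at_ τ bl) ≪ (volume : Measure (ZZ at_ τ bl → ℂ)) :=
    withDensity_absolutelyContinuous _ _
  have := isAddHaar_GB (at_ := at_) (τ := τ) (bl := bl)
  have h1 := Pool.Agent.L0h85.KQ.t_UNIT (Blk (bR bl : RR at_ τ → β))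
    ((volume : Measure (ZZ at_ τ bl → ℂ)).map GB)
  exact h0.ae_le (ae_of_ae_map continuous_GB.measurable.aemeasurable h1)

instance gau_prob (Z : Type) [Fintype Z] : IsProbabilityMeasure (gau Z) :=
  Pool.Agent.L0h60.KQ.t_GAU1 Z

/-- the law of the frame -/
noncomputable def lw (hcov : Cov at_ τ) (bl : C → β) : Measure (XX J (PP at_ τ bl)) :=
  (gau (ZZ at_ τ bl)).map (fr hcov)

instance lw_prob : IsProbabilityMeasure (lw hcov bl) :=
  Measure.isProbabilityMeasure_map (measurable_fr hcov).aemeasurable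

theorem lw_FL : FL at_ (tP (at_ := at_) (τ := τ) (bl := bl)) (lw hcov bl) where
  mem := by
    refine (ae_map_iff (measurable_fr hcov).aemeasurable
      (St_closed at_ (tP (at_ := at_) (τ := τ) (bl := bl))).measurableSet).2 ?_
    filter_upwards [GB_unit_ae (at_ := at_) (τ := τ) (bl := bl)] with g hg
    exact ⟨fun j p h => fr_mask hcov g (j, p) h, fun j j' _ => fr_orth hcov hg j j'⟩
  inv w hw θ := by
    unfold lw
    rw [Measure.map_map (continuous_upd w θ).measurable (measurable_fr hcov)]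
    have hL : Continuous (LU at_ (tP (at_ := at_) (τ := τ) (bl := bl)) w θ) :=
      LinearMap.continuous_of_finiteDimensional _
    have e : upd w θ ∘ fr hcov = fr hcov ∘ LU at_ (tP (at_ := at_) (τ := τ) (bl := bl)) w θ := by
      funext g
      exact (fr_LU hcov hw θ g).symm
    rw [e, ← Measure.map_map (measurable_fr hcov) hL.measurable]
    rw [Pool.Agent.L0h60.KQ.t_GAU4 _ _ (LU_norm hw θ)]

end Pool.Agent.L0h31.KQ
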