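import Pool.Agent.L0h31.KQ.LawA
import Pool.Agent.L0h60.KQ.Gau

/-!
# The Gaussian element and the random frame
-/

set_option autoImplicit false
set_option linter.unusedSectionVars false

namespace Pool.Agent.L0h31.KQ

open MeasureTheory
open scoped ENNReal InnerProductSpace ComplexOrder

variable {J C α β : Type} [Fintype J] [DecidableEq J] [Fintype C] [DecidableEq C] [Fintype α]
  [DecidableEq α] [DecidableEq β] {at_ : J → α} {τ : C → α} {bl : C → β}

/-- the index set of the Gaussian variables -/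
abbrev ZZ (at_ : J → α) (τ : C → α) (bl : C → β) : Type :=
  {z : J × PP at_ τ bl // at_ z.1 = tP z.2}

/-- the Gaussian matrix -/
noncomputable abbrev gx (g : ZZ at_ τ bl → ℂ) : XX J (PP at_ τ bl) :=
  gext at_ (tP (at_ := at_) (τ := τ) (bl := bl)) g

theorem gx_mask (g : ZZ at_ τ bl → ℂ) (z : J × PP at_ τ bl) (h : at_ z.1 ≠ tP z.2) : gx g z = 0 :=
  dif_neg h

/-- the Gaussian element of the big algebra -/
noncomputable def GB (g : ZZ at_ τ bl → ℂ) : Blk (bR bl : RR at_ τ → β) :=
  ⟨fun r k => vh (gx g) r k, fun _ _ h => dif_neg h⟩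

theorem GB_apply (g : ZZ at_ τ bl → ℂ) (r k : RR at_ τ) : (GB g).1 r k = vh (gx g) r k := rfl

theorem vh_gx (g : ZZ at_ τ bl → ℂ) (r k : RR at_ τ) (h : bR bl r = bR bl k) :
    vh (gx g) r k = g ((eZ at_ τ bl).symm ⟨(r, k), h⟩) := by
  unfold vh
  rw [dif_pos h]
  exact dif_pos _

/-- coordinates of the big algebra -/
noncomputable def GBe (at_ : J → α) (τ : C → α) (bl : C → β) :
    (ZZ at_ τ bl → ℂ) ≃ₗ[ℝ] Blk (bR bl : RR at_ τ → β) where
  toFun := GB
  invFun M := fun z => M.1 (eZ at_ τ bl z).1.1 (eZ at_ τ bl z).1.2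
  map_add' g g' := by
    apply Subtype.ext
    ext r k
    change vh (gx (g + g')) r k = vh (gx g) r k + vh (gx g') r k
    by_cases h : bR bl r = bR bl k
    · rw [vh_gx _ _ _ h, vh_gx _ _ _ h, vh_gx _ _ _ h]
      rfl
    · unfold vh
      rw [dif_neg h, dif_neg h, dif_neg h, add_zero]
  map_smul' c g := by
    apply Subtype.ext
    ext r k
    change vh (gx (c • g)) r k = c • vh (gx g) r k
    by_cases h : bR bl r = bR bl k
    · rw [vh_gx _ _ _ h, vh_gx _ _ _ h]
      rfl
    · unfold vh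
      rw [dif_neg h, dif_neg h, smul_zero]
  left_inv g := by
    funext z
    change vh (gx g) _ _ = g z
    rw [vh_gx _ _ _ (eZ at_ τ bl z).2]
    congr 1
  right_inv M := by
    apply Subtype.ext
    ext r k
    change vh (gx fun z => M.1 (eZ at_ τ bl z).1.1 (eZ at_ τ bl z).1.2) r k = M.1 r k
    by_cases h : bR bl r = bR bl k
    · rw [vh_gx _ _ _ h]
      rfl
    · rw [M.2 r k h]
      unfold vh
      rw [dif_neg h]

theorem GBe_apply (g : ZZ at_ τ bl → ℂ) : GBe at_ τ bl g = GB g := rfl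

theorem continuous_GB : Continuous (GB : (ZZ at_ τ bl → ℂ) → Blk (bR bl : RR at_ τ → β)) :=
  LinearMap.continuous_of_finiteDimensional (GBe at_ τ bl).toLinearMap

/-- the Wishart matrix is the partial trace -/
theorem wis_eq (g : ZZ at_ τ bl → ℂ) :
    wis at_ (tP (at_ := at_) (τ := τ) (bl := bl)) g = eM ((GB g).1 * star (GB g).1) := by
  ext j j'
  unfold wis eM
  rw [sumPP]
  refine Finset.sum_congr rfl fun c _ => ?_
  by_cases h : τ c = at_ j ∧ τ c = at_ j'
  · rw [dif_pos h, Matrix.mul_apply]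
    refine Finset.sum_congr rfl fun k _ => ?_
    rw [Matrix.star_apply, GB_apply, GB_apply]
    unfold vh
    by_cases hk : bl c = bl k.1.1
    · rw [dif_pos hk, dif_pos (show bR bl (⟨(c, j), h.1⟩ : RR at_ τ) = bR bl k from hk),
        dif_pos (show bR bl (⟨(c, j'), h.2⟩ : RR at_ τ) = bR bl k from hk)]
      rfl
    · rw [dif_neg hk, dif_neg (show ¬ bR bl (⟨(c, j), h.1⟩ : RR at_ τ) = bR bl k from hk), zero_mul]
  · rw [dif_neg h]
    refine Finset.sum_eq_zero fun k _ => ?_
    split_ifs with hk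
    · by_cases h1 : τ c = at_ j
      · have h2 : ¬ τ c = at_ j' := fun e => h ⟨h1, e⟩
        have : gext at_ (tP (at_ := at_) (τ := τ) (bl := bl)) g (j', ⟨(c, k), hk⟩) = 0 :=
          gx_mask g _ (fun e => h2 e.symm)
        rw [this, star_zero, mul_zero]
      · have : gext at_ (tP (at_ := at_) (τ := τ) (bl := bl)) g (j, ⟨(c, k), hk⟩) = 0 :=
          gx_mask g _ (fun e => h1 e.symm)
        rw [this, zero_mul]
    · rfl

variable (hcov : Cov at_ τ)

/-- the Wishart element -/
noncomputable def SS (g : ZZ at_ τ bl → ℂ) : Hs (Blk at_) := (DD hcov bl).es (gram (GB g))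

theorem SS_coe (g : ZZ at_ τ bl → ℂ) : ((SS hcov g : Hs (Blk at_)) : Blk at_).1 =
    wis at_ (tP (at_ := at_) (τ := τ) (bl := bl)) g := (wis_eq g).symm

theorem measurable_SS : Measurable (SS hcov : (ZZ at_ τ bl → ℂ) → Hs (Blk at_)) :=
  ((continuous_es (DD hcov bl)).comp (Pool.Agent.L0h85.KQ.continuous_gram.comp
    continuous_GB)).measurable

/-- the random frame -/
noncomputable def fr (g : ZZ at_ τ bl → ℂ) : XX J (PP at_ τ bl) := fun z =>
  ∑ l, (tA (SS hcov g) : Blk at_).1 z.1 l * gx g (l, z.2)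

theorem fr_mask (g : ZZ at_ τ bl → ℂ) (z : J × PP at_ τ bl) (h : at_ z.1 ≠ tP z.2) :
    fr hcov g z = 0 := by
  unfold fr
  refine Finset.sum_eq_zero fun l _ => ?_
  by_cases hl : at_ z.1 = at_ l
  · rw [gx_mask g (l, z.2) (fun e => h (hl.trans e)), mul_zero]
  · rw [(tA (SS hcov g) : Blk at_).2 _ _ hl, zero_mul]

/-- the element of the big algebra given by the frame -/
theorem vh_fr (g : ZZ at_ τ bl → ℂ) (r k : RR at_ τ) :
    vh (fr hcov g) r k = ((DD hcov bl).i (tA (SS hcov g)) * GB g).1 r k := by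
  change _ = ((iM (tA (SS hcov g) : Blk at_).1 : Matrix (RR at_ τ) (RR at_ τ) ℂ) * (GB g).1) r k
  rw [Matrix.mul_apply]
  by_cases h : bR bl r = bR bl k
  · have e1 : vh (fr hcov g) r k = ∑ l, (tA (SS hcov g) : Blk at_).1 r.1.2 l *
        gx g (l, (zz r k h).2) := by
      unfold vh
      rw [dif_pos h]
      rfl
    rw [e1, ← sumRR_one (at_ := at_) (τ := τ) r.1.1 (fun l => (tA (SS hcov g) : Blk at_).1 r.1.2 l *
        gx g (l, (zz r k h).2)) (fun l hl => by
          rw [gx_mask g (l, (zz r k h).2) (fun e => hl (Eq.symm e)), mul_zero])]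
    refine Finset.sum_congr rfl fun t _ => ?_
    unfold iM
    by_cases h1 : r.1.1 = t.1.1
    · rw [if_pos h1, if_pos h1, GB_apply]
      have h2 : bR bl t = bR bl k := by
        unfold bR at h ⊢
        rw [← h1, h]
      have e2 : vh (gx g) t k = gx g (zz t k h2) := by
        unfold vh
        rw [dif_pos h2]
      rw [e2]
      congr 2
      unfold zz
      refine Prod.ext rfl (Subtype.ext ?_)
      exact Prod.ext h1 rfl
    · rw [if_neg h1, if_neg h1, zero_mul]
  · have e1 : vh (fr hcov g) r k = 0 := dif_neg h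
    rw [e1]
    symm
    refine Finset.sum_eq_zero fun t _ => ?_
    unfold iM
    by_cases h1 : r.1.1 = t.1.1
    · rw [GB_apply]
      have h2 : ¬ bR bl t = bR bl k := by
        unfold bR at h ⊢
        rw [← h1]
        exact h
      have e2 : vh (gx g) t k = 0 := dif_neg h2
      rw [e2, mul_zero]
    · rw [if_neg h1, zero_mul]

/-- the Gram matrix of the frame -/
theorem Xm_fr (g : ZZ at_ τ bl → ℂ) :
    Xm (fr hcov g) = ((nrm (DD hcov bl) (gram (GB g)) : Hs _) : Blk (bR bl : RR at_ τ → β)).1 := by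
  have e : ((nrm (DD hcov bl) (gram (GB g)) : Hs _) : Blk (bR bl : RR at_ τ → β)) =
      ((DD hcov bl).i (tA (SS hcov g)) * GB g) * star ((DD hcov bl).i (tA (SS hcov g)) * GB g) := by
    change (DD hcov bl).i (tA (SS hcov g)) * (GB g * star (GB g)) *
      star ((DD hcov bl).i (tA (SS hcov g))) = _
    rw [star_mul]
    simp only [mul_assoc]
  rw [e]
  ext r s
  unfold Xm
  change _ = (((DD hcov bl).i (tA (SS hcov g)) * GB g).1 *
    star ((DD hcov bl).i (tA (SS hcov g)) * GB g).1) r s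
  rw [Matrix.mul_apply]
  refine Finset.sum_congr rfl fun k _ => ?_
  rw [vh_fr, vh_fr]
  rfl

/-- the rows of the frame -/
theorem fr_orth {g : ZZ at_ τ bl → ℂ} (hg : IsUnit (GB g)) (j j' : J) :
    ∑ p, fr hcov g (j, p) * star (fr hcov g (j', p)) = if j = j' then 1 else 0 := by
  have hpd : SS hcov g ∈ PD (Blk at_) := es_pd _ (gram_pd hg)
  have h := (tA_spec hpd).2
  have h2 : (tA (SS hcov g)).1 * wis at_ (tP (at_ := at_) (τ := τ) (bl := bl)) g *
      star (tA (SS hcov g)).1 = 1 := by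
    rw [← SS_coe hcov g]
    exact congrArg Subtype.val h
  have h3 := congrFun (congrFun h2 j) j'
  rw [Matrix.one_apply] at h3
  rw [← h3, Matrix.mul_apply]
  unfold fr
  simp only
  have e : ∀ p, (∑ l, (tA (SS hcov g)).1 j l * gx g (l, p)) *
      star (∑ l, (tA (SS hcov g)).1 j' l * gx g (l, p)) =
      ∑ m, (∑ l, (tA (SS hcov g)).1 j l * (gx g (l, p) * star (gx g (m, p)))) *
        star ((tA (SS hcov g)).1 j' m) := by
    intro p
    rw [star_sum, Finset.mul_sum]
    refine Finset.sum_congr rfl fun m _ => ?_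
    rw [star_mul, Finset.sum_mul, Finset.sum_mul]
    exact Finset.sum_congr rfl fun l _ => by ring
  simp_rw [e]
  rw [Finset.sum_comm]
  refine Finset.sum_congr rfl fun m _ => ?_
  rw [← Finset.sum_mul, Matrix.star_apply]
  congr 1
  rw [Matrix.mul_apply, Finset.sum_comm]
  refine Finset.sum_congr rfl fun l _ => ?_
  rw [← Finset.mul_sum]
  rfl

end Pool.Agent.L0h31.KQ
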