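import Pool.Agent.L0h31.KQ.Tc5
import Pool.Agent.L0h31.KQ.Defs2
import Pool.Agent.H212R2.KLS.A8

/-!
# The indices of the block algebras
-/

set_option autoImplicit false
set_option linter.unusedSectionVars false

namespace Pool.Agent.L0h31.KQ

open MeasureTheory
open scoped ENNReal InnerProductSpace ComplexOrder

variable {J C α β : Type} [Fintype J] [DecidableEq J] [Fintype C] [DecidableEq C]
  [DecidableEq α] [DecidableEq β] {at_ : J → α} {τ : C → α} {bl : C → β}

/-- the rows of the big algebra: copies `c` and rows `j` of the same label -/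
abbrev RR (at_ : J → α) (τ : C → α) : Type := {r : C × J // τ r.1 = at_ r.2}

/-- the columns of the frames -/
abbrev PP (at_ : J → α) (τ : C → α) (bl : C → β) : Type :=
  {p : C × RR at_ τ // bl p.1 = bl p.2.1.1}

/-- the block of a row -/
def bR (bl : C → β) (r : RR at_ τ) : β := bl r.1.1

/-- the label of a row -/
def tR (r : RR at_ τ) : α := τ r.1.1

/-- the label of a column -/
def tP (p : PP at_ τ bl) : α := τ p.1.1

/-- the size of the block of a row -/
noncomputable def Nb (at_ : J → α) (τ : C → α) (bl : C → β) (b : β) : ℝ :=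
  Fintype.card {r : RR at_ τ // bR bl r = b}

/-- the number of columns with the label `a` -/
noncomputable def Mc (at_ : J → α) (τ : C → α) (bl : C → β) (a : α) : ℝ :=
  Fintype.card {p : PP at_ τ bl // tP p = a}

/-- the index of a frame given by two rows in the same block -/
def zz (r k : RR at_ τ) (h : bR bl r = bR bl k) : J × PP at_ τ bl := (r.1.2, ⟨(r.1.1, k), h⟩)

/-- the equivalence of the indices -/
def eZ (at_ : J → α) (τ : C → α) (bl : C → β) :
    {z : J × PP at_ τ bl // at_ z.1 = tP z.2} ≃ {q : RR at_ τ × RR at_ τ // bR bl q.1 = bR bl q.2} where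
  toFun z := ⟨(⟨(z.1.2.1.1, z.1.1), z.2.symm⟩, z.1.2.1.2), z.1.2.2⟩
  invFun q := ⟨zz q.1.1 q.1.2 q.2, q.1.1.2.symm⟩
  left_inv _ := rfl
  right_inv _ := rfl

theorem sum_sub {ι M : Type*} [Fintype ι] [AddCommMonoid M] (p : ι → Prop) [DecidablePred p]
    (F : ι → M) (hF : ∀ z, ¬ p z → F z = 0) : ∑ z, F z = ∑ z : {z // p z}, F z.1 := by
  rw [← Finset.sum_subtype (Finset.univ.filter p) (by simp) F]
  exact (Finset.sum_filter_of_ne fun z _ hz => by
    by_contra h
    exact hz (hF z h)).symm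

theorem sumJP {M : Type*} [AddCommMonoid M] (F : J × PP at_ τ bl → M)
    (hF : ∀ z, at_ z.1 ≠ tP z.2 → F z = 0) :
    ∑ z, F z = ∑ r : RR at_ τ, ∑ k : RR at_ τ, if h : bR bl r = bR bl k then F (zz r k h) else 0 := by
  rw [sum_sub (fun z : J × PP at_ τ bl => at_ z.1 = tP z.2) F hF,
    ← Equiv.sum_comp (eZ at_ τ bl).symm, ← Fintype.sum_prod_type'
      (f := fun r k : RR at_ τ => if h : bR bl r = bR bl k then F (zz r k h) else 0),
    sum_sub (fun q : RR at_ τ × RR at_ τ => bR bl q.1 = bR bl q.2)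
      (fun q => if h : bR bl q.1 = bR bl q.2 then F (zz q.1 q.2 h) else 0)
      (fun q hq => dif_neg hq)]
  refine Finset.sum_congr rfl fun q _ => ?_
  rw [dif_pos q.2]
  rfl

/-- the element of the big algebra -/
noncomputable def vh (x : XX J (PP at_ τ bl)) (r k : RR at_ τ) : ℂ :=
  if h : bR bl r = bR bl k then x (zz r k h) else 0

/-- the Gram matrix -/
noncomputable def Xm (x : XX J (PP at_ τ bl)) : Matrix (RR at_ τ) (RR at_ τ) ℂ := fun r s =>
  ∑ k, vh x r k * star (vh x s k)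

/-- the matrix of the quadratic form `tr (Y X)` -/
noncomputable def AY (Y : Matrix (RR at_ τ) (RR at_ τ) ℂ) :
    Matrix (J × PP at_ τ bl) (J × PP at_ τ bl) ℂ := fun z z' =>
  if h : (tP z.2 = at_ z.1 ∧ tP z'.2 = at_ z'.1) ∧ z.2.1.2 = z'.2.1.2 then
    Y ⟨(z.2.1.1, z.1), h.1.1⟩ ⟨(z'.2.1.1, z'.1), h.1.2⟩ else 0

theorem AY_mask {Y : Matrix (RR at_ τ) (RR at_ τ) ℂ} {z z' : J × PP at_ τ bl}
    (h : AY Y z z' ≠ 0) : at_ z.1 = tP z.2 ∧ at_ z'.1 = tP z'.2 := by
  unfold AY at h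
  split_ifs at h with h1
  · exact ⟨h1.1.1.symm, h1.1.2.symm⟩
  · exact absurd rfl h

theorem AY_herm {Y : Matrix (RR at_ τ) (RR at_ τ) ℂ} (hY : Y.IsHermitian) :
    (AY (bl := bl) Y).IsHermitian := by
  ext z z'
  rw [Matrix.conjTranspose_apply]
  unfold AY
  by_cases h : (tP z.2 = at_ z.1 ∧ tP z'.2 = at_ z'.1) ∧ z.2.1.2 = z'.2.1.2
  · rw [dif_pos h, dif_pos ⟨⟨h.1.2, h.1.1⟩, h.2.symm⟩]
    exact hY.apply _ _
  · rw [dif_neg h, dif_neg (fun h' => h ⟨⟨h'.1.2, h'.1.1⟩, h'.2.symm⟩), star_zero]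

theorem AY_zz (Y : Matrix (RR at_ τ) (RR at_ τ) ℂ) (r k s l : RR at_ τ) (h : bR bl r = bR bl k)
    (h' : bR bl s = bR bl l) : AY Y (zz r k h) (zz s l h') = if k = l then Y r s else 0 := by
  unfold AY
  by_cases hkl : k = l
  · rw [if_pos hkl, dif_pos ⟨⟨r.2, s.2⟩, hkl⟩]
    rfl
  · rw [if_neg hkl, dif_neg fun h => hkl h.2]

theorem ap_AY (Y : Matrix (RR at_ τ) (RR at_ τ) ℂ) (x : XX J (PP at_ τ bl)) (r k : RR at_ τ)
    (h : bR bl r = bR bl k) : ap (AY Y) x (zz r k h) = ∑ s, Y r s * vh x s k := by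
  unfold ap
  rw [sumJP (fun z' => AY Y (zz r k h) z' * x z') (fun z' hz' => by
    have : AY Y (zz r k h) z' = 0 := by
      by_contra h0
      exact hz' (AY_mask h0).2
    rw [this, zero_mul])]
  refine Finset.sum_congr rfl fun s _ => ?_
  rw [Finset.sum_eq_single k]
  · unfold vh
    split_ifs with h1
    · rw [AY_zz, if_pos rfl]
    · rw [mul_zero]
  · intro l _ hl
    split_ifs with h1
    · rw [AY_zz, if_neg (Ne.symm hl), zero_mul]
    · rfl
  · intro h
    exact absurd (Finset.mem_univ _) h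

theorem ap_mask (Y : Matrix (RR at_ τ) (RR at_ τ) ℂ) (x : XX J (PP at_ τ bl))
    (z : J × PP at_ τ bl) (hz : at_ z.1 ≠ tP z.2) : ap (AY Y) x z = 0 := by
  unfold ap
  refine Finset.sum_eq_zero fun z' _ => ?_
  have : AY Y z z' = 0 := by
    by_contra h0
    exact hz (AY_mask h0).1
  rw [this, zero_mul]

/-- the quadratic form is `tr (Y X)` -/
theorem qf_AY (Y : Matrix (RR at_ τ) (RR at_ τ) ℂ) (x : XX J (PP at_ τ bl)) :
    qf (AY Y) x = (∑ r, ∑ s, Y r s * Xm x s r).re := by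
  unfold qf
  congr 1
  rw [sumJP (fun z => ap (AY Y) x z * star (x z)) (fun z hz => by rw [ap_mask Y x z hz, zero_mul])]
  refine Finset.sum_congr rfl fun r _ => ?_
  have e : ∀ k : RR at_ τ, (if h : bR bl r = bR bl k then ap (AY Y) x (zz r k h) * star (x (zz r k h))
      else 0) = ∑ s, Y r s * vh x s k * star (vh x r k) := by
    intro k
    rw [← Finset.sum_mul]
    unfold vh
    split_ifs with h
    · rw [ap_AY]
      rfl
    · rw [star_zero, mul_zero]
  simp_rw [e]
  rw [Finset.sum_comm]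
  refine Finset.sum_congr rfl fun s _ => ?_
  unfold Xm
  rw [Finset.mul_sum]
  exact Finset.sum_congr rfl fun k _ => by ring

/-- the norm of a direction -/
noncomputable def Qn (bl : C → β) (Y : Matrix (RR at_ τ) (RR at_ τ) ℂ) : ℝ :=
  ∑ r, ∑ s, Nb at_ τ bl (bR bl s) * ‖Y r s‖ ^ 2 / (Mc at_ τ bl (tR r) * Mc at_ τ bl (tR s))

/-- the bound for the gradient term -/
theorem sum_ap_le {Y : Matrix (RR at_ τ) (RR at_ τ) ℂ} (hY : Y.IsHermitian)
    (x : XX J (PP at_ τ bl)) {Z : ℝ}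
    (hZ : ∀ u : RR at_ τ → ℂ, (∑ r, ∑ s, star (u r) * Xm x r s * u s).re ≤
      Z * ∑ r, Nb at_ τ bl (bR bl r) / Mc at_ τ bl (tR r) * ‖u r‖ ^ 2) :
    ∑ q, 8 / (Fintype.card {r // tP (at_ := at_) (τ := τ) (bl := bl) r = tP q} : ℝ) *
      ∑ j, ‖ap (AY Y) x (j, q)‖ ^ 2 ≤ 8 * Z * Qn bl Y := by
  have e1 : ∑ q, 8 / (Fintype.card {r // tP (at_ := at_) (τ := τ) (bl := bl) r = tP q} : ℝ) *
      ∑ j, ‖ap (AY Y) x (j, q)‖ ^ 2 =
      ∑ z : J × PP at_ τ bl, 8 / Mc at_ τ bl (tP z.2) * ‖ap (AY Y) x z‖ ^ 2 := by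
    rw [Fintype.sum_prod_type, Finset.sum_comm]
    refine Finset.sum_congr rfl fun q _ => ?_
    rw [Finset.mul_sum]
    rfl
  rw [e1, sumJP (fun z => 8 / Mc at_ τ bl (tP z.2) * ‖ap (AY Y) x z‖ ^ 2)
    (fun z hz => by rw [ap_mask Y x z hz]; simp)]
  unfold Qn
  rw [Finset.mul_sum]
  refine Finset.sum_le_sum fun r _ => ?_
  have hM : 0 ≤ 8 / Mc at_ τ bl (tR r) := by
    unfold Mc
    positivity
  have e2 : ∑ k : RR at_ τ, (if h : bR bl r = bR bl k then
      8 / Mc at_ τ bl (tP (zz r k h).2) * ‖ap (AY Y) x (zz r k h)‖ ^ 2 else 0) ≤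
      8 / Mc at_ τ bl (tR r) * ∑ k, ‖∑ s, Y r s * vh x s k‖ ^ 2 := by
    rw [Finset.mul_sum]
    refine Finset.sum_le_sum fun k _ => ?_
    split_ifs with h
    · rw [ap_AY]
      exact le_rfl
    · positivity
  refine e2.trans ?_
  have e3 : ∑ k, ‖∑ s, Y r s * vh x s k‖ ^ 2 =
      (∑ s, ∑ t, star (star (Y r s)) * Xm x s t * star (Y r t)).re := by
    have e4 : ∀ k, ‖∑ s, Y r s * vh x s k‖ ^ 2 =
        (∑ s, ∑ t, star (star (Y r s)) * (vh x s k * star (vh x t k)) * star (Y r t)).re := by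
      intro k
      rw [← mul_star_re]
      congr 1
      rw [star_sum, Finset.sum_mul_sum]
      refine Finset.sum_congr rfl fun s _ => Finset.sum_congr rfl fun t _ => ?_
      rw [star_mul, star_star]
      ring
    simp_rw [e4]
    rw [← Complex.re_sum]
    congr 1
    rw [Finset.sum_comm]
    refine Finset.sum_congr rfl fun s _ => ?_
    rw [Finset.sum_comm]
    refine Finset.sum_congr rfl fun t _ => ?_
    unfold Xm
    rw [Finset.mul_sum, Finset.sum_mul]
  rw [e3]
  have h1 := hZ fun t => star (Y r t)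
  have h2 := mul_le_mul_of_nonneg_left h1 hM
  refine h2.trans (le_of_eq ?_)
  rw [Finset.mul_sum, Finset.mul_sum, Finset.mul_sum]
  refine Finset.sum_congr rfl fun s _ => ?_
  rw [norm_star]
  ring

theorem sum_AY (Y : Matrix (RR at_ τ) (RR at_ τ) ℂ) (hYb : ∀ r s, bR bl r ≠ bR bl s → Y r s = 0) :
    ∑ z : J × PP at_ τ bl, ∑ z' : J × PP at_ τ bl, ‖AY Y z z'‖ ^ 2 /
      ((Fintype.card {r // tP (at_ := at_) (τ := τ) (bl := bl) r = at_ z.1} : ℝ) *
      (Fintype.card {r // tP (at_ := at_) (τ := τ) (bl := bl) r = at_ z'.1} : ℝ)) = Qn bl Y := by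
  rw [sumJP (fun z => ∑ z' : J × PP at_ τ bl, ‖AY Y z z'‖ ^ 2 /
      ((Fintype.card {r // tP (at_ := at_) (τ := τ) (bl := bl) r = at_ z.1} : ℝ) *
      (Fintype.card {r // tP (at_ := at_) (τ := τ) (bl := bl) r = at_ z'.1} : ℝ)))
      (fun z hz => Finset.sum_eq_zero fun z' _ => by
        have : AY Y z z' = 0 := by
          by_contra h0
          exact hz (AY_mask h0).1
        rw [this]
        simp)]
  unfold Qn
  refine Finset.sum_congr rfl fun r _ => ?_
  have e1 : ∀ (k : RR at_ τ), (if h : bR bl r = bR bl k then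
      ∑ z' : J × PP at_ τ bl, ‖AY Y (zz r k h) z'‖ ^ 2 /
      ((Fintype.card {r' // tP (at_ := at_) (τ := τ) (bl := bl) r' = at_ (zz r k h).1} : ℝ) *
      (Fintype.card {r' // tP (at_ := at_) (τ := τ) (bl := bl) r' = at_ z'.1} : ℝ)) else 0) =
      ∑ s, (if bR bl s = bR bl k then ‖Y r s‖ ^ 2 / (Mc at_ τ bl (tR r) * Mc at_ τ bl (tR s))
        else 0) := by
    intro k
    split_ifs with h
    · rw [sumJP (fun z' => ‖AY Y (zz r k h) z'‖ ^ 2 /
        ((Fintype.card {r' // tP (at_ := at_) (τ := τ) (bl := bl) r' = at_ (zz r k h).1} : ℝ) *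
        (Fintype.card {r' // tP (at_ := at_) (τ := τ) (bl := bl) r' = at_ z'.1} : ℝ)))
        (fun z' hz' => by
          have : AY Y (zz r k h) z' = 0 := by
            by_contra h0
            exact hz' (AY_mask h0).2
          rw [this]
          simp)]
      refine Finset.sum_congr rfl fun s _ => ?_
      rw [Finset.sum_eq_single k]
      · split_ifs with h1
        · rw [AY_zz, if_pos rfl]
          have e5 : at_ (zz r k h).1 = tR r := r.2.symm
          have e6 : at_ (zz s k h1).1 = tR s := s.2.symm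
          rw [e5, e6]
          rfl
        · rfl
      · intro l _ hl
        split_ifs with h1
        · rw [AY_zz, if_neg (Ne.symm hl)]
          simp
        · rfl
      · intro h
        exact absurd (Finset.mem_univ _) h
    · symm
      refine Finset.sum_eq_zero fun s _ => ?_
      split_ifs with h1
      · rw [hYb r s (fun e => h (e.trans h1))]
        simp
      · rfl
  simp_rw [e1]
  rw [Finset.sum_comm]
  refine Finset.sum_congr rfl fun s _ => ?_
  rw [← Finset.sum_filter, Finset.sum_const, nsmul_eq_mul]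
  have e7 : ((Finset.univ.filter fun k : RR at_ τ => bR bl s = bR bl k).card : ℝ) =
      Nb at_ τ bl (bR bl s) := by
    unfold Nb
    rw [Fintype.card_subtype]
    congr 2
    ext k
    simp [eq_comm]
  rw [e7]
  ring

end Pool.Agent.L0h31.KQ
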