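import Pool.Agent.L0h31.KQ.Flr

/-!
# The law of the normalised Gram matrix
-/

set_option autoImplicit false
set_option linter.unusedSectionVars false

namespace Pool.Agent.L0h31.KQ

open MeasureTheory
open scoped ENNReal InnerProductSpace ComplexOrder

variable {J C α β : Type} [Fintype J] [DecidableEq J] [Fintype C] [DecidableEq C] [Fintype α]
  [DecidableEq α] [DecidableEq β] {at_ : J → α} {τ : C → α} {bl : C → β}

/-- the section on the selfadjoint elements -/
noncomputable def sH (at_ : J → α) (τ : C → α) (bl : C → β) :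
    Hs (Blk at_) →ₗ[ℝ] Hs (Blk (bR bl : RR at_ τ → β)) where
  toFun S := ⟨⟨sM at_ τ bl (S : Blk at_).1, sM_mem _⟩, by
    apply Subtype.ext
    change star (sM at_ τ bl (S : Blk at_).1) = sM at_ τ bl (S : Blk at_).1
    rw [← sM_star]
    congr 1
    exact congrArg Subtype.val S.2⟩
  map_add' S S' := by
    apply Subtype.ext
    apply Subtype.ext
    ext r s
    change sM at_ τ bl ((S : Blk at_).1 + (S' : Blk at_).1) r s =
      sM at_ τ bl (S : Blk at_).1 r s + sM at_ τ bl (S' : Blk at_).1 r s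
    unfold sM iM
    split_ifs
    · rw [Matrix.add_apply, mul_add]
    · rw [mul_zero, add_zero]
  map_smul' c S := by
    apply Subtype.ext
    apply Subtype.ext
    ext r s
    change sM at_ τ bl (c • (S : Blk at_).1) r s = c • sM at_ τ bl (S : Blk at_).1 r s
    unfold sM iM
    split_ifs
    · rw [Matrix.smul_apply, mul_smul_comm]
    · rw [mul_zero, smul_zero]

theorem sH_coe (S : Hs (Blk at_)) : ((sH at_ τ bl S : Hs (Blk (bR bl : RR at_ τ → β))) :
    Blk (bR bl : RR at_ τ → β)).1 = sM at_ τ bl (S : Blk at_).1 := rfl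

variable (hcov : Cov at_ τ)

theorem es_coe (X : Hs (Blk (bR bl : RR at_ τ → β))) :
    (((DD hcov bl).es X : Hs (Blk at_)) : Blk at_).1 = eM (X : Blk (bR bl : RR at_ τ → β)).1 := rfl

theorem es_sH (S : Hs (Blk at_)) : (DD hcov bl).es (sH at_ τ bl S) = S := by
  apply Subtype.ext
  apply Subtype.ext
  rw [es_coe, sH_coe]
  exact eM_sM hcov _ (S : Blk at_).2

/-- the projection on the kernel -/
noncomputable def prL (hcov : Cov at_ τ) (bl : C → β) :
    Hs (Blk (bR bl : RR at_ τ → β)) →ₗ[ℝ] (DD hcov bl).N :=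
  LinearMap.codRestrict (DD hcov bl).N (LinearMap.id - (sH at_ τ bl).comp (DD hcov bl).es) (by
    intro X
    change (DD hcov bl).es (X - sH at_ τ bl ((DD hcov bl).es X)) = 0
    rw [map_sub, es_sH, sub_self])

theorem prL_coe (X : Hs (Blk (bR bl : RR at_ τ → β))) :
    ((prL hcov bl X : (DD hcov bl).N) : Hs (Blk (bR bl : RR at_ τ → β))) =
      X - sH at_ τ bl ((DD hcov bl).es X) := rfl

theorem prL_ker (z : (DD hcov bl).N) : prL hcov bl z = z := by
  apply Subtype.ext
  rw [prL_coe]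
  have : (DD hcov bl).es (z : Hs (Blk (bR bl : RR at_ τ → β))) = 0 := z.2
  rw [this, map_zero, sub_zero]

/-- the centre -/
noncomputable def x0 (at_ : J → α) (τ : C → α) (bl : C → β) : Hs (Blk (bR bl : RR at_ τ → β)) :=
  sH at_ τ bl ⟨1, star_one _⟩

theorem es_x0 : (DD hcov bl).e (x0 at_ τ bl : Blk (bR bl : RR at_ τ → β)) = 1 := by
  have := es_sH hcov (bl := bl) (⟨1, star_one _⟩ : Hs (Blk at_))
  exact congrArg Subtype.val this

theorem prL_x0 : prL hcov bl (x0 at_ τ bl) = 0 := by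
  apply Subtype.ext
  rw [prL_coe]
  unfold x0
  rw [es_sH, sub_self]
  rfl

theorem x0_apply (r s : RR at_ τ) : (x0 at_ τ bl : Blk (bR bl : RR at_ τ → β)).1 r s =
    if r = s then ((Nb at_ τ bl (bR bl r) / Mc at_ τ bl (tR r) : ℝ) : ℂ) else 0 := by
  change sM at_ τ bl (1 : Matrix J J ℂ) r s = _
  unfold sM iM
  by_cases h : r = s
  · subst h
    rw [if_pos rfl, if_pos rfl, Matrix.one_apply_eq, mul_one]
  · rw [if_neg h]
    split_ifs with h1
    · rw [Matrix.one_apply_ne, mul_zero]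
      intro h2
      exact h (Subtype.ext (Prod.ext h1 h2))
    · rw [mul_zero]

/-- a diagonal element -/
noncomputable def dg (f : RR at_ τ → β) (d : RR at_ τ → ℝ) : Blk f :=
  ⟨Matrix.diagonal fun r => ((d r : ℝ) : ℂ), fun r s h => Matrix.diagonal_apply_ne _ (by
    intro e
    exact h (by rw [e]))⟩

theorem dg_mul (f : RR at_ τ → β) (d d' : RR at_ τ → ℝ) :
    dg f d * dg f d' = dg f (fun r => d r * d' r) := by
  apply Subtype.ext
  change Matrix.diagonal _ * Matrix.diagonal _ = Matrix.diagonal _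
  rw [Matrix.diagonal_mul_diagonal]
  congr 1
  funext r
  push_cast
  rfl

theorem dg_star (f : RR at_ τ → β) (d : RR at_ τ → ℝ) : star (dg f d) = dg f d := by
  apply Subtype.ext
  ext r s
  change star ((Matrix.diagonal fun r => ((d r : ℝ) : ℂ)) s r) =
    (Matrix.diagonal fun r => ((d r : ℝ) : ℂ)) r s
  by_cases h : r = s
  · subst h
    rw [Matrix.diagonal_apply_eq, star_re]
  · rw [Matrix.diagonal_apply_ne _ h, Matrix.diagonal_apply_ne _ (Ne.symm h), star_zero]

theorem dg_one (f : RR at_ τ → β) (d : RR at_ τ → ℝ) (h : ∀ r, d r = 1) : dg f d = 1 := by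
  apply Subtype.ext
  change Matrix.diagonal _ = 1
  rw [← Matrix.diagonal_one]
  congr 1
  funext r
  rw [h r, Complex.ofReal_one]

theorem dg_unit (f : RR at_ τ → β) (d : RR at_ τ → ℝ) (h : ∀ r, d r ≠ 0) : IsUnit (dg f d) :=
  ⟨⟨dg f d, dg f fun r => (d r)⁻¹, by
    rw [dg_mul]
    exact dg_one _ _ fun r => mul_inv_cancel₀ (h r), by
    rw [dg_mul]
    exact dg_one _ _ fun r => inv_mul_cancel₀ (h r)⟩, rfl⟩

theorem x0_pd : x0 at_ τ bl ∈ PD (Blk (bR bl : RR at_ τ → β)) := by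
  have hp : ∀ r : RR at_ τ, 0 < Nb at_ τ bl (bR bl r) / Mc at_ τ bl (tR r) := fun r =>
    div_pos (Nb_pos r) (Mc_pos r)
  refine ⟨dg _ fun r => Real.sqrt (Nb at_ τ bl (bR bl r) / Mc at_ τ bl (tR r)),
    dg_unit _ _ fun r => (Real.sqrt_pos.2 (hp r)).ne', ?_⟩
  rw [dg_star, dg_mul]
  apply Subtype.ext
  ext r s
  rw [x0_apply]
  change _ = (Matrix.diagonal _) r s
  by_cases h : r = s
  · subst h
    rw [if_pos rfl, Matrix.diagonal_apply_eq]
    simp only
    rw [Real.mul_self_sqrt (hp r).le]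
  · rw [if_neg h, Matrix.diagonal_apply_ne _ h]

section abs

variable {A B : Type} [CStarAlgebra A] [CStarAlgebra B] [FiniteDimensional ℂ A]
  [FiniteDimensional ℂ B] [MeasurableSpace A] [BorelSpace A] [MeasurableSpace B] [BorelSpace B]

theorem K1_pos (D : CE A B) (x : Hs B) (hx : x ∈ PD B) (lam : Measure D.N)
    [lam.IsAddHaarMeasure] : lam (K1 D x) ≠ 0 := by
  obtain ⟨p, hp, hxp⟩ := hx
  have hc : Continuous fun z : D.N => cg (Ring.inverse p) (x + (z : Hs B)) := by
    have h := (Pool.Agent.L0h85.KQ.continuous_cg (B := B)).comp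
      (Continuous.prodMk (continuous_const (y := Ring.inverse p))
        (continuous_const.add continuous_subtype_val : Continuous fun z : D.N => x + (z : Hs B)))
    exact h
  have h0 : cg (Ring.inverse p) (x + ((0 : D.N) : Hs B)) = Pool.Agent.L0h85.KQ.one' := by
    have h1 : x = cg p Pool.Agent.L0h85.KQ.one' := by
      apply Subtype.ext
      rw [Pool.Agent.L0h85.KQ.cg_coe]
      change (x : B) = p * 1 * star p
      rw [mul_one]
      exact hxp
    rw [Submodule.coe_zero, add_zero, h1, Pool.Agent.L0h85.KQ.cg_inv hp]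
  have hop : IsOpen ((fun z : D.N => cg (Ring.inverse p) (x + (z : Hs B))) ⁻¹'
      Metric.ball (Pool.Agent.L0h85.KQ.one' : Hs B) 1) := Metric.isOpen_ball.preimage hc
  have hne := hop.measure_pos lam ⟨0, by
    rw [Set.mem_preimage, h0]
    exact Metric.mem_ball_self one_pos⟩
  refine (hne.trans_le (measure_mono ?_)).ne'
  intro z hz
  have h2 := Pool.Agent.L0h85.KQ.ball_pd hz
  have h3 := Pool.Agent.L0h85.KQ.cg_pd hp h2
  have h4 : cg p (cg (Ring.inverse p) (x + (z : Hs B))) = x + (z : Hs B) := by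
    rw [← Pool.Agent.L0h85.KQ.cg_mul, Ring.mul_inverse_cancel _ hp, Pool.Agent.L0h85.KQ.cg_one]
  rw [h4] at h3
  exact h3

end abs

/-- entries are bounded -/
theorem pd_entry {X : Hs (Blk (bR bl : RR at_ τ → β))} (hX : X ∈ PD (Blk (bR bl : RR at_ τ → β)))
    (h1 : (DD hcov bl).e (X : Blk (bR bl : RR at_ τ → β)) = 1) (r s : RR at_ τ) :
    ‖(X : Blk (bR bl : RR at_ τ → β)).1 r s‖ ≤ 1 := by
  obtain ⟨p, -, hXp⟩ := hX
  have hv : (X : Blk (bR bl : RR at_ τ → β)).1 = p.1 * star p.1 := by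
    rw [hXp]
    rfl
  have hrow : ∀ t : RR at_ τ, ∑ k, ‖p.1 t k‖ ^ 2 ≤ 1 := by
    intro t
    have h2 : eM (p.1 * star p.1) t.1.2 t.1.2 = 1 := by
      have h3 : eM (X : Blk (bR bl : RR at_ τ → β)).1 = 1 := congrArg Subtype.val h1
      rw [← hv, h3, Matrix.one_apply_eq]
    rw [eM_diag] at h2
    have h4 : ∑ c : C, ∑ k, (if h : τ c = at_ t.1.2 then
        ‖p.1 (⟨(c, t.1.2), h⟩ : RR at_ τ) k‖ ^ 2 else 0) = 1 := by
      exact_mod_cast h2
    rw [← h4]
    have h5 : ∑ k, ‖p.1 t k‖ ^ 2 = ∑ k, (if h : τ t.1.1 = at_ t.1.2 then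
        ‖p.1 (⟨(t.1.1, t.1.2), h⟩ : RR at_ τ) k‖ ^ 2 else 0) := by
      refine Finset.sum_congr rfl fun k _ => ?_
      rw [dif_pos t.2]
    rw [h5]
    exact Finset.single_le_sum (f := fun c : C => ∑ k, (if h : τ c = at_ t.1.2 then
        ‖p.1 (⟨(c, t.1.2), h⟩ : RR at_ τ) k‖ ^ 2 else 0))
      (fun c _ => Finset.sum_nonneg fun k _ => by split_ifs <;> positivity) (Finset.mem_univ _)
  rw [hv, Matrix.mul_apply]
  calc ‖∑ k, p.1 r k * (star p.1 : Matrix _ _ ℂ) k s‖
      ≤ ∑ k, ‖p.1 r k * (star p.1 : Matrix _ _ ℂ) k s‖ := norm_sum_le _ _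
    _ ≤ ∑ k, (1 / 2 * ‖p.1 r k‖ ^ 2 + 1 / 2 * ‖p.1 s k‖ ^ 2) := by
        refine Finset.sum_le_sum fun k _ => ?_
        rw [norm_mul, Matrix.star_apply, norm_star]
        nlinarith [sq_nonneg (‖p.1 r k‖ - ‖p.1 s k‖)]
    _ = 1 / 2 * ∑ k, ‖p.1 r k‖ ^ 2 + 1 / 2 * ∑ k, ‖p.1 s k‖ ^ 2 := by
        rw [Finset.sum_add_distrib, Finset.mul_sum, Finset.mul_sum]
    _ ≤ 1 := by linarith [hrow r, hrow s]

/-- the entries of the elements of the kernel -/
noncomputable def entN (hcov : Cov at_ τ) (bl : C → β) :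
    (DD hcov bl).N →ₗ[ℝ] (RR at_ τ × RR at_ τ → ℂ) where
  toFun z := fun q => ((z : Hs (Blk (bR bl : RR at_ τ → β))) : Blk (bR bl : RR at_ τ → β)).1 q.1 q.2
  map_add' _ _ := rfl
  map_smul' _ _ := rfl

theorem entN_inj : Function.Injective (entN hcov bl) := by
  intro z z' h
  apply Subtype.ext
  apply Subtype.ext
  apply Subtype.ext
  ext r s
  exact congrFun h (r, s)

theorem K1_fin (lam : Measure (DD hcov bl).N) [lam.IsAddHaarMeasure] :
    lam (K1 (DD hcov bl) (x0 at_ τ bl)) ≠ ⊤ := by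
  have : FiniteDimensional ℝ (Blk (bR bl : RR at_ τ → β)) := FiniteDimensional.complexToReal _
  have he := (LinearMap.isClosedEmbedding_of_injective
    (LinearMap.ker_eq_bot.2 (entN_inj hcov (bl := bl))))
  have hc : IsCompact ((entN hcov bl) ⁻¹' Metric.closedBall 0 2) :=
    he.isCompact_preimage (isCompact_closedBall _ _)
  refine ((measure_mono ?_).trans_lt hc.measure_lt_top).ne
  intro z hz
  rw [Set.mem_preimage, mem_closedBall_zero_iff]
  refine (pi_norm_le_iff_of_nonneg zero_le_two).2 fun q => ?_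
  have hz' : x0 at_ τ bl + (z : Hs (Blk (bR bl : RR at_ τ → β))) ∈ PD _ := hz
  have h1 : (DD hcov bl).e ((x0 at_ τ bl + (z : Hs (Blk (bR bl : RR at_ τ → β))) : Hs _) :
      Blk (bR bl : RR at_ τ → β)) = 1 := by
    change (DD hcov bl).e ((x0 at_ τ bl : Blk (bR bl : RR at_ τ → β)) + _) = 1
    rw [map_add, es_x0]
    have h2 : (DD hcov bl).es (z : Hs (Blk (bR bl : RR at_ τ → β))) = 0 := z.2
    have h3 : (DD hcov bl).e ((z : Hs (Blk (bR bl : RR at_ τ → β))) : Blk (bR bl : RR at_ τ → β)) = 0 :=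
      congrArg Subtype.val h2
    rw [h3, add_zero]
  have h4 := pd_entry hcov hz' h1 q.1 q.2
  have h5 := pd_entry hcov (x0_pd (at_ := at_) (τ := τ) (bl := bl)) (es_x0 hcov) q.1 q.2
  have h6 : entN hcov bl z q = ((x0 at_ τ bl + (z : Hs (Blk (bR bl : RR at_ τ → β))) : Hs _) :
      Blk (bR bl : RR at_ τ → β)).1 q.1 q.2 - (x0 at_ τ bl : Blk (bR bl : RR at_ τ → β)).1 q.1 q.2 := by
    change entN hcov bl z q = ((x0 at_ τ bl : Blk (bR bl : RR at_ τ → β)).1 q.1 q.2 +
      entN hcov bl z q) - (x0 at_ τ bl : Blk (bR bl : RR at_ τ → β)).1 q.1 q.2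
    rw [add_sub_cancel_left]
  rw [h6]
  exact (norm_sub_le _ _).trans (by linarith)

/-- the density -/
noncomputable def Fd (at_ : J → α) (n : ℕ) (s : Hs (Blk at_)) : ℝ≥0∞ :=
  ENNReal.ofReal (Real.exp (-∑ j, ((s : Blk at_).1 j j).re) / Real.pi ^ n)

theorem measurable_Fd (n : ℕ) : Measurable (Fd at_ n) := by
  unfold Fd
  refine ENNReal.measurable_ofReal.comp (Measurable.div_const (Real.measurable_exp.comp ?_) _)
  refine Measurable.neg (Finset.measurable_sum _ fun j _ => ?_)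
  exact Complex.measurable_re.comp ((continuous_ent at_ j j).measurable.comp measurable_subtype_coe)

theorem Fd_SS (g : ZZ at_ τ bl → ℂ) : Fd at_ (Fintype.card (ZZ at_ τ bl)) (SS hcov g) =
    ENNReal.ofReal (Real.exp (-∑ z, ‖g z‖ ^ 2) / Real.pi ^ Fintype.card (ZZ at_ τ bl)) := by
  unfold Fd
  rw [SS_coe, ← norm_gext at_ (tP (at_ := at_) (τ := τ) (bl := bl)) g, norm_gram]
  rfl

/-- the normalised point -/
noncomputable def zf (g : ZZ at_ τ bl → ℂ) : (DD hcov bl).N :=
  prL hcov bl (nrm (DD hcov bl) (gram (GB g)))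

theorem measurable_zf : Measurable (zf hcov : (ZZ at_ τ bl → ℂ) → (DD hcov bl).N) := by
  have : FiniteDimensional ℝ (Blk (bR bl : RR at_ τ → β)) := FiniteDimensional.complexToReal _
  have hc : Continuous (prL hcov bl) := LinearMap.continuous_of_finiteDimensional _
  exact hc.measurable.comp ((measurable_nrm _).comp
    (Pool.Agent.L0h85.KQ.continuous_gram.comp continuous_GB).measurable)

theorem law_gau (lam : Measure (DD hcov bl).N) [lam.IsAddHaarMeasure]
    (Φ : Hs (Blk at_) × (DD hcov bl).N → ℝ≥0∞) (hΦ : Measurable Φ) :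
    ∫⁻ g, Φ (SS hcov g, zf hcov g) ∂(gau (ZZ at_ τ bl)) =
      ∫⁻ g, (∫⁻ z, Φ (SS hcov g, z) ∂(uK (DD hcov bl) (x0 at_ τ bl) lam)) ∂(gau (ZZ at_ τ bl)) := by
  have : FiniteDimensional ℝ (Blk (bR bl : RR at_ τ → β)) := FiniteDimensional.complexToReal _
  have hH := isAddHaar_GB (at_ := at_) (τ := τ) (bl := bl)
  have h := law_abs (DD hcov bl) (prL hcov bl) (x0 at_ τ bl) (prL_ker hcov) x0_pd (es_x0 hcov)
    (prL_x0 hcov) ((volume : Measure (ZZ at_ τ bl → ℂ)).map GB) lam
    (K1_pos _ _ x0_pd lam) (K1_fin hcov lam) (Fd at_ (Fintype.card (ZZ at_ τ bl))) (measurable_Fd _)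
    Φ hΦ
  have hgm : Measurable (gram : Blk (bR bl : RR at_ τ → β) → Hs _) :=
    Pool.Agent.L0h85.KQ.continuous_gram.measurable
  have hem : Measurable (DD hcov bl).es := (continuous_es _).measurable
  have hpm : Measurable (prL hcov bl) := (LinearMap.continuous_of_finiteDimensional _).measurable
  have hint : Measurable fun s : Hs (Blk at_) =>
      ∫⁻ z, Φ (s, z) ∂(uK (DD hcov bl) (x0 at_ τ bl) lam) := by
    have : SFinite (uK (DD hcov bl) (x0 at_ τ bl) lam) := by
      unfold uK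
      infer_instance
    exact Measurable.lintegral_prod_right' hΦ
  rw [lintegral_map ?_ continuous_GB.measurable, lintegral_map ?_ continuous_GB.measurable] at h
  · have e : ∀ Ψ : (ZZ at_ τ bl → ℂ) → ℝ≥0∞, Measurable Ψ → ∫⁻ g, Ψ g ∂(gau (ZZ at_ τ bl)) =
        ∫⁻ g, Ψ g * Fd at_ (Fintype.card (ZZ at_ τ bl)) (SS hcov g) := by
      intro Ψ hΨ
      unfold gau
      rw [lintegral_withDensity_eq_lintegral_mul]
      · refine lintegral_congr fun g => ?_
        rw [Pi.mul_apply, Fd_SS, mul_comm]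
      · have : (fun g : ZZ at_ τ bl → ℂ =>
            ENNReal.ofReal (Real.exp (-∑ z, ‖g z‖ ^ 2) / Real.pi ^ Fintype.card (ZZ at_ τ bl))) =
            fun g => Fd at_ (Fintype.card (ZZ at_ τ bl)) (SS hcov g) := by
          funext g
          rw [Fd_SS]
        rw [this]
        exact (measurable_Fd _).comp (measurable_SS hcov)
      · exact hΨ
    exact (e (fun g => Φ (SS hcov g, zf hcov g))
      (hΦ.comp ((measurable_SS hcov).prodMk (measurable_zf hcov)))).trans (h.trans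
      (e (fun g => ∫⁻ z, Φ (SS hcov g, z) ∂(uK (DD hcov bl) (x0 at_ τ bl) lam))
        (hint.comp (measurable_SS hcov))).symm)
  · exact (hint.comp (hem.comp hgm)).mul ((measurable_Fd _).comp (hem.comp hgm))
  · exact (hΦ.comp ((hem.comp hgm).prodMk (hpm.comp ((measurable_nrm _).comp hgm)))).mul
      ((measurable_Fd _).comp (hem.comp hgm))

instance uK_prob (lam : Measure (DD hcov bl).N) [lam.IsAddHaarMeasure] :
    IsProbabilityMeasure (uK (DD hcov bl) (x0 at_ τ bl) lam) := ⟨by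
  unfold uK
  rw [Measure.smul_apply, Measure.restrict_apply_univ, smul_eq_mul]
  exact ENNReal.inv_mul_cancel (K1_pos _ _ x0_pd lam) (K1_fin hcov lam)⟩

/-- the law of the normalised point -/
theorem map_zf (lam : Measure (DD hcov bl).N) [lam.IsAddHaarMeasure] :
    (gau (ZZ at_ τ bl)).map (zf hcov) = uK (DD hcov bl) (x0 at_ τ bl) lam := by
  ext s hs
  have h := law_gau hcov lam (fun q => s.indicator 1 q.2)
    ((measurable_one.indicator hs).comp measurable_snd)
  simp only at h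
  rw [lintegral_const, measure_univ, mul_one, lintegral_indicator_one hs] at h
  rw [← h, Measure.map_apply (measurable_zf hcov) hs]
  have e : (fun g : ZZ at_ τ bl → ℂ => s.indicator (1 : (DD hcov bl).N → ℝ≥0∞) (zf hcov g)) =
      (zf hcov ⁻¹' s).indicator 1 := by
    funext g
    by_cases hg : zf hcov g ∈ s
    · rw [Set.indicator_of_mem hg, Set.indicator_of_mem (show g ∈ zf hcov ⁻¹' s from hg)]
      rfl
    · rw [Set.indicator_of_notMem hg, Set.indicator_of_notMem (show g ∉ zf hcov ⁻¹' s from hg)]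
  rw [e, lintegral_indicator_one (measurable_zf hcov hs)]

/-- the normalised element, almost surely -/
theorem zf_eq {g : ZZ at_ τ bl → ℂ} (hg : IsUnit (GB g : Blk (bR bl : RR at_ τ → β))) :
    x0 at_ τ bl + (zf hcov g : Hs (Blk (bR bl : RR at_ τ → β))) =
      nrm (DD hcov bl) (gram (GB g)) := by
  have hpd := gram_pd hg
  unfold zf
  rw [prL_coe]
  have h1 : (DD hcov bl).es (nrm (DD hcov bl) (gram (GB g))) = ⟨1, star_one _⟩ :=
    Subtype.ext (es_nrm _ hpd)
  rw [h1]
  unfold x0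
  rw [add_sub_cancel]

end Pool.Agent.L0h31.KQ
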