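import Pool.Agent.L0h31.KQ.Ce

/-!
# The law of the normalised Gram element
-/

set_option autoImplicit false
set_option linter.unusedSectionVars false

namespace Pool.Agent.L0h31.KQ

open MeasureTheory
open scoped ENNReal InnerProductSpace ComplexOrder

section sqrt

variable {A : Type} [CStarAlgebra A]

/-- the square root -/
noncomputable def sqA (s : A) : A :=
  letI := CStarAlgebra.spectralOrder A
  letI := CStarAlgebra.spectralOrderedRing A
  CFC.sqrt s

theorem sqA_sa (s : A) : star (sqA s) = sqA s := by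
  let _ := CStarAlgebra.spectralOrder A
  let _ := CStarAlgebra.spectralOrderedRing A
  exact (CFC.sqrt_nonneg s).isSelfAdjoint

theorem sqA_sum (s : A) : ∃ b : A, sqA s = star b * b := by
  let _ := CStarAlgebra.spectralOrder A
  let _ := CStarAlgebra.spectralOrderedRing A
  exact CStarAlgebra.nonneg_iff_eq_star_mul_self.1 (CFC.sqrt_nonneg s)

theorem sqA_mul {s : Hs A} (hs : s ∈ PD A) : sqA (s : A) * sqA (s : A) = s := by
  let _ := CStarAlgebra.spectralOrder A
  let _ := CStarAlgebra.spectralOrderedRing A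
  obtain ⟨q, hq, hw⟩ := hs
  have h0 : (0 : A) ≤ s := by
    rw [hw]
    exact mul_star_self_nonneg q
  exact CFC.sqrt_mul_sqrt_self _ h0

theorem sqA_unit {s : Hs A} (hs : s ∈ PD A) : IsUnit (sqA (s : A)) := by
  let _ := CStarAlgebra.spectralOrder A
  let _ := CStarAlgebra.spectralOrderedRing A
  obtain ⟨q, hq, hw⟩ := hs
  have h0 : (0 : A) ≤ s := by
    rw [hw]
    exact mul_star_self_nonneg q
  refine (CFC.isUnit_sqrt_iff _ h0).2 ?_
  rw [hw]
  exact hq.mul hq.star

/-- the inverse square root -/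
noncomputable def tA (s : Hs A) : A := Ring.inverse (sqA (s : A))

theorem tA_spec {s : Hs A} (hs : s ∈ PD A) : IsUnit (tA s) ∧ tA s * s * star (tA s) = 1 := by
  have h1 := sqA_unit hs
  have h2 : sqA (s : A) * tA s = 1 := Ring.mul_inverse_cancel _ h1
  have h3 : tA s * sqA (s : A) = 1 := Ring.inverse_mul_cancel _ h1
  have h4 : star (tA s) = tA s := by
    have h5 : sqA (s : A) * star (tA s) = 1 := by
      have := congrArg star h3
      rwa [star_mul, star_one, sqA_sa] at this
    calc star (tA s) = (tA s * sqA (s : A)) * star (tA s) := by rw [h3, one_mul]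
      _ = tA s := by rw [mul_assoc, h5, mul_one]
  refine ⟨⟨⟨tA s, sqA (s : A), h3, h2⟩, rfl⟩, ?_⟩
  have h5 := sqA_mul hs
  rw [h4]
  conv_lhs => rw [← h5]
  rw [← mul_assoc, h3, one_mul, h2]

theorem tA_sq {s : Hs A} (hs : s ∈ PD A) : sqA (s : A) * tA s = 1 :=
  Ring.mul_inverse_cancel _ (sqA_unit hs)

variable [MeasurableSpace A] [BorelSpace A]

theorem measurable_sqA : Measurable (sqA : A → A) := by
  classical
  let _ := CStarAlgebra.spectralOrder A
  let _ := CStarAlgebra.spectralOrderedRing A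
  have h : (sqA : A → A) = Set.piecewise {x : A | 0 ≤ x} (sqA : A → A) (fun _ => 0) := by
    funext x
    by_cases hx : (0 : A) ≤ x
    · rw [Set.piecewise_eq_of_mem _ _ _ (show x ∈ {x : A | 0 ≤ x} from hx)]
    · rw [Set.piecewise_eq_of_notMem _ _ _ (show x ∉ {x : A | 0 ≤ x} from hx)]
      exact CFC.sqrt_of_not_nonneg hx
  rw [h]
  refine ContinuousOn.measurable_piecewise ?_ continuousOn_const
    (CStarAlgebra.isClosed_nonneg (A := A)).measurableSet
  exact CFC.continuousOn_sqrt

theorem measurable_tA : Measurable (tA : Hs A → A) :=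
  Pool.Agent.L0h85.KQ.measurable_inv'.comp (measurable_sqA.comp measurable_subtype_coe)

end sqrt

section law

variable {A B : Type} [CStarAlgebra A] [CStarAlgebra B] [FiniteDimensional ℂ A]
  [FiniteDimensional ℂ B] [MeasurableSpace A] [BorelSpace A] [MeasurableSpace B] [BorelSpace B]

/-- the normalised body -/
def K1 (D : CE A B) (x0 : Hs B) : Set D.N := {z : D.N | x0 + (z : Hs B) ∈ PD B}

/-- the uniform measure -/
noncomputable def uK (D : CE A B) (x0 : Hs B) (lam : Measure D.N) : Measure D.N :=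
  (lam (K1 D x0))⁻¹ • lam.restrict (K1 D x0)

theorem es_pd (D : CE A B) {w : Hs B} (hw : w ∈ PD B) : D.es w ∈ PD A := by
  obtain ⟨p, hp, hw⟩ := hw
  obtain ⟨a, ha, h⟩ := D.pos p hp
  refine ⟨a, ha, ?_⟩
  change D.e (w : B) = a * star a
  rw [hw, h]

theorem gram_pd {x : B} (hx : IsUnit x) : gram x ∈ PD B := ⟨x, hx, rfl⟩

theorem continuous_es (D : CE A B) : Continuous D.es := by
  have : FiniteDimensional ℝ B := FiniteDimensional.complexToReal B
  exact LinearMap.continuous_of_finiteDimensional D.es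

/-- the normalised element -/
noncomputable def nrm (D : CE A B) (w : Hs B) : Hs B := cg (D.i (tA (D.es w))) w

theorem measurable_nrm (D : CE A B) : Measurable (nrm D) := by
  have : FiniteDimensional ℝ B := FiniteDimensional.complexToReal B
  have h1 : Measurable fun w : Hs B => (D.i (tA (D.es w)), w) := by
    refine Measurable.prodMk ?_ measurable_id
    have hi : Continuous D.i := by
      have : Continuous (D.i.toAlgHom.toLinearMap : A →ₗ[ℂ] B) :=
        LinearMap.continuous_of_finiteDimensional _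
      exact this
    exact hi.measurable.comp (measurable_tA.comp (continuous_es D).measurable)
  exact Pool.Agent.L0h85.KQ.continuous_cg.measurable.comp h1

theorem es_nrm (D : CE A B) {w : Hs B} (hw : w ∈ PD B) : D.e (nrm D w : B) = 1 := by
  have h := (tA_spec (es_pd D hw)).2
  change D.e (D.i (tA (D.es w)) * w * star (D.i (tA (D.es w)))) = 1
  rw [← map_star, D.bim]
  exact h

variable (D : CE A B) (pr : Hs B →ₗ[ℝ] D.N) (x0 : Hs B)

theorem law_abs (hpr : ∀ z : D.N, pr z = z) (hx0 : x0 ∈ PD B) (hx1 : D.e x0 = 1)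
    (hx2 : pr x0 = 0) (μ : Measure B) [μ.IsAddHaarMeasure] (lam : Measure D.N)
    [lam.IsAddHaarMeasure] (hK0 : lam (K1 D x0) ≠ 0) (hK1 : lam (K1 D x0) ≠ ⊤)
    (F : Hs A → ℝ≥0∞) (hF : Measurable F) (Φ : Hs A × D.N → ℝ≥0∞) (hΦ : Measurable Φ) :
    ∫⁻ x, Φ (D.es (gram x), pr (nrm D (gram x))) * F (D.es (gram x)) ∂μ =
      ∫⁻ x, (∫⁻ z, Φ (D.es (gram x), z) ∂(uK D x0 lam)) * F (D.es (gram x)) ∂μ := by
  have : FiniteDimensional ℝ A := FiniteDimensional.complexToReal A
  have : FiniteDimensional ℝ B := FiniteDimensional.complexToReal B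
  set ν : Measure (Hs B) := Measure.addHaar with hν
  set νA : Measure (Hs A) := Measure.addHaar with hνA
  have hPD : MeasurableSet (PD B) := Pool.Agent.L0h85.KQ.t_PD B
  obtain ⟨c, -, -, hG⟩ := Pool.Agent.L0h85.KQ.t_GRAM B μ ν
  have hprc : Continuous pr := LinearMap.continuous_of_finiteDimensional pr
  have hy : ∀ w ∈ PD B, ((pr (nrm D w) : Hs B) : B) =
      D.i (tA (D.es w)) * w * star (D.i (tA (D.es w))) - x0 := by
    intro w hw
    have h1 : D.es (nrm D w - x0) = 0 := by
      apply Subtype.ext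
      change D.e ((nrm D w : B) - x0) = 0
      rw [map_sub, es_nrm D hw, hx1, sub_self]
    have h2 := hpr ⟨nrm D w - x0, h1⟩
    have h3 : pr (nrm D w - x0) = pr (nrm D w) := by rw [map_sub, hx2, sub_zero]
    change pr (nrm D w - x0) = _ at h2
    rw [h3] at h2
    rw [h2]
    rfl
  obtain ⟨ρ, hρ, hR⟩ := Pool.Agent.L0h38.KQF.fib Pool.Agent.L0h85.KQ.t_PD A B D x0 hx0 hx1 tA
    measurable_tA (fun s hs => tA_spec hs) ν lam νA (fun w => pr (nrm D w)) hy
    (hprc.measurable.comp (measurable_nrm D))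
  have hint : Measurable fun s : Hs A => ∫⁻ z, Φ (s, z) ∂(uK D x0 lam) := by
    have : SFinite (uK D x0 lam) := by
      unfold uK
      infer_instance
    exact Measurable.lintegral_prod_right' hΦ
  have hesm : Measurable D.es := (continuous_es D).measurable
  -- both sides
  have key : ∀ Ψ : Hs A × D.N → ℝ≥0∞, Measurable Ψ →
      ∫⁻ x, Ψ (D.es (gram x), pr (nrm D (gram x))) ∂μ =
      c * ∫⁻ s, ρ s * ∫⁻ z in K1 D x0, Ψ (s, z) ∂lam ∂νA := by
    intro Ψ hΨ
    have h1 : ∫⁻ x, Ψ (D.es (gram x), pr (nrm D (gram x))) ∂μ =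
        ∫⁻ x, (PD B).indicator (fun w => Ψ (D.es w, pr (nrm D w))) (gram x) ∂μ := by
      refine lintegral_congr_ae ?_
      filter_upwards [Pool.Agent.L0h85.KQ.t_UNIT B μ] with x hx
      rw [Set.indicator_of_mem (gram_pd hx)]
    have hm : Measurable fun w : Hs B => Ψ (D.es w, pr (nrm D w)) :=
      hΨ.comp (hesm.prodMk (hprc.measurable.comp (measurable_nrm D)))
    rw [h1, hG _ hm, hR Ψ hΨ]
    rfl
  have e1 := key (fun q => Φ q * F q.1) (hΦ.mul (hF.comp measurable_fst))
  have e2 := key (fun q => (∫⁻ z, Φ (q.1, z) ∂(uK D x0 lam)) * F q.1)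
    ((hint.comp measurable_fst).mul (hF.comp measurable_fst))
  refine e1.trans (Eq.trans ?_ e2.symm)
  congr 1
  refine lintegral_congr fun s => ?_
  congr 1
  simp only
  rw [lintegral_const, Measure.restrict_apply_univ]
  have h3 : ∫⁻ z in K1 D x0, Φ (s, z) * F s ∂lam = (∫⁻ z in K1 D x0, Φ (s, z) ∂lam) * F s :=
    lintegral_mul_const _ (hΦ.comp (measurable_const.prodMk measurable_id))
  rw [h3]
  unfold uK
  rw [lintegral_smul_measure, smul_eq_mul]
  calc (∫⁻ z in K1 D x0, Φ (s, z) ∂lam) * F s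
      = ((lam (K1 D x0))⁻¹ * lam (K1 D x0)) * ((∫⁻ z in K1 D x0, Φ (s, z) ∂lam) * F s) := by
        rw [ENNReal.inv_mul_cancel hK0 hK1, one_mul]
    _ = _ := by ring

end law

end Pool.Agent.L0h31.KQ
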