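import Pool.Agent.L0h31.KQ.Ez3

/-!
# Linear functionals on the selfadjoint elements
-/

set_option autoImplicit false
set_option linter.unusedSectionVars false

namespace Pool.Agent.L0h31.KQ

open MeasureTheory
open scoped ENNReal InnerProductSpace ComplexOrder

variable {J C α β : Type} [Fintype J] [DecidableEq J] [Fintype C] [DecidableEq C] [Fintype α]
  [DecidableEq α] [DecidableEq β] {at_ : J → α} {τ : C → α} {bl : C → β}

/-- the trace form -/
noncomputable def trF (Y X : Matrix (RR at_ τ) (RR at_ τ) ℂ) : ℝ := (∑ r, ∑ s, Y r s * X s r).re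

/-- the trace form on the selfadjoint elements -/
noncomputable def trL (at_ : J → α) (τ : C → α) (bl : C → β) :
    Hs (Blk (bR bl : RR at_ τ → β)) →ₗ[ℝ] Module.Dual ℝ (Hs (Blk (bR bl : RR at_ τ → β))) :=
  LinearMap.mk₂ ℝ (fun Y X => trF (Y : Blk (bR bl : RR at_ τ → β)).1 (X : Blk (bR bl : RR at_ τ → β)).1)
    (by
      intro Y Y' X
      change trF ((Y : Blk (bR bl : RR at_ τ → β)).1 + (Y' : Blk (bR bl : RR at_ τ → β)).1) _ = _
      unfold trF
      rw [← Complex.add_re, ← Finset.sum_add_distrib]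
      congr 1
      refine Finset.sum_congr rfl fun r _ => ?_
      rw [← Finset.sum_add_distrib]
      exact Finset.sum_congr rfl fun s _ => by rw [Matrix.add_apply, add_mul])
    (by
      intro c Y X
      change trF (c • (Y : Blk (bR bl : RR at_ τ → β)).1) _ = c • trF _ _
      unfold trF
      have e : ∑ r, ∑ s, (c • (Y : Blk (bR bl : RR at_ τ → β)).1) r s *
          (X : Blk (bR bl : RR at_ τ → β)).1 s r = (c : ℂ) * ∑ r, ∑ s,
          (Y : Blk (bR bl : RR at_ τ → β)).1 r s * (X : Blk (bR bl : RR at_ τ → β)).1 s r := by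
        simp_rw [Finset.mul_sum]
        refine Finset.sum_congr rfl fun r _ => Finset.sum_congr rfl fun s _ => ?_
        rw [Matrix.smul_apply, Complex.real_smul, mul_assoc]
      rw [e, Complex.re_ofReal_mul, smul_eq_mul])
    (by
      intro Y X X'
      change trF _ ((X : Blk (bR bl : RR at_ τ → β)).1 + (X' : Blk (bR bl : RR at_ τ → β)).1) = _
      unfold trF
      rw [← Complex.add_re, ← Finset.sum_add_distrib]
      congr 1
      refine Finset.sum_congr rfl fun r _ => ?_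
      rw [← Finset.sum_add_distrib]
      exact Finset.sum_congr rfl fun s _ => by rw [Matrix.add_apply, mul_add])
    (by
      intro c Y X
      change trF _ (c • (X : Blk (bR bl : RR at_ τ → β)).1) = c • trF _ _
      unfold trF
      have e : ∑ r, ∑ s, (Y : Blk (bR bl : RR at_ τ → β)).1 r s *
          (c • (X : Blk (bR bl : RR at_ τ → β)).1) s r = (c : ℂ) * ∑ r, ∑ s,
          (Y : Blk (bR bl : RR at_ τ → β)).1 r s * (X : Blk (bR bl : RR at_ τ → β)).1 s r := by
        simp_rw [Finset.mul_sum]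
        refine Finset.sum_congr rfl fun r _ => Finset.sum_congr rfl fun s _ => ?_
        rw [Matrix.smul_apply, Complex.real_smul, mul_left_comm]
      rw [e, Complex.re_ofReal_mul, smul_eq_mul])

theorem trL_apply (Y X : Hs (Blk (bR bl : RR at_ τ → β))) : trL at_ τ bl Y X =
    trF (Y : Blk (bR bl : RR at_ τ → β)).1 (X : Blk (bR bl : RR at_ τ → β)).1 := rfl

theorem Hs_star {f : RR at_ τ → β} (Y : Hs (Blk f)) (r s : RR at_ τ) :
    star ((Y : Blk f).1 s r) = (Y : Blk f).1 r s := by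
  have h : star (Y : Blk f) = Y := Y.2
  have h1 : star (Y : Blk f).1 = (Y : Blk f).1 := congrArg Subtype.val h
  exact congrFun (congrFun h1 r) s

theorem trF_self {Y : Hs (Blk (bR bl : RR at_ τ → β))}
    (h : trF (Y : Blk (bR bl : RR at_ τ → β)).1 (Y : Blk (bR bl : RR at_ τ → β)).1 = 0) : Y = 0 := by
  have e : trF (Y : Blk (bR bl : RR at_ τ → β)).1 (Y : Blk (bR bl : RR at_ τ → β)).1 =
      ∑ r, ∑ s, ‖(Y : Blk (bR bl : RR at_ τ → β)).1 r s‖ ^ 2 := by
    unfold trF
    rw [Complex.re_sum]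
    refine Finset.sum_congr rfl fun r _ => ?_
    rw [Complex.re_sum]
    refine Finset.sum_congr rfl fun s _ => ?_
    rw [← Hs_star Y s r, mul_star_re]
  rw [e] at h
  apply Subtype.ext
  apply Subtype.ext
  ext r s
  have h1 := (Finset.sum_eq_zero_iff_of_nonneg (fun r _ => Finset.sum_nonneg fun s _ =>
    sq_nonneg _)).1 h r (Finset.mem_univ _)
  have h2 := (Finset.sum_eq_zero_iff_of_nonneg (fun s _ => sq_nonneg _)).1 h1 s (Finset.mem_univ _)
  exact norm_eq_zero.1 (pow_eq_zero_iff two_ne_zero |>.1 h2)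

theorem trL_surj : Function.Surjective (trL at_ τ bl) := by
  have : FiniteDimensional ℝ (Blk (bR bl : RR at_ τ → β)) := FiniteDimensional.complexToReal _
  have hinj : Function.Injective (trL at_ τ bl) := by
    rw [← LinearMap.ker_eq_bot, LinearMap.ker_eq_bot']
    intro Y hY
    have h1 := LinearMap.congr_fun hY Y
    exact trF_self h1
  exact (LinearMap.injective_iff_surjective_of_finrank_eq_finrank
    (Subspace.dual_finrank_eq (K := ℝ) (V := Hs (Blk (bR bl : RR at_ τ → β)))).symm).1 hinj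

/-- the weighted partial trace -/
noncomputable def Wt (at_ : J → α) (τ : C → α) (bl : C → β) (Y : Matrix (RR at_ τ) (RR at_ τ) ℂ) :
    Matrix J J ℂ := fun j j' => ∑ c : C, if h : τ c = at_ j ∧ τ c = at_ j' then
      (Nb at_ τ bl (bl c) : ℂ) * Y ⟨(c, j), h.1⟩ ⟨(c, j'), h.2⟩ else 0

theorem Wt_mem (Y : Matrix (RR at_ τ) (RR at_ τ) ℂ) : Wt at_ τ bl Y ∈ Blk at_ := by
  intro j j' h
  refine Finset.sum_eq_zero fun c _ => ?_
  rw [dif_neg]
  rintro ⟨h1, h2⟩
  exact h (h1.symm.trans h2)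

theorem Wt_star (Y : Hs (Blk (bR bl : RR at_ τ → β))) (j j' : J) :
    star (Wt at_ τ bl (Y : Blk (bR bl : RR at_ τ → β)).1 j' j) =
      Wt at_ τ bl (Y : Blk (bR bl : RR at_ τ → β)).1 j j' := by
  unfold Wt
  rw [star_sum]
  refine Finset.sum_congr rfl fun c _ => ?_
  by_cases h : τ c = at_ j ∧ τ c = at_ j'
  · rw [dif_pos h, dif_pos h.symm, star_mul, star_re, Hs_star, mul_comm]
  · rw [dif_neg h, dif_neg fun h' => h h'.symm, star_zero]

theorem tr_sM (Y : Matrix (RR at_ τ) (RR at_ τ) ℂ) (S : Matrix J J ℂ) :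
    trF Y (sM at_ τ bl S) =
      (∑ j, ∑ j', (((Mc at_ τ bl (at_ j))⁻¹ : ℝ) : ℂ) * (Wt at_ τ bl Y j j' * S j' j)).re := by
  unfold trF
  congr 1
  rw [sumRR]
  have e0 : ∀ (c : C) (j : J), (if h : τ c = at_ j then
      ∑ s, Y ⟨(c, j), h⟩ s * sM at_ τ bl S s ⟨(c, j), h⟩ else 0) =
      ∑ j', (((Mc at_ τ bl (at_ j))⁻¹ : ℝ) : ℂ) * ((if h : τ c = at_ j ∧ τ c = at_ j' then
      (Nb at_ τ bl (bl c) : ℂ) * Y ⟨(c, j), h.1⟩ ⟨(c, j'), h.2⟩ else 0) * S j' j) := by
    intro c j
    by_cases h : τ c = at_ j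
    · rw [dif_pos h, sumRR_k c (fun s => Y ⟨(c, j), h⟩ s * sM at_ τ bl S s ⟨(c, j), h⟩) (fun s hs => by
        unfold sM iM
        rw [if_neg (show ¬ s.1.1 = (⟨(c, j), h⟩ : RR at_ τ).1.1 from hs), mul_zero, mul_zero])]
      refine Finset.sum_congr rfl fun j' _ => ?_
      by_cases h' : τ c = at_ j'
      · rw [dif_pos h', dif_pos ⟨h, h'⟩]
        unfold sM iM
        rw [if_pos rfl]
        unfold bR tR
        simp only
        have hM : Mc at_ τ bl (τ c) = Mc at_ τ bl (at_ j) := by rw [h]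
        rw [hM, div_eq_mul_inv, Complex.ofReal_mul]
        ring
      · rw [dif_neg h', dif_neg fun h2 => h' h2.2, zero_mul, mul_zero]
    · rw [dif_neg h]
      symm
      refine Finset.sum_eq_zero fun j' _ => ?_
      rw [dif_neg fun h2 => h h2.1, zero_mul, mul_zero]
  simp_rw [e0]
  rw [Finset.sum_comm]
  refine Finset.sum_congr rfl fun j _ => ?_
  rw [Finset.sum_comm]
  refine Finset.sum_congr rfl fun j' _ => ?_
  rw [← Finset.mul_sum, ← Finset.sum_mul]
  rfl

theorem Mc_pos' (hcov : Cov at_ τ) (j : J) : 0 < Mc at_ τ bl (at_ j) := by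
  obtain ⟨c, hc⟩ := hcov j
  have h := Mc_pos (bl := bl) (⟨(c, j), hc⟩ : RR at_ τ)
  unfold tR at h
  rwa [hc] at h

/-- functionals which vanish on the section are given by normalised matrices -/
theorem exists_Nrm (hcov : Cov at_ τ) (l : Hs (Blk (bR bl : RR at_ τ → β)) →ₗ[ℝ] ℝ)
    (hl : ∀ S, l (sH at_ τ bl S) = 0) : ∃ Y : Matrix (RR at_ τ) (RR at_ τ) ℂ, Nrm bl Y ∧
    ∀ X : Hs (Blk (bR bl : RR at_ τ → β)), l X = trF Y (X : Blk (bR bl : RR at_ τ → β)).1 := by
  obtain ⟨Y, hY⟩ := trL_surj (at_ := at_) (τ := τ) (bl := bl) l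
  refine ⟨(Y : Blk (bR bl : RR at_ τ → β)).1, ⟨?_, ?_, ?_⟩, fun X => ?_⟩
  · ext r s
    exact Hs_star Y r s
  · exact (Y : Blk (bR bl : RR at_ τ → β)).2
  · set W := Wt at_ τ bl (Y : Blk (bR bl : RR at_ τ → β)).1 with hW
    have h1 := hl ⟨⟨W, Wt_mem _⟩, Subtype.ext (Matrix.ext fun j j' => Wt_star Y j j')⟩
    rw [← hY, trL_apply, sH_coe, tr_sM] at h1
    have e : (∑ j, ∑ j', (((Mc at_ τ bl (at_ j))⁻¹ : ℝ) : ℂ) * (W j j' * W j' j)).re =
        ∑ j, ∑ j', (Mc at_ τ bl (at_ j))⁻¹ * ‖W j j'‖ ^ 2 := by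
      rw [Complex.re_sum]
      refine Finset.sum_congr rfl fun j _ => ?_
      rw [Complex.re_sum]
      refine Finset.sum_congr rfl fun j' _ => ?_
      rw [Complex.re_ofReal_mul, ← mul_star_re]
      congr 3
      exact (Wt_star Y j' j).symm
    have h2 : ∑ j, ∑ j', (Mc at_ τ bl (at_ j))⁻¹ * ‖W j j'‖ ^ 2 = 0 := by
      rw [← e]
      exact h1
    intro j j'
    have hp := Mc_pos' (bl := bl) hcov j
    have h3 := (Finset.sum_eq_zero_iff_of_nonneg (fun j _ => Finset.sum_nonneg fun j' _ => by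
      have := Mc_pos' (bl := bl) hcov j
      positivity)).1 h2 j (Finset.mem_univ _)
    have h4 := (Finset.sum_eq_zero_iff_of_nonneg (fun j' _ => by positivity)).1 h3 j'
      (Finset.mem_univ _)
    have h5 : ‖W j j'‖ ^ 2 = 0 := by
      rcases mul_eq_zero.1 h4 with h6 | h6
      · exact absurd h6 (inv_pos.2 hp).ne'
      · exact h6
    exact norm_eq_zero.1 (pow_eq_zero_iff two_ne_zero |>.1 h5)
  · rw [← hY, trL_apply]

theorem prL_sH (hcov : Cov at_ τ) (S : Hs (Blk at_)) : prL hcov bl (sH at_ τ bl S) = 0 := by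
  apply Subtype.ext
  rw [prL_coe, es_sH, sub_self]
  rfl

/-- linear maps in terms of the quadratic forms -/
theorem exists_Y (hcov : Cov at_ τ) {k : ℕ} (L : (DD hcov bl).N →ₗ[ℝ] EuclideanSpace ℝ (Fin k)) :
    ∃ Y : Fin k → Matrix (RR at_ τ) (RR at_ τ) ℂ, (∀ i, Nrm bl (Y i)) ∧
    ∀ x : XX J (PP at_ τ bl), yv (fun i => AY (Y i)) x = L (prL hcov bl (XH x)) := by
  have h : ∀ i : Fin k, ∃ Y : Matrix (RR at_ τ) (RR at_ τ) ℂ, Nrm bl Y ∧
      ∀ X : Hs (Blk (bR bl : RR at_ τ → β)), (L (prL hcov bl X)) i =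
        trF Y (X : Blk (bR bl : RR at_ τ → β)).1 := by
    intro i
    let l : Hs (Blk (bR bl : RR at_ τ → β)) →ₗ[ℝ] ℝ :=
      { toFun := fun X => (L (prL hcov bl X)) i
        map_add' := fun X X' => by
          rw [map_add, map_add]
          rfl
        map_smul' := fun c X => by
          rw [map_smul, map_smul]
          rfl }
    exact exists_Nrm hcov l fun S => by
      change (L (prL hcov bl (sH at_ τ bl S))) i = 0
      rw [prL_sH, map_zero]
      rfl
  choose Y hY1 hY2 using h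
  refine ⟨Y, hY1, fun x => ?_⟩
  ext i
  rw [hY2 i (XH x), XH_coe]
  exact qf_AY (Y i) x

end Pool.Agent.L0h31.KQ
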