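import Pool.Agent.L0h31.KQ.Defs

/-!
# The infinitesimal action of the unitary groups on polynomials
-/

set_option autoImplicit false
set_option linter.unusedSectionVars false

namespace Pool.Agent.L0h31.KQ

open MeasureTheory MvPolynomial
open scoped ENNReal InnerProductSpace

variable {J P α : Type} [Fintype J] [DecidableEq J] [Fintype P] [DecidableEq P] [DecidableEq α]

theorem TT_vv (p q : P) (j : J) (r : P) : TT p q (vv j r) = if q = r then vv j p else 0 := by
  unfold TT
  conv_lhs => rw [vv, mkDerivation_X]
  rfl

theorem TT_vb (p q : P) (j : J) (r : P) : TT p q (vb j r) = -(if p = r then vb j q else 0) := by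
  unfold TT
  conv_lhs => rw [vb, mkDerivation_X]
  rfl

theorem TT_comm (p q r s : P) (f : Pol J P) : TT p q (TT r s f) - TT r s (TT p q f) =
    (if q = r then TT p s f else 0) - (if p = s then TT r q f else 0) := by
  have h : ⁅(TT p q : Derivation ℂ (Pol J P) (Pol J P)),
      (TT r s : Derivation ℂ (Pol J P) (Pol J P))⁆ =
      (if q = r then TT p s else 0) - (if p = s then TT r q else 0) := by
    refine derivation_ext fun i => ?_
    rw [Derivation.commutator_apply, Derivation.sub_apply]
    have e1 : (if q = r then TT p s else 0 : Derivation ℂ (Pol J P) (Pol J P)) (X i) =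
        if q = r then TT p s (X i) else 0 := by
      split_ifs <;> rfl
    have e2 : (if p = s then TT r q else 0 : Derivation ℂ (Pol J P) (Pol J P)) (X i) =
        if p = s then TT r q (X i) else 0 := by
      split_ifs <;> rfl
    rw [e1, e2]
    rcases i with ⟨j, t⟩ | ⟨j, t⟩
    · change TT p q (TT r s (vv j t)) - TT r s (TT p q (vv j t)) =
        (if q = r then TT p s (vv j t) else 0) - (if p = s then TT r q (vv j t) else 0)
      simp only [TT_vv, apply_ite (TT p q : Derivation ℂ (Pol J P) (Pol J P)),
        apply_ite (TT r s : Derivation ℂ (Pol J P) (Pol J P)), map_zero]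
      by_cases h1 : s = t <;> by_cases h2 : q = t <;> by_cases h3 : q = r <;>
        by_cases h4 : p = s <;> simp_all [eq_comm]
    · change TT p q (TT r s (vb j t)) - TT r s (TT p q (vb j t)) =
        (if q = r then TT p s (vb j t) else 0) - (if p = s then TT r q (vb j t) else 0)
      simp only [TT_vb, map_neg, apply_ite (TT p q : Derivation ℂ (Pol J P) (Pol J P)),
        apply_ite (TT r s : Derivation ℂ (Pol J P) (Pol J P)), map_zero]
      by_cases h1 : r = t <;> by_cases h2 : p = t <;> by_cases h3 : q = r <;>
        by_cases h4 : p = s <;> simp_all [eq_comm]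
  have h2 := congrArg (fun D : Derivation ℂ (Pol J P) (Pol J P) => D f) h
  simp only [Derivation.commutator_apply, Derivation.sub_apply] at h2
  rw [h2]
  congr 1 <;> split_ifs <;> rfl

theorem pderiv_deg {ι : Type*} (j : ι) (f : MvPolynomial ι ℂ) :
    pderiv j f = 0 ∨ (pderiv j f).totalDegree + 1 ≤ f.totalDegree := by
  classical
  by_cases h : pderiv j f = 0
  · exact Or.inl h
  · refine Or.inr ?_
    obtain ⟨m, hm⟩ : ∃ m, m ∈ (pderiv j f).support ∧
        (pderiv j f).totalDegree = m.sum fun _ e => e := by
      have hne : (pderiv j f).support.Nonempty := by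
        rwa [Finset.nonempty_iff_ne_empty, ne_eq, MvPolynomial.support_eq_empty]
      obtain ⟨m, hm, he⟩ := Finset.exists_mem_eq_sup _ hne (fun s : ι →₀ ℕ => s.sum fun _ e => e)
      exact ⟨m, hm, he⟩
    have h1 : m + Finsupp.single j 1 ∈ f.support := by
      have := hm.1
      rw [mem_support_iff, coeff_pderiv] at this
      rw [mem_support_iff]
      exact left_ne_zero_of_mul this
    have h2 := le_totalDegree h1
    rw [Finsupp.sum_add_index' (fun _ => rfl) (fun _ _ _ => rfl), Finsupp.sum_single_index rfl] at h2
    rw [hm.2]
    exact h2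

theorem der_sum {ι R A : Type*} [CommRing R] [CommRing A] [Algebra R A] (t : Finset ι)
    (D : ι → Derivation R A A) (p : A) : (∑ j ∈ t, D j) p = ∑ j ∈ t, D j p := by
  classical
  induction t using Finset.induction_on with
  | empty => simp
  | insert a s ha ih => rw [Finset.sum_insert ha, Finset.sum_insert ha, Derivation.add_apply, ih]

theorem TT_eq (p q : P) (f : Pol J P) : TT p q f =
    ∑ j : J, (vv j p * pderiv (Sum.inl (j, q)) f - vb j q * pderiv (Sum.inr (j, p)) f) := by
  have h : (TT p q : Derivation ℂ (Pol J P) (Pol J P)) =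
      ∑ j : J, ((vv j p : Pol J P) • (pderiv (Sum.inl (j, q)) : Derivation ℂ (Pol J P) (Pol J P)) -
        (vb j q : Pol J P) • (pderiv (Sum.inr (j, p)) : Derivation ℂ (Pol J P) (Pol J P))) := by
    refine derivation_ext fun i => ?_
    rw [der_sum]
    rcases i with ⟨j, t⟩ | ⟨j, t⟩
    · change TT p q (vv j t) = _
      rw [TT_vv, Finset.sum_eq_single j]
      · simp only [Derivation.sub_apply, Derivation.smul_apply, pderiv_X, smul_eq_mul]
        by_cases h : q = t
        · subst h
          simp
        · have : ¬ t = q := fun e => h e.symm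
          simp [h, this]
      · intro k _ hk
        simp only [Derivation.sub_apply, Derivation.smul_apply, pderiv_X, smul_eq_mul]
        have : ¬ j = k := fun e => hk e.symm
        simp [this]
      · intro h
        exact absurd (Finset.mem_univ _) h
    · change TT p q (vb j t) = _
      rw [TT_vb, Finset.sum_eq_single j]
      · simp only [Derivation.sub_apply, Derivation.smul_apply, pderiv_X, smul_eq_mul]
        by_cases h : p = t
        · subst h
          simp
        · have : ¬ t = p := fun e => h e.symm
          simp [h, this]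
      · intro k _ hk
        simp only [Derivation.sub_apply, Derivation.smul_apply, pderiv_X, smul_eq_mul]
        have : ¬ j = k := fun e => hk e.symm
        simp [this]
      · intro h
        exact absurd (Finset.mem_univ _) h
  have h2 := congrArg (fun D : Derivation ℂ (Pol J P) (Pol J P) => D f) h
  simp only [der_sum] at h2
  rw [h2]
  rfl

theorem TT_deg (p q : P) (f : Pol J P) : (TT p q f).totalDegree ≤ f.totalDegree := by
  have key : ∀ i k : (J × P) ⊕ (J × P), (X i * pderiv k f).totalDegree ≤ f.totalDegree := by
    intro i k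
    rcases pderiv_deg k f with h | h
    · rw [h, mul_zero, totalDegree_zero]; exact Nat.zero_le _
    · refine (totalDegree_mul _ _).trans ?_
      rw [totalDegree_X]
      omega
  rw [TT_eq]
  refine (totalDegree_finsetSum _ _).trans ?_
  refine Finset.sup_le fun j _ => ?_
  refine (totalDegree_sub _ _).trans ?_
  exact max_le (key _ _) (key _ _)

/-- the weight of a monomial -/
def wgt (s : (J × P) ⊕ (J × P) →₀ ℕ) (p : P) : ℤ :=
  ∑ j : J, ((s (Sum.inl (j, p)) : ℤ) - s (Sum.inr (j, p)))

theorem TT_monomial (p : P) (s : (J × P) ⊕ (J × P) →₀ ℕ) (c : ℂ) :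
    TT p p (monomial s c : Pol J P) = ((wgt s p : ℤ) : ℂ) • (monomial s c : Pol J P) := by
  have key : ∀ i : (J × P) ⊕ (J × P), (X i : Pol J P) * pderiv i (monomial s c) =
      (s i : ℂ) • (monomial s c : Pol J P) := by
    intro i
    rw [pderiv_monomial, X, monomial_mul, one_mul]
    by_cases h : s i = 0
    · rw [h]
      simp
    · have : Finsupp.single i 1 + (s - Finsupp.single i 1) = s := by
        rw [add_tsub_cancel_of_le]
        rw [Finsupp.single_le_iff]
        omega
      rw [this, smul_monomial, smul_eq_mul, mul_comm]
  rw [TT_eq, wgt]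
  push_cast
  rw [Finset.sum_smul]
  refine Finset.sum_congr rfl fun j _ => ?_
  rw [sub_smul]
  congr 1
  · exact key (Sum.inl (j, p))
  · exact key (Sum.inr (j, p))

end Pool.Agent.L0h31.KQ
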