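import Pool.Agent.L0h31.KQ.Tc

/-!
# Random frames: integration by parts
-/

set_option autoImplicit false
set_option linter.unusedSectionVars false

namespace Pool.Agent.L0h31.KQ

open MeasureTheory MvPolynomial
open scoped ENNReal InnerProductSpace

variable {J P α : Type} [Fintype J] [DecidableEq J] [Fintype P] [DecidableEq P] [DecidableEq α]

/-- matrices -/
abbrev XX (J P : Type) : Type := J × P → ℂ

/-- evaluation of a polynomial in the entries and their conjugates -/
noncomputable def ev (f : Pol J P) (x : XX J P) : ℂ :=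
  MvPolynomial.eval (Sum.elim x fun z => star (x z)) f

/-- right multiplication by the unitary matrix `1 + (exp (iθ) - 1) w w*` -/
noncomputable def upd (w : P → ℂ) (θ : ℝ) (x : XX J P) : XX J P := fun z =>
  x z + (Complex.exp (θ * Complex.I) - 1) * (∑ q, x (z.1, q) * w q) * star (w z.2)

/-- frames -/
def St (at_ : J → α) (τ : P → α) : Set (XX J P) :=
  {x | (∀ j p, at_ j ≠ τ p → x (j, p) = 0) ∧
    ∀ j j', at_ j = at_ j' → ∑ p, x (j, p) * star (x (j', p)) = if j = j' then 1 else 0}

/-- unit vectors with one label -/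
structure UV (τ : P → α) (w : P → ℂ) : Prop where
  unit : ∑ p, w p * star (w p) = 1
  lab : ∃ a, ∀ p, w p ≠ 0 → τ p = a

/-- the law of a random frame -/
structure FL (at_ : J → α) (τ : P → α) (μ : Measure (XX J P)) : Prop where
  mem : ∀ᵐ x ∂μ, x ∈ St at_ τ
  inv : ∀ w, UV τ w → ∀ θ : ℝ, μ.map (upd w θ) = μ

theorem ev_add (f g : Pol J P) (x : XX J P) : ev (f + g) x = ev f x + ev g x := map_add _ _ _

theorem ev_sub (f g : Pol J P) (x : XX J P) : ev (f - g) x = ev f x - ev g x := map_sub _ _ _

theorem ev_mul (f g : Pol J P) (x : XX J P) : ev (f * g) x = ev f x * ev g x := map_mul _ _ _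

theorem ev_one (x : XX J P) : ev (1 : Pol J P) x = 1 := map_one _

theorem ev_zero (x : XX J P) : ev (0 : Pol J P) x = 0 := map_zero _

theorem ev_neg (f : Pol J P) (x : XX J P) : ev (-f) x = -ev f x := map_neg _ _

theorem ev_smul (c : ℂ) (f : Pol J P) (x : XX J P) : ev (c • f) x = c * ev f x := by
  unfold ev
  rw [smul_eval]

theorem ev_C (c : ℂ) (x : XX J P) : ev (C c : Pol J P) x = c := eval_C _

theorem ev_sum {ι : Type*} (s : Finset ι) (f : ι → Pol J P) (x : XX J P) :
    ev (∑ i ∈ s, f i) x = ∑ i ∈ s, ev (f i) x := map_sum _ _ _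

theorem ev_vv (j : J) (p : P) (x : XX J P) : ev (vv j p) x = x (j, p) := eval_X _

theorem ev_vb (j : J) (p : P) (x : XX J P) : ev (vb j p) x = star (x (j, p)) := eval_X _

theorem continuous_ev (f : Pol J P) : Continuous (ev f) := by
  unfold ev
  refine (MvPolynomial.continuous_eval f).comp ?_
  refine continuous_pi fun i => ?_
  rcases i with z | z
  · exact continuous_apply z
  · exact continuous_star.comp (continuous_apply z)

theorem continuous_upd (w : P → ℂ) (θ : ℝ) : Continuous (upd w θ : XX J P → XX J P) := by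
  unfold upd
  fun_prop

theorem upd_zero (w : P → ℂ) (x : XX J P) : upd w 0 x = x := by
  funext z
  simp [upd]

theorem St_closed (at_ : J → α) (τ : P → α) : IsClosed (St at_ τ) := by
  have h : St at_ τ = (⋂ j, ⋂ p, ⋂ (_ : at_ j ≠ τ p), {x : XX J P | x (j, p) = 0}) ∩
      ⋂ j, ⋂ j', ⋂ (_ : at_ j = at_ j'),
        {x : XX J P | ∑ p, x (j, p) * star (x (j', p)) = if j = j' then 1 else 0} := by
    ext x
    simp [St]
  rw [h]
  refine IsClosed.inter ?_ ?_
  · exact isClosed_iInter fun j => isClosed_iInter fun p => isClosed_iInter fun _ =>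
      isClosed_eq (continuous_apply _) continuous_const
  · refine isClosed_iInter fun j => isClosed_iInter fun j' => isClosed_iInter fun _ =>
      isClosed_eq ?_ continuous_const
    exact continuous_finsetSum _ fun p _ =>
      (continuous_apply _).mul (continuous_star.comp (continuous_apply _))

theorem mul_star_re (z : ℂ) : (z * star z).re = ‖z‖ ^ 2 := by
  have : z * star z = ((‖z‖ ^ 2 : ℝ) : ℂ) := by
    rw [Complex.star_def, Complex.mul_conj, Complex.normSq_eq_norm_sq]
  rw [this, Complex.ofReal_re]

theorem row_norm {at_ : J → α} {τ : P → α} {x : XX J P} (hx : x ∈ St at_ τ) (j : J) :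
    ∑ p, ‖x (j, p)‖ ^ 2 = 1 := by
  have h := congrArg Complex.re (hx.2 j j rfl)
  rw [if_pos rfl, Complex.re_sum, Complex.one_re] at h
  rw [← h]
  exact Finset.sum_congr rfl fun p _ => (mul_star_re _).symm

theorem St_bound {at_ : J → α} {τ : P → α} {x : XX J P} (hx : x ∈ St at_ τ) (z : J × P) :
    ‖x z‖ ≤ 1 := by
  have h1 := row_norm hx z.1
  have h2 : ‖x z‖ ^ 2 ≤ 1 := by
    rw [← h1]
    exact Finset.single_le_sum (f := fun p => ‖x (z.1, p)‖ ^ 2) (fun p _ => sq_nonneg _)
      (Finset.mem_univ z.2)
  exact (sq_le_one_iff₀ (norm_nonneg _)).1 h2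

theorem St_compact (at_ : J → α) (τ : P → α) : IsCompact (St at_ τ) := by
  refine Metric.isCompact_of_isClosed_isBounded (St_closed at_ τ) ?_
  rw [isBounded_iff_forall_norm_le]
  refine ⟨1, fun x hx => ?_⟩
  exact (pi_norm_le_iff_of_nonneg zero_le_one).2 fun z => St_bound hx z

theorem exp_norm (θ : ℝ) : (Complex.exp (θ * Complex.I)) * star (Complex.exp (θ * Complex.I)) = 1 := by
  rw [Complex.star_def, Complex.mul_conj, Complex.normSq_eq_norm_sq, Complex.norm_exp_ofReal_mul_I]
  norm_num

theorem upd_mem {at_ : J → α} {τ : P → α} {w : P → ℂ} (hw : UV τ w) (θ : ℝ) {x : XX J P}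
    (hx : x ∈ St at_ τ) : upd w θ x ∈ St at_ τ := by
  obtain ⟨a, ha⟩ := hw.lab
  refine ⟨fun j p hjp => ?_, fun j j' hjj => ?_⟩
  · unfold upd
    rw [hx.1 j p hjp, zero_add]
    by_cases hp : w p = 0
    · simp [hp]
    · have h1 := ha p hp
      have h2 : ∑ q, x (j, q) * w q = 0 := by
        refine Finset.sum_eq_zero fun q _ => ?_
        by_cases hq : w q = 0
        · rw [hq, mul_zero]
        · rw [hx.1 j q (by rw [ha q hq, ← h1]; exact hjp), zero_mul]
      simp only [h2, mul_zero, zero_mul]
  · set ζ := Complex.exp (θ * Complex.I) with hζ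
    set s := ∑ q, x (j, q) * w q with hs
    set s' := ∑ q, x (j', q) * w q with hs'
    have e1 : ∑ p, upd w θ x (j, p) * star (upd w θ x (j', p)) =
        ∑ p, (x (j, p) * star (x (j', p)) + (ζ - 1) * s * (star (w p) * star (x (j', p))) +
          star ((ζ - 1) * s') * (x (j, p) * w p) +
          (ζ - 1) * s * star ((ζ - 1) * s') * (w p * star (w p))) := by
      refine Finset.sum_congr rfl fun p _ => ?_
      unfold upd
      rw [star_add, star_mul (_ * _), star_star]
      ring
    have e2 : ∑ p, star (w p) * star (x (j', p)) = star s' := by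
      rw [hs', star_sum]
      exact Finset.sum_congr rfl fun p _ => by rw [star_mul]
    rw [e1, Finset.sum_add_distrib, Finset.sum_add_distrib, Finset.sum_add_distrib,
      ← Finset.mul_sum, ← Finset.mul_sum, ← Finset.mul_sum, hw.unit, hx.2 j j' hjj, e2, ← hs]
    have e3 : ζ * star ζ = 1 := exp_norm θ
    have e4 : star ((ζ - 1) * s') = (star ζ - 1) * star s' := by
      rw [star_mul, star_sub, star_one, mul_comm]
    rw [e4]
    linear_combination (s * star s') * e3

/-- the derivation of the one parameter group -/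
noncomputable def Dw (w : P → ℂ) (f : Pol J P) : Pol J P :=
  ∑ p, ∑ q, (Complex.I * w p * star (w q)) • TT p q f

theorem ev_Dw (w : P → ℂ) (f : Pol J P) (x : XX J P) :
    ev (Dw w f) x = ∑ p, ∑ q, Complex.I * w p * star (w q) * ev (TT p q f) x := by
  unfold Dw
  rw [ev_sum]
  refine Finset.sum_congr rfl fun p _ => ?_
  rw [ev_sum]
  exact Finset.sum_congr rfl fun q _ => ev_smul _ _ _

theorem upd_dot {w : P → ℂ} (hw : ∑ p, w p * star (w p) = 1) (θ : ℝ) (x : XX J P) (j : J) :
    ∑ p, upd w θ x (j, p) * w p = Complex.exp (θ * Complex.I) * ∑ q, x (j, q) * w q := by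
  set s := ∑ q, x (j, q) * w q with hs
  have e : ∀ p, upd w θ x (j, p) * w p = x (j, p) * w p +
      (Complex.exp (θ * Complex.I) - 1) * s * (w p * star (w p)) := by
    intro p
    unfold upd
    ring
  simp_rw [e]
  rw [Finset.sum_add_distrib, ← Finset.mul_sum, hw, ← hs]
  ring

theorem hasDerivAt_upd_entry {w : P → ℂ} (hw : ∑ p, w p * star (w p) = 1) (x : XX J P)
    (z : J × P) (θ : ℝ) : HasDerivAt (fun t : ℝ => upd w t x z)
      (Complex.I * (∑ p, upd w θ x (z.1, p) * w p) * star (w z.2)) θ := by
  have h1 : HasDerivAt (fun t : ℝ => Complex.exp (t * Complex.I))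
      (Complex.exp (θ * Complex.I) * Complex.I) θ := by
    have h2 : HasDerivAt (fun t : ℝ => (t : ℂ) * Complex.I) Complex.I θ := by
      simpa using (Complex.ofRealCLM.hasDerivAt (x := θ)).mul_const Complex.I
    exact h2.cexp
  have h3 := (((h1.sub_const 1).mul_const (∑ q, x (z.1, q) * w q)).mul_const
    (star (w z.2))).const_add (x z)
  refine HasDerivAt.congr_deriv (f := fun t : ℝ => upd w t x z) h3 ?_
  rw [upd_dot hw θ x z.1]
  ring

theorem hasDerivAt_ev {w : P → ℂ} (hw : ∑ p, w p * star (w p) = 1) (x : XX J P)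
    (f : Pol J P) (θ : ℝ) :
    HasDerivAt (fun t : ℝ => ev f (upd w t x)) (ev (Dw w f) (upd w θ x)) θ := by
  induction f using MvPolynomial.induction_on with
  | C a =>
    have : ev (Dw w (C a : Pol J P)) (upd w θ x) = 0 := by
      rw [ev_Dw]
      refine Finset.sum_eq_zero fun p _ => Finset.sum_eq_zero fun q _ => ?_
      rw [derivation_C, ev_zero, mul_zero]
    rw [this]
    simp only [ev_C]
    exact hasDerivAt_const _ _
  | add f g hf hg =>
    have : ev (Dw w (f + g)) (upd w θ x) = ev (Dw w f) (upd w θ x) + ev (Dw w g) (upd w θ x) := by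
      rw [ev_Dw, ev_Dw, ev_Dw, ← Finset.sum_add_distrib]
      refine Finset.sum_congr rfl fun p _ => ?_
      rw [← Finset.sum_add_distrib]
      refine Finset.sum_congr rfl fun q _ => ?_
      rw [map_add, ev_add]
      ring
    rw [this]
    simp only [ev_add]
    exact hf.add hg
  | mul_X f i hf =>
    have hX : HasDerivAt (fun t : ℝ => ev (X i : Pol J P) (upd w t x))
        (ev (Dw w (X i)) (upd w θ x)) θ := by
      rcases i with ⟨j, r⟩ | ⟨j, r⟩
      · change HasDerivAt (fun t : ℝ => ev (vv j r : Pol J P) (upd w t x))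
          (ev (Dw w (vv j r)) (upd w θ x)) θ
        simp only [ev_vv]
        have h1 := hasDerivAt_upd_entry hw x (j, r) θ
        convert h1 using 1
        rw [ev_Dw, Finset.mul_sum, Finset.sum_mul]
        refine Finset.sum_congr rfl fun p _ => ?_
        rw [Finset.sum_eq_single r]
        · rw [TT_vv, if_pos rfl, ev_vv]
          ring
        · intro q _ hq
          rw [TT_vv, if_neg hq, ev_zero, mul_zero]
        · intro h
          exact absurd (Finset.mem_univ _) h
      · change HasDerivAt (fun t : ℝ => ev (vb j r : Pol J P) (upd w t x))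
          (ev (Dw w (vb j r)) (upd w θ x)) θ
        simp only [ev_vb]
        refine (hasDerivAt_upd_entry hw x (j, r) θ).star.congr_deriv ?_
        symm
        rw [ev_Dw, Finset.sum_comm, star_mul, star_mul, star_star, star_sum, Finset.sum_mul,
          Finset.mul_sum]
        refine Finset.sum_congr rfl fun q _ => ?_
        rw [Finset.sum_eq_single r]
        · rw [TT_vb, if_pos rfl, ev_neg, ev_vb, star_mul]
          simp only [Complex.star_def, Complex.conj_I]
          ring
        · intro p _ hp
          rw [TT_vb, if_neg hp, neg_zero, ev_zero, mul_zero]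
        · intro h
          exact absurd (Finset.mem_univ _) h
    have : ev (Dw w (f * X i)) (upd w θ x) = ev (Dw w f) (upd w θ x) * ev (X i) (upd w θ x) +
        ev f (upd w θ x) * ev (Dw w (X i)) (upd w θ x) := by
      rw [ev_Dw, ev_Dw, ev_Dw, Finset.sum_mul, Finset.mul_sum, ← Finset.sum_add_distrib]
      refine Finset.sum_congr rfl fun p _ => ?_
      rw [Finset.sum_mul, Finset.mul_sum, ← Finset.sum_add_distrib]
      refine Finset.sum_congr rfl fun q _ => ?_
      rw [Derivation.leibniz, smul_eq_mul, smul_eq_mul, ev_add, ev_mul, ev_mul]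
      ring
    rw [this]
    simp only [ev_mul]
    exact hf.mul hX

end Pool.Agent.L0h31.KQ
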