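import Pool.Agent.L0h31.KQ.Tc2

/-!
# Random frames: symmetry of the operators, transitivity
-/

set_option autoImplicit false
set_option linter.unusedSectionVars false

namespace Pool.Agent.L0h31.KQ

open MeasureTheory MvPolynomial
open scoped ENNReal InnerProductSpace

variable {J P α : Type} [Fintype J] [DecidableEq J] [Fintype P] [DecidableEq P] [DecidableEq α]
  {at_ : J → α} {τ : P → α} {μ : Measure (XX J P)}

theorem FL.int [IsProbabilityMeasure μ] (h : FL at_ τ μ) {W : Type} [NormedAddCommGroup W]
    [SecondCountableTopology W] {F : XX J P → W} (hF : Continuous F) : Integrable F μ := by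
  obtain ⟨M, hM⟩ := (St_compact at_ τ).exists_bound_of_continuousOn hF.continuousOn
  refine Integrable.of_bound hF.aestronglyMeasurable M ?_
  filter_upwards [h.mem] with x hx
  exact hM x hx

/-- integration by parts along a one parameter group -/
theorem FL.ibp0 [IsProbabilityMeasure μ] (h : FL at_ τ μ) {w : P → ℂ} (hw : UV τ w)
    (f g : Pol J P) :
    ∫ x, (star (ev (Dw w f) x) * ev g x + star (ev f x) * ev (Dw w g) x) ∂μ = 0 := by
  set G : XX J P → ℂ := fun x => star (ev f x) * ev g x with hG
  set G' : XX J P → ℂ := fun x => star (ev (Dw w f) x) * ev g x + star (ev f x) * ev (Dw w g) x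
    with hG'
  have hGc : Continuous G := (continuous_star.comp (continuous_ev f)).mul (continuous_ev g)
  have hG'c : Continuous G' := ((continuous_star.comp (continuous_ev _)).mul (continuous_ev g)).add
    ((continuous_star.comp (continuous_ev f)).mul (continuous_ev _))
  obtain ⟨C, hC⟩ := (St_compact at_ τ).exists_bound_of_continuousOn hGc.continuousOn
  obtain ⟨C', hC'⟩ := (St_compact at_ τ).exists_bound_of_continuousOn hG'c.continuousOn
  have hder : ∀ (x : XX J P) (t : ℝ), HasDerivAt (fun t => G (upd w t x)) (G' (upd w t x)) t := by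
    intro x t
    exact (hasDerivAt_ev hw.unit x f t).star.mul (hasDerivAt_ev hw.unit x g t)
  have hderiv := hasDerivAt_integral_of_dominated_loc_of_deriv_le (μ := μ)
    (F := fun t x => G (upd w t x))
    (F' := fun t x => G' (upd w t x)) (x₀ := (0 : ℝ)) (s := Set.univ)
    (bound := fun _ => C') Filter.univ_mem
    (Filter.Eventually.of_forall fun t => (hGc.comp (continuous_upd w t)).aestronglyMeasurable)
    (Integrable.of_bound (hGc.comp (continuous_upd w 0)).aestronglyMeasurable C
      (h.mem.mono fun x hx => hC _ (upd_mem hw 0 hx)))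
    (hG'c.comp (continuous_upd w 0)).aestronglyMeasurable
    (h.mem.mono fun x hx t _ => hC' _ (upd_mem hw t hx))
    (integrable_const C')
    (Filter.Eventually.of_forall fun x t _ => hder x t)
  have hconst : (fun t => ∫ x, G (upd w t x) ∂μ) = fun _ => ∫ x, G x ∂μ := by
    funext t
    have h2 : ∫ x, G x ∂(μ.map (upd w t)) = ∫ x, G (upd w t x) ∂μ :=
      integral_map (continuous_upd w t).measurable.aemeasurable hGc.aestronglyMeasurable
    rw [← h2, h.inv w hw t]
  have h3 := hderiv.2
  rw [hconst] at h3
  have h4 := h3.unique (hasDerivAt_const (0 : ℝ) _)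
  simp only [upd_zero] at h4
  exact h4

theorem sum_two {ι : Type} [Fintype ι] [DecidableEq ι] {p q : ι} (hpq : p ≠ q) (a b : ℂ)
    (F : ι → ℂ) : ∑ r, (if r = p then a else if r = q then b else 0) * F r = a * F p + b * F q := by
  have e : ∀ r, (if r = p then a else if r = q then b else 0) * F r =
      (if r = p then a * F r else 0) + (if r = q then b * F r else 0) := by
    intro r
    by_cases h1 : r = p
    · have h2 : ¬ r = q := fun h => hpq (h1 ▸ h)
      rw [if_pos h1, if_pos h1, if_neg h2, add_zero]
    · rw [if_neg h1, if_neg h1, zero_add]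
      split_ifs
      · rfl
      · rw [zero_mul]
  simp_rw [e]
  rw [Finset.sum_add_distrib, Finset.sum_ite_eq', Finset.sum_ite_eq']
  simp

/-- polarization -/
theorem polar (τ : P → α) (c : P → P → ℂ)
    (h : ∀ w, UV τ w → ∑ p, ∑ q, w p * star (w q) * c p q = 0) {p q : P} (hpq : τ p = τ q) :
    c p q = 0 := by
  have hone : ∀ p, c p p = 0 := by
    intro p
    have hw : UV τ (fun r => if r = p then (1 : ℂ) else 0) := by
      refine ⟨?_, τ p, fun r hr => ?_⟩
      · rw [Finset.sum_eq_single p]
        · simp
        · intro r _ hr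
          simp [hr]
        · intro h
          exact absurd (Finset.mem_univ _) h
      · have : r = p := by
          by_contra h
          exact hr (if_neg h)
        rw [this]
    have h1 := h _ hw
    rw [Finset.sum_eq_single p, Finset.sum_eq_single p] at h1
    · simpa using h1
    · intro r _ hr
      simp [hr]
    · intro h
      exact absurd (Finset.mem_univ _) h
    · intro r _ hr
      simp [hr]
    · intro h
      exact absurd (Finset.mem_univ _) h
  by_cases hne : p = q
  · rw [hne]
    exact hone q
  have key : ∀ ζ : ℂ, ζ * star ζ = 1 → star ζ * c p q + ζ * c q p = 0 := by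
    intro ζ hζ
    set s : ℂ := (((Real.sqrt 2)⁻¹ : ℝ) : ℂ) with hs
    have hss : s * star s = 1 / 2 := by
      have : star s = s := by rw [hs, Complex.star_def, Complex.conj_ofReal]
      rw [this, hs, ← Complex.ofReal_mul, ← mul_inv, Real.mul_self_sqrt (by norm_num)]
      norm_num
    set w : P → ℂ := fun r => if r = p then s else if r = q then s * ζ else 0 with hw
    have hsw : ∀ r, star (w r) = if r = p then star s else if r = q then star (s * ζ) else 0 := by
      intro r
      change star (if r = p then s else if r = q then s * ζ else 0) = _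
      by_cases h1 : r = p
      · rw [if_pos h1, if_pos h1]
      · rw [if_neg h1, if_neg h1]
        by_cases h2 : r = q
        · rw [if_pos h2, if_pos h2]
        · rw [if_neg h2, if_neg h2, star_zero]
    have hU : UV τ w := by
      refine ⟨?_, τ p, fun r hr => ?_⟩
      · rw [hw, sum_two hne]
        have e1 := hsw p
        have e2 := hsw q
        rw [if_pos rfl] at e1
        rw [if_neg (Ne.symm hne), if_pos rfl] at e2
        rw [hw] at e1 e2
        rw [e1, e2, star_mul]
        linear_combination (1 + ζ * star ζ) * hss + (1 / 2) * hζ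
      · by_cases h1 : r = p
        · rw [h1]
        · by_cases h2 : r = q
          · rw [h2, hpq]
          · exact absurd (by rw [hw]; simp [h1, h2]) hr
    have h1 := h w hU
    have e : ∀ r, ∑ t, w r * star (w t) * c r t =
        w r * (star s * c r p + star (s * ζ) * c r q) := by
      intro r
      have : ∑ t, star (w t) * c r t = star s * c r p + star (s * ζ) * c r q := by
        simp_rw [hsw]
        exact sum_two hne _ _ _
      rw [← this, Finset.mul_sum]
      exact Finset.sum_congr rfl fun t _ => by ring
    simp_rw [e] at h1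
    rw [hw, sum_two hne, hone p, hone q, star_mul] at h1
    have h2 : (s * star s) * (star ζ * c p q + ζ * c q p) = 0 := by
      linear_combination h1
    rw [hss] at h2
    exact (mul_eq_zero.1 h2).resolve_left (by norm_num)
  have h1 := key 1 (by simp)
  have h2 := key Complex.I (by simp [Complex.conj_I])
  rw [star_one, one_mul, one_mul] at h1
  rw [Complex.star_def, Complex.conj_I] at h2
  have h3 : Complex.I * (c q p - c p q) = 0 := by linear_combination h2
  have h4 := (mul_eq_zero.1 h3).resolve_left Complex.I_ne_zero
  linear_combination (1 / 2) * h1 - (1 / 2) * h4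

/-- symmetry of the operators -/
theorem FL.ibp [IsProbabilityMeasure μ] (h : FL at_ τ μ) {p q : P} (hpq : τ p = τ q)
    (f g : Pol J P) :
    ∫ x, star (ev f x) * ev (TT p q g) x ∂μ = ∫ x, star (ev (TT q p f) x) * ev g x ∂μ := by
  have hc1 : ∀ (f g : Pol J P), Continuous fun x => star (ev f x) * ev g x := fun f g =>
    (continuous_star.comp (continuous_ev f)).mul (continuous_ev g)
  have h0 := polar τ (fun p q => ∫ x, star (ev f x) * ev (TT p q g) x ∂μ -
    ∫ x, star (ev (TT q p f) x) * ev g x ∂μ) (fun w hw => ?_) hpq
  · exact sub_eq_zero.1 h0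
  · have h1 := h.ibp0 hw f g
    have e : ∀ x : XX J P, star (ev (Dw w f) x) * ev g x + star (ev f x) * ev (Dw w g) x =
        ∑ p, ∑ q, Complex.I * w p * star (w q) * (star (ev f x) * ev (TT p q g) x -
          star (ev (TT q p f) x) * ev g x) := by
      intro x
      have e1 : star (ev (Dw w f) x) = ∑ p, ∑ q, -(Complex.I * w p * star (w q)) *
          star (ev (TT q p f) x) := by
        rw [ev_Dw, star_sum]
        simp_rw [star_sum]
        rw [Finset.sum_comm]
        refine Finset.sum_congr rfl fun a _ => Finset.sum_congr rfl fun b _ => ?_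
        rw [star_mul, star_mul, star_mul, star_star]
        simp only [Complex.star_def, Complex.conj_I]
        ring
      rw [e1, ev_Dw, Finset.sum_mul, Finset.mul_sum, ← Finset.sum_add_distrib]
      refine Finset.sum_congr rfl fun a _ => ?_
      rw [Finset.sum_mul, Finset.mul_sum, ← Finset.sum_add_distrib]
      refine Finset.sum_congr rfl fun b _ => ?_
      ring
    simp_rw [e] at h1
    have hi : ∀ a b, Integrable (fun x => Complex.I * w a * star (w b) *
        (star (ev f x) * ev (TT a b g) x - star (ev (TT b a f) x) * ev g x)) μ := fun a b =>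
      h.int (continuous_const.mul ((hc1 _ _).sub (hc1 _ _)))
    rw [integral_finsetSum _ fun a _ => integrable_finsetSum _ fun b _ => hi a b] at h1
    have h2 : ∀ a, ∫ x, ∑ b, Complex.I * w a * star (w b) * (star (ev f x) * ev (TT a b g) x -
        star (ev (TT b a f) x) * ev g x) ∂μ = Complex.I * ∑ b, w a * star (w b) *
        (∫ x, star (ev f x) * ev (TT a b g) x ∂μ - ∫ x, star (ev (TT b a f) x) * ev g x ∂μ) := by
      intro a
      rw [integral_finsetSum _ fun b _ => hi a b, Finset.mul_sum]
      refine Finset.sum_congr rfl fun b _ => ?_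
      rw [integral_const_mul, integral_sub (h.int (hc1 _ _)) (h.int (hc1 _ _))]
      ring
    simp_rw [h2] at h1
    rw [← Finset.mul_sum] at h1
    exact (mul_eq_zero.1 h1).resolve_left Complex.I_ne_zero

/-- the expectation -/
noncomputable def Ex (μ : Measure (XX J P)) (h : ∀ f : Pol J P, Integrable (ev f) μ) :
    Pol J P →ₗ[ℂ] ℂ where
  toFun f := ∫ x, ev f x ∂μ
  map_add' f g := by
    simp only [ev_add]
    exact integral_add (h f) (h g)
  map_smul' c f := by
    simp only [ev_smul, RingHom.id_apply, smul_eq_mul]
    exact integral_const_mul c _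

theorem FL.iev [IsProbabilityMeasure μ] (h : FL at_ τ μ) (f : Pol J P) : Integrable (ev f) μ :=
  h.int (continuous_ev f)

theorem FL.expect [IsProbabilityMeasure μ] (h : FL at_ τ μ) : Expect at_ τ (Ex μ h.iev) where
  one := by
    change ∫ x, ev 1 x ∂μ = 1
    simp [ev_one]
  inv p q hpq f := by
    change ∫ x, ev (TT p q f) x ∂μ = 0
    have h1 := h.ibp hpq 1 f
    have e1 : ∀ x : XX J P, star (ev (1 : Pol J P) x) * ev (TT p q f) x = ev (TT p q f) x := by
      intro x
      rw [ev_one, star_one, one_mul]
    have e2 : ∀ x : XX J P, star (ev (TT q p (1 : Pol J P)) x) * ev f x = 0 := by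
      intro x
      rw [Derivation.map_one_eq_zero, ev_zero, star_zero, zero_mul]
    simp_rw [e1, e2] at h1
    rw [h1, integral_zero]
  orth j j' f hj := by
    change ∫ x, ev ((∑ p, vv j p * vb j' p) * f) x ∂μ = if j = j' then ∫ x, ev f x ∂μ else 0
    have e : ∀ᵐ x ∂μ, ev ((∑ p, vv j p * vb j' p) * f) x = (if j = j' then 1 else 0) * ev f x := by
      filter_upwards [h.mem] with x hx
      rw [ev_mul, ev_sum, ← hx.2 j j' hj]
      congr 1
      exact Finset.sum_congr rfl fun p _ => by rw [ev_mul, ev_vv, ev_vb]
    rw [integral_congr_ae e, integral_const_mul]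
    split_ifs
    · rw [one_mul]
    · rw [zero_mul]
  mask j p f hj := by
    constructor
    · change ∫ x, ev (vv j p * f) x ∂μ = 0
      have e : ∀ᵐ x ∂μ, ev (vv j p * f) x = 0 := by
        filter_upwards [h.mem] with x hx
        rw [ev_mul, ev_vv, hx.1 j p hj, zero_mul]
      rw [integral_congr_ae e, integral_zero]
    · change ∫ x, ev (vb j p * f) x ∂μ = 0
      have e : ∀ᵐ x ∂μ, ev (vb j p * f) x = 0 := by
        filter_upwards [h.mem] with x hx
        rw [ev_mul, ev_vb, hx.1 j p hj, star_zero, zero_mul]
      rw [integral_congr_ae e, integral_zero]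

/-! ### transitivity -/

/-- one step -/
def Step (τ : P → α) (x y : XX J P) : Prop := ∃ w θ, UV τ w ∧ y = upd w θ x

/-- in the same orbit -/
def Rel (τ : P → α) : XX J P → XX J P → Prop := Relation.ReflTransGen (Step τ)

theorem rel_St {x y : XX J P} (hx : x ∈ St at_ τ) (h : Rel τ x y) : y ∈ St at_ τ := by
  induction h with
  | refl => exact hx
  | tail _ h1 ih =>
    obtain ⟨w, θ, hw, rfl⟩ := h1
    exact upd_mem hw θ ih

theorem St_trans {x y : XX J P} (hx : x ∈ St at_ τ) (hy : y ∈ St at_ τ) : Rel τ x y := by
  have key : ∀ s : Finset J, ∃ x', Rel τ x x' ∧ x' ∈ St at_ τ ∧ ∀ j ∈ s, ∀ p, x' (j, p) = y (j, p) := by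
    intro s
    induction s using Finset.induction_on with
    | empty => exact ⟨x, Relation.ReflTransGen.refl, hx, fun j hj => by simp at hj⟩
    | insert j0 s hj0 ih =>
      obtain ⟨x', hR, hS, hE⟩ := ih
      by_cases heq : ∀ p, x' (j0, p) = y (j0, p)
      · refine ⟨x', hR, hS, fun j hj p => ?_⟩
        rcases Finset.mem_insert.1 hj with h | h
        · rw [h]
          exact heq p
        · exact hE j h p
      push Not at heq
      obtain ⟨p0, hp0⟩ := heq
      set d : P → ℂ := fun p => x' (j0, p) - y (j0, p) with hd
      set N2 : ℝ := ∑ p, ‖d p‖ ^ 2 with hN2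
      have hN2p : 0 < N2 := by
        refine Finset.sum_pos' (fun p _ => sq_nonneg _) ⟨p0, Finset.mem_univ _, ?_⟩
        have : d p0 ≠ 0 := sub_ne_zero.2 hp0
        positivity
      set N : ℝ := Real.sqrt N2 with hN
      have hNp : 0 < N := Real.sqrt_pos.2 hN2p
      have hNN : (N : ℂ) * N = (N2 : ℂ) := by
        rw [← Complex.ofReal_mul, Real.mul_self_sqrt hN2p.le]
      have hNc : (N : ℂ) ≠ 0 := by exact_mod_cast hNp.ne'
      have hN2c : (N2 : ℂ) ≠ 0 := by exact_mod_cast hN2p.ne'
      set z : ℂ := ∑ q, x' (j0, q) * star (y (j0, q)) with hz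
      have hx1 := hS.2 j0 j0 rfl
      have hy1 := hy.2 j0 j0 rfl
      rw [if_pos rfl] at hx1 hy1
      have hzs : ∑ q, y (j0, q) * star (x' (j0, q)) = star z := by
        rw [hz, star_sum]
        exact Finset.sum_congr rfl fun q _ => by rw [star_mul, star_star]
      have hdd : ∑ p, d p * star (d p) = (N2 : ℂ) := by
        rw [hN2]
        push_cast
        refine Finset.sum_congr rfl fun p _ => ?_
        rw [Complex.star_def, Complex.mul_conj, Complex.normSq_eq_norm_sq]
        push_cast
        rfl
      have hN2z : (N2 : ℂ) = (1 - z) + (1 - star z) := by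
        rw [← hdd]
        have e : ∀ p, d p * star (d p) = x' (j0, p) * star (x' (j0, p)) -
            x' (j0, p) * star (y (j0, p)) - y (j0, p) * star (x' (j0, p)) +
            y (j0, p) * star (y (j0, p)) := by
          intro p
          rw [hd]
          simp only [star_sub]
          ring
        simp_rw [e]
        rw [Finset.sum_add_distrib, Finset.sum_sub_distrib, Finset.sum_sub_distrib, hx1, hy1, hzs]
        ring
      have hz1 : 1 - z ≠ 0 := by
        intro h0
        apply hN2c
        have h2 : 1 - star z = star (1 - z) := by rw [star_sub, star_one]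
        rw [hN2z, h2, h0, star_zero, add_zero]
      have hz1s : 1 - star z ≠ 0 := by
        have h2 : 1 - star z = star (1 - z) := by rw [star_sub, star_one]
        rw [h2]
        exact star_ne_zero.2 hz1
      set ζ : ℂ := -(1 - star z) / (1 - z) with hζ
      have hζn : ‖ζ‖ = 1 := by
        have h2 : 1 - star z = star (1 - z) := by rw [star_sub, star_one]
        rw [hζ, norm_div, norm_neg, h2, norm_star, div_self (norm_ne_zero_iff.2 hz1)]
      set θ : ℝ := Complex.arg ζ with hθ
      have hexp : Complex.exp (θ * Complex.I) = ζ := by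
        have := Complex.norm_mul_exp_arg_mul_I ζ
        rwa [hζn, Complex.ofReal_one, one_mul] at this
      have hζ1 : ζ - 1 = -(N2 : ℂ) / (1 - z) := by
        rw [hζ, hN2z]
        field_simp
        ring
      set w : P → ℂ := fun p => star (d p) / N with hw
      have hsw : ∀ p, star (w p) = d p / N := by
        intro p
        rw [hw]
        simp only [star_div₀, star_star]
        rw [Complex.star_def, Complex.conj_ofReal]
      have hU : UV τ w := by
        refine ⟨?_, at_ j0, fun p hp => ?_⟩
        · simp_rw [hsw]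
          rw [hw]
          have e : ∀ p, star (d p) / (N : ℂ) * (d p / N) = (d p * star (d p)) / N2 := by
            intro p
            rw [div_mul_div_comm, hNN, mul_comm]
          simp_rw [e]
          rw [← Finset.sum_div, hdd, div_self hN2c]
        · by_contra hne
          apply hp
          rw [hw]
          simp only [hd]
          rw [hS.1 j0 p (Ne.symm hne), hy.1 j0 p (Ne.symm hne)]
          simp
      have hdot : ∀ j, ∑ q, x' (j, q) * w q = (∑ q, x' (j, q) * star (x' (j0, q)) -
          ∑ q, x' (j, q) * star (y (j0, q))) / N := by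
        intro j
        rw [← Finset.sum_sub_distrib, Finset.sum_div]
        refine Finset.sum_congr rfl fun q _ => ?_
        rw [hw]
        simp only [hd, star_sub]
        ring
      refine ⟨upd w θ x', hR.tail ⟨w, θ, hU, rfl⟩, upd_mem hU θ hS, fun j hj p => ?_⟩
      unfold upd
      simp only
      rw [hexp, hdot, hsw, hζ1]
      rcases Finset.mem_insert.1 hj with h | h
      · rw [h, hx1, ← hz]
        have e : -(N2 : ℂ) / (1 - z) * ((1 - z) / N) * (d p / N) = -(d p) := by
          rw [← hNN]
          field_simp
        rw [e, hd]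
        ring
      · have hjne : j ≠ j0 := fun e => hj0 (e ▸ h)
        have h1 : ∑ q, x' (j, q) * star (x' (j0, q)) = 0 := by
          by_cases hl : at_ j = at_ j0
          · rw [hS.2 j j0 hl, if_neg hjne]
          · refine Finset.sum_eq_zero fun q _ => ?_
            by_cases h2 : at_ j = τ q
            · rw [hS.1 j0 q (fun e => hl (h2.trans e.symm)), star_zero, mul_zero]
            · rw [hS.1 j q h2, zero_mul]
        have h2 : ∑ q, x' (j, q) * star (y (j0, q)) = 0 := by
          have e : ∑ q, x' (j, q) * star (y (j0, q)) = ∑ q, y (j, q) * star (y (j0, q)) :=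
            Finset.sum_congr rfl fun q _ => by rw [hE j h q]
          rw [e]
          by_cases hl : at_ j = at_ j0
          · rw [hy.2 j j0 hl, if_neg hjne]
          · refine Finset.sum_eq_zero fun q _ => ?_
            by_cases h2 : at_ j = τ q
            · rw [hy.1 j0 q (fun e => hl (h2.trans e.symm)), star_zero, mul_zero]
            · rw [hy.1 j q h2, zero_mul]
        rw [h1, h2, hE j h p]
        simp
  obtain ⟨x', hR, -, hE⟩ := key Finset.univ
  have : x' = y := by
    funext z
    exact hE z.1 (Finset.mem_univ _) z.2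
  rwa [this] at hR

/-- the support is the set of all frames -/
theorem FL.pos [IsProbabilityMeasure μ] (h : FL at_ τ μ) {x : XX J P} (hx : x ∈ St at_ τ)
    {U : Set (XX J P)} (hU : IsOpen U) (hxU : x ∈ U) : μ U ≠ 0 := by
  have hex : ∃ x0 ∈ St at_ τ, ∀ U : Set (XX J P), IsOpen U → x0 ∈ U → μ U ≠ 0 := by
    by_contra hno
    push Not at hno
    have h0 : μ (St at_ τ) = 0 := by
      refine measure_null_of_locally_null _ fun x hx => ?_
      obtain ⟨U, hU, hxU, h0⟩ := hno x hx
      exact ⟨U, mem_nhdsWithin_of_mem_nhds (hU.mem_nhds hxU), h0⟩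
    have h1 : μ (St at_ τ)ᶜ = 0 := by
      have := h.mem
      rwa [ae_iff] at this
    have h2 : μ Set.univ = 0 := by
      rw [← Set.union_compl_self (St at_ τ)]
      exact measure_union_null h0 h1
    rw [measure_univ] at h2
    exact one_ne_zero h2
  obtain ⟨x0, hx0, hpos⟩ := hex
  have hrel := St_trans hx0 hx
  have key : ∀ y, Rel τ x0 y → ∀ U : Set (XX J P), IsOpen U → y ∈ U → μ U ≠ 0 := by
    intro y hy
    induction hy with
    | refl => exact hpos
    | tail _ h1 ih =>
      obtain ⟨w, θ, hw, rfl⟩ := h1
      intro U hU hyU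
      rw [← h.inv w hw θ, Measure.map_apply (continuous_upd w θ).measurable hU.measurableSet]
      exact ih _ (hU.preimage (continuous_upd w θ)) hyU
  exact key x hrel U hU hxU

/-- the kernel of the operators -/
theorem FL.ker [IsProbabilityMeasure μ] (h : FL at_ τ μ) {f : Pol J P}
    (hf : ∀ p q, τ p = τ q → ∀ᵐ x ∂μ, ev (TT p q f) x = 0) :
    ∃ c : ℂ, ∀ x ∈ St at_ τ, ev f x = c := by
  have h0 : ∀ p q, τ p = τ q → ∀ x ∈ St at_ τ, ev (TT p q f) x = 0 := by
    intro p q hpq x hx
    by_contra hne
    refine h.pos hx (U := {x | ev (TT p q f) x ≠ 0}) ?_ hne ?_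
    · exact isOpen_ne_fun (continuous_ev _) continuous_const
    · have := hf p q hpq
      rwa [ae_iff] at this
  have hstep : ∀ x ∈ St at_ τ, ∀ w θ, UV τ w → ev f (upd w θ x) = ev f x := by
    intro x hx w θ hw
    have hd : ∀ t : ℝ, HasDerivAt (fun t : ℝ => ev f (upd w t x)) 0 t := by
      intro t
      have h1 := hasDerivAt_ev hw.unit x f t
      have h2 : ev (Dw w f) (upd w t x) = 0 := by
        rw [ev_Dw]
        refine Finset.sum_eq_zero fun p _ => Finset.sum_eq_zero fun q _ => ?_
        obtain ⟨a, ha⟩ := hw.lab
        by_cases hp : w p = 0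
        · rw [hp]
          simp
        by_cases hq : w q = 0
        · rw [hq]
          simp
        rw [h0 p q ((ha p hp).trans (ha q hq).symm) _ (upd_mem hw t hx), mul_zero]
      rwa [h2] at h1
    have h3 := is_const_of_deriv_eq_zero (fun t => (hd t).differentiableAt)
      (fun t => (hd t).deriv) θ 0
    rw [h3, upd_zero]
  by_cases hne : (St at_ τ : Set (XX J P)).Nonempty
  · obtain ⟨x0, hx0⟩ := hne
    refine ⟨ev f x0, fun x hx => ?_⟩
    have hrel := St_trans hx0 hx
    have key : ∀ y, Rel τ x0 y → ev f y = ev f x0 := by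
      intro y hy
      induction hy with
      | refl => rfl
      | tail h1 h2 ih =>
        obtain ⟨w, θ, hw, rfl⟩ := h2
        rw [hstep _ (rel_St hx0 h1) w θ hw, ih]
    exact key x hrel
  · exact ⟨0, fun x hx => absurd ⟨x, hx⟩ hne⟩

end Pool.Agent.L0h31.KQ
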