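import Pool.Agent.L0h31.KQ.Tc3

/-!
# The Poincare inequality for polynomials on frames
-/

set_option autoImplicit false
set_option linter.unusedSectionVars false

namespace Pool.Agent.L0h31.KQ

open MeasureTheory MvPolynomial
open scoped ENNReal InnerProductSpace

variable {J P α : Type} [Fintype J] [DecidableEq J] [Fintype P] [DecidableEq P] [Fintype α]
  [DecidableEq α] {at_ : J → α} {τ : P → α} {μ : Measure (XX J P)}

theorem FL.memLp [IsProbabilityMeasure μ] (h : FL at_ τ μ) {F : XX J P → ℂ} (hF : Continuous F) :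
    MemLp F 2 μ := by
  obtain ⟨M, hM⟩ := (St_compact at_ τ).exists_bound_of_continuousOn hF.continuousOn
  refine MemLp.of_bound hF.aestronglyMeasurable M ?_
  filter_upwards [h.mem] with x hx
  exact hM x hx

/-- the map to `L²` -/
noncomputable def toL (μ : Measure (XX J P)) (h : ∀ f : Pol J P, MemLp (ev f) 2 μ) :
    Pol J P →ₗ[ℂ] Lp ℂ 2 μ where
  toFun f := (h f).toLp (ev f)
  map_add' f g := by
    have e : ev (f + g) = ev f + ev g := funext fun x => ev_add f g x
    rw [← MemLp.toLp_add]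
    congr 1
  map_smul' c f := by
    have e : ev (c • f) = c • ev f := funext fun x => ev_smul c f x
    rw [RingHom.id_apply, ← MemLp.toLp_const_smul]
    congr 1

theorem toL_inner (h : ∀ f : Pol J P, MemLp (ev f) 2 μ) (f g : Pol J P) :
    ⟪toL μ h f, toL μ h g⟫_ℂ = ∫ x, star (ev f x) * ev g x ∂μ := by
  rw [L2.inner_def]
  refine integral_congr_ae ?_
  filter_upwards [(h f).coeFn_toLp, (h g).coeFn_toLp] with x hf hg
  change ⟪(h f).toLp (ev f) x, (h g).toLp (ev g) x⟫_ℂ = _
  rw [hf, hg, RCLike.inner_apply']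
  rfl

theorem toL_norm (h : ∀ f : Pol J P, MemLp (ev f) 2 μ) (f : Pol J P) :
    ‖toL μ h f‖ ^ 2 = ∫ x, ‖ev f x‖ ^ 2 ∂μ := by
  have h1 := toL_inner h f f
  have h2 := congrArg Complex.re (inner_self_eq_norm_sq_to_K (𝕜 := ℂ) (toL μ h f))
  rw [h1] at h2
  have h3 : ∫ x, star (ev f x) * ev f x ∂μ = ((∫ x, ‖ev f x‖ ^ 2 ∂μ : ℝ) : ℂ) := by
    rw [← integral_complex_ofReal]
    refine integral_congr_ae (Filter.Eventually.of_forall fun x => ?_)
    simp only
    rw [Complex.star_def, mul_comm, Complex.mul_conj, Complex.normSq_eq_norm_sq]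
  rw [h3] at h2
  rw [Complex.ofReal_re] at h2
  rw [h2]
  norm_cast

/-- **Poincare inequality** for polynomials -/
theorem FL.poincare (hJ : S_JOINT) [IsProbabilityMeasure μ] (h : FL at_ τ μ) (f : Pol J P) :
    ∃ c : ℂ, ∫ x, ‖ev f x - c‖ ^ 2 ∂μ ≤ ∑ p, ∑ q, (if τ p = τ q then
      2 / (Fintype.card {r // τ r = τ p} : ℝ) * ∫ x, ‖ev (TT p q f) x‖ ^ 2 ∂μ else 0) := by
  have hL : ∀ f : Pol J P, MemLp (ev f) 2 μ := fun f => h.memLp (continuous_ev f)
  set d := f.totalDegree with hd
  let D : Submodule ℂ (Pol J P) := restrictTotalDegree ((J × P) ⊕ (J × P)) ℂ d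
  let L : D →ₗ[ℂ] Lp ℂ 2 μ := toL μ hL ∘ₗ D.subtype
  have hLap : ∀ g : D, L g = toL μ hL g.1 := fun g => rfl
  let W : Submodule ℂ (Lp ℂ 2 μ) := LinearMap.range L
  let R : D →ₗ[ℂ] W := L.rangeRestrict
  have hRv : ∀ g : D, ((R g : W) : Lp ℂ 2 μ) = toL μ hL g.1 := fun g => rfl
  obtain ⟨S, hS⟩ := R.exists_rightInverse_of_surjective L.range_rangeRestrict
  have hS' : ∀ y : W, R (S y) = y := fun y => by
    have := congrArg (fun l : W →ₗ[ℂ] W => l y) hS
    exact this
  let TD : P → P → D →ₗ[ℂ] D := fun p q =>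
    (TT p q : Derivation ℂ (Pol J P) (Pol J P)).toLinearMap.restrict (p := D) (q := D) (by
      intro g hg
      rw [mem_restrictTotalDegree] at hg ⊢
      exact (TT_deg p q g).trans hg)
  have hTD : ∀ p q (g : D), (TD p q g).1 = TT p q g.1 := fun p q g => rfl
  have hin : ∀ f g : D, ⟪R f, R g⟫_ℂ = ∫ x, star (ev f.1 x) * ev g.1 x ∂μ := fun f g =>
    toL_inner hL f.1 g.1
  have hker : ∀ p q, τ p = τ q → ∀ g : D, R g = 0 → R (TD p q g) = 0 := by
    intro p q hpq g hg
    have h1 : ⟪R (TD p q g), R (TD p q g)⟫_ℂ = ⟪R (TD q p (TD p q g)), R g⟫_ℂ := by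
      rw [hin, hin]
      exact h.ibp hpq _ _
    rw [hg, inner_zero_right] at h1
    exact inner_self_eq_zero.1 h1
  let T : P → P → W →ₗ[ℂ] W := fun p q => R ∘ₗ TD p q ∘ₗ S
  have hT : ∀ p q, τ p = τ q → ∀ g : D, T p q (R g) = R (TD p q g) := by
    intro p q hpq g
    have h1 : R (S (R g) - g) = 0 := by rw [map_sub, hS', sub_self]
    have h2 := hker p q hpq _ h1
    rw [map_sub, map_sub, sub_eq_zero] at h2
    exact h2
  have hsurj : ∀ y : W, ∃ g : D, R g = y := fun y => ⟨S y, hS' y⟩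
  obtain ⟨x0, hx0, hx1⟩ := hJ W P α τ T (by
      intro p q hpq x y
      obtain ⟨f1, rfl⟩ := hsurj x
      obtain ⟨g1, rfl⟩ := hsurj y
      rw [hT p q hpq, hT q p hpq.symm, hin, hin, hTD, hTD]
      exact (h.ibp hpq.symm f1.1 g1.1).symm) (by
      intro p q r s hpq hrs x
      obtain ⟨g, rfl⟩ := hsurj x
      rw [hT r s hrs, hT p q hpq, hT p q hpq, hT r s hrs, ← map_sub]
      have e : TD p q (TD r s g) - TD r s (TD p q g) =
          (if q = r then TD p s g else 0) - (if p = s then TD r q g else 0) := by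
        apply Subtype.ext
        have := TT_comm p q r s g.1
        rw [Submodule.coe_sub, Submodule.coe_sub, hTD, hTD, hTD, hTD, this]
        congr 1
        · split_ifs <;> rfl
        · split_ifs <;> rfl
      rw [e, map_sub]
      congr 1
      · split_ifs with h1
        · have : τ p = τ s := hpq.trans (by rw [h1, hrs])
          rw [hT p s this]
        · rw [map_zero]
      · split_ifs with h1
        · have : τ r = τ q := hrs.trans (by rw [← h1, hpq])
          rw [hT r q this]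
        · rw [map_zero]) (by
      rw [eq_top_iff]
      rintro y -
      obtain ⟨g, rfl⟩ := hsurj y
      have hmem : ∀ s ∈ g.1.support, (monomial s (coeff s g.1) : Pol J P) ∈ D := by
        intro s hs
        rw [mem_restrictTotalDegree]
        refine (totalDegree_monomial_le _ _).trans ?_
        exact (le_totalDegree hs).trans ((mem_restrictTotalDegree _ _ _).1 g.2)
      have e : g = ∑ s : g.1.support, (⟨monomial s.1 (coeff s.1 g.1), hmem s.1 s.2⟩ : D) := by
        apply Subtype.ext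
        rw [Submodule.coe_sum]
        change g.1 = ∑ s : g.1.support, (monomial s.1 (coeff s.1 g.1) : Pol J P)
        rw [Finset.sum_coe_sort g.1.support fun s => (monomial s (coeff s g.1) : Pol J P)]
        exact (support_sum_monomial_coeff g.1).symm
      rw [e, map_sum]
      refine Submodule.sum_mem _ fun s _ => Submodule.subset_span ?_
      refine ⟨wgt s.1, fun p => ?_⟩
      rw [hT p p rfl, ← map_smul]
      congr 1
      apply Subtype.ext
      exact TT_monomial p s.1 _) (R ⟨f, (mem_restrictTotalDegree _ _ _).2 le_rfl⟩)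
  obtain ⟨f0, rfl⟩ := hsurj x0
  have hnorm : ∀ g : D, ‖R g‖ ^ 2 = ∫ x, ‖ev g.1 x‖ ^ 2 ∂μ := fun g => toL_norm hL g.1
  obtain ⟨c, hc⟩ := h.ker (f := f0.1) (by
    intro p q hpq
    have h1 := hx0 p q hpq
    rw [hT p q hpq] at h1
    have h2 := hnorm (TD p q f0)
    rw [h1, norm_zero, zero_pow two_ne_zero] at h2
    have h3 : 0 ≤ᵐ[μ] fun x => ‖ev (TD p q f0).1 x‖ ^ 2 :=
      Filter.Eventually.of_forall fun x => sq_nonneg _
    have h4 := (integral_eq_zero_iff_of_nonneg_ae h3
      (h.int (W := ℝ) ((continuous_ev _).norm.pow 2))).1 h2.symm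
    filter_upwards [h4] with x hx
    have : ‖ev (TT p q f0.1) x‖ ^ 2 = 0 := hx
    exact norm_eq_zero.1 (pow_eq_zero_iff two_ne_zero |>.1 this))
  refine ⟨c, ?_⟩
  rw [← map_sub, hnorm] at hx1
  have e1 : ∫ x, ‖ev f x - c‖ ^ 2 ∂μ = ∫ x, ‖ev ((⟨f, (mem_restrictTotalDegree _ _ _).2 le_rfl⟩ -
      f0 : D)).1 x‖ ^ 2 ∂μ := by
    refine integral_congr_ae ?_
    filter_upwards [h.mem] with x hx
    rw [Submodule.coe_sub, ev_sub, hc x hx]
  rw [e1]
  refine hx1.trans (le_of_eq ?_)
  refine Finset.sum_congr rfl fun p _ => Finset.sum_congr rfl fun q _ => ?_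
  split_ifs with hpq
  · rw [hT p q hpq, hnorm]
    rfl
  · rfl

end Pool.Agent.L0h31.KQ
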