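import Pool.Agent.L0h31.KQ.Tc4
import Pool.Agent.H212R2.KLS.L1

/-!
# Functions of quadratic forms of a frame
-/

set_option autoImplicit false
set_option linter.unusedSectionVars false

namespace Pool.Agent.L0h31.KQ

open MeasureTheory MvPolynomial
open scoped ENNReal InnerProductSpace

variable {J P α : Type} [Fintype J] [DecidableEq J] [Fintype P] [DecidableEq P] [Fintype α]
  [DecidableEq α] {at_ : J → α} {τ : P → α} {μ : Measure (XX J P)}

/-- the matrix applied to the frame -/
def ap (A : Matrix (J × P) (J × P) ℂ) (x : XX J P) (z : J × P) : ℂ := ∑ z', A z z' * x z'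

/-- the quadratic form -/
noncomputable def qf (A : Matrix (J × P) (J × P) ℂ) (x : XX J P) : ℝ :=
  (∑ z, ap A x z * star (x z)).re

theorem ev_psi {A : Matrix (J × P) (J × P) ℂ} (hA : A.IsHermitian) (x : XX J P) :
    ev (psi A) x = ((qf A x : ℝ) : ℂ) := by
  have e : ev (psi A) x = ∑ z, ap A x z * star (x z) := by
    unfold psi ap
    rw [ev_sum]
    simp_rw [ev_sum, Finset.sum_mul]
    rw [Finset.sum_comm]
    refine Finset.sum_congr rfl fun z _ => Finset.sum_congr rfl fun z' _ => ?_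
    rw [ev_mul, ev_C, ev_mul, ev_vv, ev_vb]
    ring
  rw [e]
  unfold qf
  have hs : star (∑ z, ap A x z * star (x z)) = ∑ z, ap A x z * star (x z) := by
    unfold ap
    simp_rw [Finset.sum_mul, star_sum]
    rw [Finset.sum_comm]
    refine Finset.sum_congr rfl fun z _ => Finset.sum_congr rfl fun z' _ => ?_
    rw [star_mul, star_mul, star_star, hA.apply]
    ring
  exact (Complex.conj_eq_iff_re.1 hs).symm

theorem continuous_ap (A : Matrix (J × P) (J × P) ℂ) (z : J × P) :
    Continuous fun x : XX J P => ap A x z := by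
  unfold ap
  fun_prop

theorem continuous_qf (A : Matrix (J × P) (J × P) ℂ) : Continuous (qf A) := by
  unfold qf
  refine Complex.continuous_re.comp (continuous_finsetSum _ fun z _ => ?_)
  exact (continuous_ap A z).mul (continuous_star.comp (continuous_apply z))

/-- `v^T conj (A v)` -/
noncomputable def Nm (A : Matrix (J × P) (J × P) ℂ) (x : XX J P) (p q : P) : ℂ :=
  ∑ j, x (j, p) * star (ap A x (j, q))

theorem ev_TT_psi {A : Matrix (J × P) (J × P) ℂ} (hA : A.IsHermitian) (p q : P) (x : XX J P) :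
    ev (TT p q (psi A)) x = Nm A x p q - star (Nm A x q p) := by
  have e : TT p q (psi A) = ∑ z, ∑ z', (C (A z' z) * (vb z'.1 z'.2 * TT p q (vv z.1 z.2)) +
      C (A z' z) * (vv z.1 z.2 * TT p q (vb z'.1 z'.2))) := by
    unfold psi
    rw [map_sum]
    refine Finset.sum_congr rfl fun z _ => ?_
    rw [map_sum]
    refine Finset.sum_congr rfl fun z' _ => ?_
    rw [Derivation.leibniz, derivation_C, Derivation.leibniz]
    simp only [smul_eq_mul]
    ring
  rw [e, ev_sum]
  simp_rw [ev_sum, ev_add]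
  simp_rw [Finset.sum_add_distrib]
  rw [sub_eq_add_neg]
  congr 1
  · -- first part
    rw [Fintype.sum_prod_type]
    unfold Nm ap
    refine Finset.sum_congr rfl fun j _ => ?_
    rw [Finset.sum_eq_single q]
    · rw [star_sum, Finset.mul_sum]
      refine Finset.sum_congr rfl fun z' _ => ?_
      rw [TT_vv, if_pos rfl, ev_mul, ev_mul, ev_C, ev_vb, ev_vv, star_mul, hA.apply]
      ring
    · intro r _ hr
      refine Finset.sum_eq_zero fun z' _ => ?_
      rw [TT_vv, if_neg (Ne.symm hr), mul_zero, mul_zero, ev_zero]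
    · intro h
      exact absurd (Finset.mem_univ _) h
  · rw [Finset.sum_comm, Fintype.sum_prod_type]
    unfold Nm ap
    rw [star_sum, ← Finset.sum_neg_distrib]
    refine Finset.sum_congr rfl fun j _ => ?_
    rw [Finset.sum_eq_single p]
    · rw [star_mul, star_star, Finset.sum_mul, ← Finset.sum_neg_distrib]
      refine Finset.sum_congr rfl fun z' _ => ?_
      rw [TT_vb, if_pos rfl, ev_mul, ev_mul, ev_C, ev_vv, ev_neg, ev_vb]
      ring
    · intro r _ hr
      refine Finset.sum_eq_zero fun z' _ => ?_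
      rw [TT_vb, if_neg (Ne.symm hr), neg_zero, mul_zero, mul_zero, ev_zero]
    · intro h
      exact absurd (Finset.mem_univ _) h

/-- the rows are orthonormal -/
theorem rows_orth {x : XX J P} (hx : x ∈ St at_ τ) (c : J → ℂ) :
    ∑ p, ‖∑ j, x (j, p) * star (c j)‖ ^ 2 = ∑ j, ‖c j‖ ^ 2 := by
  have h0 : ∀ j j', ∑ p, x (j, p) * star (x (j', p)) = if j = j' then 1 else 0 := by
    intro j j'
    by_cases hl : at_ j = at_ j'
    · exact hx.2 j j' hl
    · have hne : j ≠ j' := fun e => hl (by rw [e])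
      rw [if_neg hne]
      refine Finset.sum_eq_zero fun q _ => ?_
      by_cases h2 : at_ j = τ q
      · rw [hx.1 j' q (fun e => hl (h2.trans e.symm)), star_zero, mul_zero]
      · rw [hx.1 j q h2, zero_mul]
  have hz : ∀ z : ℂ, ((‖z‖ ^ 2 : ℝ) : ℂ) = z * star z := by
    intro z
    rw [Complex.star_def, Complex.mul_conj, Complex.normSq_eq_norm_sq]
  have key : ((∑ p, ‖∑ j, x (j, p) * star (c j)‖ ^ 2 : ℝ) : ℂ) = ((∑ j, ‖c j‖ ^ 2 : ℝ) : ℂ) := by
    rw [Complex.ofReal_sum, Complex.ofReal_sum]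
    simp_rw [hz]
    have e : ∀ p, (∑ j, x (j, p) * star (c j)) * star (∑ j, x (j, p) * star (c j)) =
        ∑ j, ∑ j', star (c j) * c j' * (x (j, p) * star (x (j', p))) := by
      intro p
      rw [star_sum, Finset.sum_mul_sum]
      refine Finset.sum_congr rfl fun j _ => Finset.sum_congr rfl fun j' _ => ?_
      rw [star_mul, star_star]
      ring
    simp_rw [e]
    rw [Finset.sum_comm]
    refine Finset.sum_congr rfl fun j _ => ?_
    rw [Finset.sum_comm]
    have e2 : ∀ j', ∑ p, star (c j) * c j' * (x (j, p) * star (x (j', p))) =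
        if j = j' then star (c j) * c j' else 0 := by
      intro j'
      rw [← Finset.mul_sum, h0]
      split_ifs
      · rw [mul_one]
      · rw [mul_zero]
    simp_rw [e2]
    rw [Finset.sum_ite_eq, if_pos (Finset.mem_univ _), mul_comm]
  exact_mod_cast key

theorem ap_lin {k : ℕ} (A : Fin k → Matrix (J × P) (J × P) ℂ) (t : Fin k → ℝ) (x : XX J P)
    (z : J × P) : ap (∑ i, (t i : ℂ) • A i) x z = ∑ i, (t i : ℂ) * ap (A i) x z := by
  unfold ap
  simp_rw [Finset.mul_sum]
  rw [Finset.sum_comm]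
  refine Finset.sum_congr rfl fun z' _ => ?_
  rw [Matrix.sum_apply, Finset.sum_mul]
  exact Finset.sum_congr rfl fun i _ => by rw [Matrix.smul_apply, smul_eq_mul]; ring

theorem star_re (r : ℝ) : star (r : ℂ) = r := Complex.conj_ofReal r

theorem Nm_lin {k : ℕ} (A : Fin k → Matrix (J × P) (J × P) ℂ) (t : Fin k → ℝ) (x : XX J P)
    (p q : P) : Nm (∑ i, (t i : ℂ) • A i) x p q = ∑ i, (t i : ℂ) * Nm (A i) x p q := by
  unfold Nm
  simp_rw [ap_lin, star_sum, Finset.mul_sum]
  rw [Finset.sum_comm]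
  refine Finset.sum_congr rfl fun i _ => Finset.sum_congr rfl fun j _ => ?_
  rw [star_mul, star_re]
  ring

/-- the values of the quadratic forms -/
noncomputable def yv {k : ℕ} (A : Fin k → Matrix (J × P) (J × P) ℂ) (x : XX J P) :
    EuclideanSpace ℝ (Fin k) := WithLp.toLp 2 fun i => qf (A i) x

theorem continuous_yv {k : ℕ} (A : Fin k → Matrix (J × P) (J × P) ℂ) : Continuous (yv A) := by
  unfold yv
  exact (PiLp.continuous_toLp 2 _).comp (continuous_pi fun i => continuous_qf (A i))

/-- the polynomial in the quadratic forms -/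
noncomputable def cmpP {k : ℕ} (A : Fin k → Matrix (J × P) (J × P) ℂ)
    (g : MvPolynomial (Fin k) ℝ) : Pol J P :=
  MvPolynomial.eval₂ (algebraMap ℝ (Pol J P)) (fun i => psi (A i)) g

theorem ev_cmpP {k : ℕ} {A : Fin k → Matrix (J × P) (J × P) ℂ} (hA : ∀ i, (A i).IsHermitian)
    (g : MvPolynomial (Fin k) ℝ) (x : XX J P) :
    ev (cmpP A g) x = ((Pool.Agent.H212R2.KLS.ev g (yv A x) : ℝ) : ℂ) := by
  unfold cmpP
  induction g using MvPolynomial.induction_on with
  | C a =>
    rw [eval₂_C]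
    unfold Pool.Agent.H212R2.KLS.ev
    rw [eval_C]
    have : (algebraMap ℝ (Pol J P)) a = C ((a : ℝ) : ℂ) := rfl
    rw [this, ev_C]
  | add f g hf hg =>
    rw [eval₂_add, ev_add, hf, hg]
    unfold Pool.Agent.H212R2.KLS.ev
    rw [map_add, Complex.ofReal_add]
  | mul_X f i hf =>
    rw [eval₂_mul, eval₂_X, ev_mul, hf, ev_psi (hA i)]
    unfold Pool.Agent.H212R2.KLS.ev
    rw [map_mul, eval_X, Complex.ofReal_mul]
    rfl

theorem ev_TT_cmpP {k : ℕ} {A : Fin k → Matrix (J × P) (J × P) ℂ} (hA : ∀ i, (A i).IsHermitian)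
    (g : MvPolynomial (Fin k) ℝ) (x : XX J P) (p q : P) :
    ev (TT p q (cmpP A g)) x = ∑ i, ((Pool.Agent.H212R2.KLS.ev (pderiv i g) (yv A x) : ℝ) : ℂ) *
      ev (TT p q (psi (A i))) x := by
  induction g using MvPolynomial.induction_on with
  | C a =>
    have e1 : cmpP A (C a) = C ((a : ℝ) : ℂ) := by
      unfold cmpP
      rw [eval₂_C]
      rfl
    rw [e1, derivation_C, ev_zero]
    symm
    refine Finset.sum_eq_zero fun i _ => ?_
    rw [pderiv_C]
    unfold Pool.Agent.H212R2.KLS.ev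
    simp
  | add f g hf hg =>
    have e1 : cmpP A (f + g) = cmpP A f + cmpP A g := by
      unfold cmpP
      rw [eval₂_add]
    rw [e1, map_add, ev_add, hf, hg, ← Finset.sum_add_distrib]
    refine Finset.sum_congr rfl fun i _ => ?_
    unfold Pool.Agent.H212R2.KLS.ev
    rw [map_add, map_add]
    push_cast
    ring
  | mul_X f i hf =>
    have e1 : cmpP A (f * X i) = cmpP A f * psi (A i) := by
      unfold cmpP
      rw [eval₂_mul, eval₂_X]
    rw [e1, Derivation.leibniz, smul_eq_mul, smul_eq_mul, ev_add, ev_mul, ev_mul, hf,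
      ev_psi (hA i), ev_cmpP hA, Finset.mul_sum]
    have e2 : ∀ l, ((Pool.Agent.H212R2.KLS.ev (pderiv l (f * X i)) (yv A x) : ℝ) : ℂ) *
        ev (TT p q (psi (A l))) x = ((qf (A i) x : ℝ) : ℂ) *
        (((Pool.Agent.H212R2.KLS.ev (pderiv l f) (yv A x) : ℝ) : ℂ) * ev (TT p q (psi (A l))) x) +
        (if l = i then ((Pool.Agent.H212R2.KLS.ev f (yv A x) : ℝ) : ℂ) *
          ev (TT p q (psi (A l))) x else 0) := by
      intro l
      unfold Pool.Agent.H212R2.KLS.ev
      rw [pderiv_mul, map_add, map_mul, map_mul, eval_X, pderiv_X]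
      have : (yv A x).ofLp i = qf (A i) x := rfl
      rw [this]
      by_cases h : l = i
      · subst h
        rw [if_pos rfl, Pi.single_eq_same, map_one]
        push_cast
        ring
      · rw [if_neg h, Pi.single_eq_of_ne (Ne.symm h), map_zero]
        push_cast
        ring
    simp_rw [e2]
    rw [Finset.sum_add_distrib, Finset.sum_ite_eq', if_pos (Finset.mem_univ _), add_comm]

/-- the gradient of a polynomial in the quadratic forms -/
noncomputable def gA {k : ℕ} (A : Fin k → Matrix (J × P) (J × P) ℂ) (t : Fin k → ℝ) :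
    Matrix (J × P) (J × P) ℂ := ∑ i, (t i : ℂ) • A i

theorem norm_sub_sq_le (a b : ℂ) : ‖a - b‖ ^ 2 ≤ 2 * ‖a‖ ^ 2 + 2 * ‖b‖ ^ 2 := by
  have h1 := norm_sub_le a b
  nlinarith [norm_nonneg (a - b), sq_nonneg (‖a‖ - ‖b‖), norm_nonneg a, norm_nonneg b]

theorem grad_pt {k : ℕ} {A : Fin k → Matrix (J × P) (J × P) ℂ} (hA : ∀ i, (A i).IsHermitian)
    (g : MvPolynomial (Fin k) ℝ) {x : XX J P} (hx : x ∈ St at_ τ) :
    ∑ p, ∑ q, (if τ p = τ q then 2 / (Fintype.card {r // τ r = τ p} : ℝ) *
      ‖ev (TT p q (cmpP A g)) x‖ ^ 2 else 0) ≤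
    ∑ q, 8 / (Fintype.card {r // τ r = τ q} : ℝ) * ∑ j,
      ‖ap (gA A fun i => Pool.Agent.H212R2.KLS.ev (pderiv i g) (yv A x)) x (j, q)‖ ^ 2 := by
  set B := gA A fun i => Pool.Agent.H212R2.KLS.ev (pderiv i g) (yv A x) with hB
  have e : ∀ p q, ev (TT p q (cmpP A g)) x = Nm B x p q - star (Nm B x q p) := by
    intro p q
    rw [ev_TT_cmpP hA, hB]
    unfold gA
    rw [Nm_lin, Nm_lin, star_sum, ← Finset.sum_sub_distrib]
    refine Finset.sum_congr rfl fun i _ => ?_
    rw [ev_TT_psi (hA i), star_mul, star_re]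
    ring
  have hcard : ∀ q : P, (0 : ℝ) ≤ (Fintype.card {r // τ r = τ q} : ℝ) := fun q => by positivity
  calc ∑ p, ∑ q, (if τ p = τ q then 2 / (Fintype.card {r // τ r = τ p} : ℝ) *
      ‖ev (TT p q (cmpP A g)) x‖ ^ 2 else 0)
      ≤ ∑ p, ∑ q, ((if τ p = τ q then 4 / (Fintype.card {r // τ r = τ q} : ℝ) *
          ‖Nm B x p q‖ ^ 2 else 0) + (if τ q = τ p then 4 / (Fintype.card {r // τ r = τ p} : ℝ) *
          ‖Nm B x q p‖ ^ 2 else 0)) := by
        refine Finset.sum_le_sum fun p _ => Finset.sum_le_sum fun q _ => ?_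
        by_cases h : τ p = τ q
        · rw [if_pos h, if_pos h, if_pos h.symm, e, ← h]
          have h1 := norm_sub_sq_le (Nm B x p q) (star (Nm B x q p))
          rw [norm_star] at h1
          have h2 : 0 ≤ 2 / (Fintype.card {r // τ r = τ p} : ℝ) := by positivity
          calc _ ≤ 2 / (Fintype.card {r // τ r = τ p} : ℝ) *
                (2 * ‖Nm B x p q‖ ^ 2 + 2 * ‖Nm B x q p‖ ^ 2) := mul_le_mul_of_nonneg_left h1 h2
            _ = _ := by ring
        · rw [if_neg h, if_neg h, if_neg (Ne.symm h), add_zero]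
    _ = ∑ q, ∑ p, (if τ p = τ q then 8 / (Fintype.card {r // τ r = τ q} : ℝ) *
          ‖Nm B x p q‖ ^ 2 else 0) := by
        simp_rw [Finset.sum_add_distrib]
        rw [Finset.sum_comm]
        rw [← Finset.sum_add_distrib]
        refine Finset.sum_congr rfl fun q _ => ?_
        rw [← Finset.sum_add_distrib]
        refine Finset.sum_congr rfl fun p _ => ?_
        split_ifs
        · ring
        · ring
    _ ≤ _ := by
        refine Finset.sum_le_sum fun q _ => ?_
        rw [← rows_orth hx fun j => ap B x (j, q), Finset.mul_sum]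
        refine Finset.sum_le_sum fun p _ => ?_
        split_ifs
        · exact le_rfl
        · positivity

theorem continuous_gA {k : ℕ} (A : Fin k → Matrix (J × P) (J × P) ℂ) {t : XX J P → Fin k → ℝ}
    (ht : Continuous t) (z : J × P) : Continuous fun x => ap (gA A (t x)) x z := by
  unfold gA
  simp_rw [ap_lin]
  refine continuous_finsetSum _ fun i _ => ?_
  refine Continuous.mul ?_ (continuous_ap (A i) z)
  exact Complex.continuous_ofReal.comp ((continuous_apply i).comp ht)

theorem cont_ev {k : ℕ} (g : MvPolynomial (Fin k) ℝ) :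
    Continuous (Pool.Agent.H212R2.KLS.ev g : EuclideanSpace ℝ (Fin k) → ℝ) := by
  unfold Pool.Agent.H212R2.KLS.ev
  exact (MvPolynomial.continuous_eval g).comp (PiLp.continuous_ofLp 2 _)

/-- the Poincare inequality for polynomials in quadratic forms -/
theorem FL.poin_poly (hJ : S_JOINT) [IsProbabilityMeasure μ] (h : FL at_ τ μ) {k : ℕ}
    {A : Fin k → Matrix (J × P) (J × P) ℂ} (hA : ∀ i, (A i).IsHermitian)
    (g : MvPolynomial (Fin k) ℝ) :
    ∃ c : ℝ, ∫ x, (Pool.Agent.H212R2.KLS.ev g (yv A x) - c) ^ 2 ∂μ ≤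
      ∫ x, ∑ q, 8 / (Fintype.card {r // τ r = τ q} : ℝ) * ∑ j,
        ‖ap (gA A fun i => Pool.Agent.H212R2.KLS.ev (pderiv i g) (yv A x)) x (j, q)‖ ^ 2 ∂μ := by
  obtain ⟨c, hc⟩ := h.poincare hJ (cmpP A g)
  refine ⟨c.re, ?_⟩
  have hgc : Continuous fun x => Pool.Agent.H212R2.KLS.ev g (yv A x) :=
    (cont_ev g).comp (continuous_yv A)
  have h1 : ∫ x, (Pool.Agent.H212R2.KLS.ev g (yv A x) - c.re) ^ 2 ∂μ ≤
      ∫ x, ‖ev (cmpP A g) x - c‖ ^ 2 ∂μ := by
    refine integral_mono (h.int (W := ℝ) ((hgc.sub continuous_const).pow 2))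
      (h.int (W := ℝ) (((continuous_ev _).sub continuous_const).norm.pow 2)) fun x => ?_
    simp only
    rw [ev_cmpP hA]
    have h2 := Complex.abs_re_le_norm (((Pool.Agent.H212R2.KLS.ev g (yv A x) : ℝ) : ℂ) - c)
    rw [Complex.sub_re, Complex.ofReal_re] at h2
    rw [← sq_abs]
    exact pow_le_pow_left₀ (abs_nonneg _) h2 2
  refine h1.trans (hc.trans ?_)
  have hcont : ∀ p q, Continuous fun x => (if τ p = τ q then
      2 / (Fintype.card {r // τ r = τ p} : ℝ) * ‖ev (TT p q (cmpP A g)) x‖ ^ 2 else 0) := by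
    intro p q
    split_ifs
    · exact continuous_const.mul ((continuous_ev _).norm.pow 2)
    · exact continuous_const
  have h2 : ∑ p, ∑ q, (if τ p = τ q then 2 / (Fintype.card {r // τ r = τ p} : ℝ) *
      ∫ x, ‖ev (TT p q (cmpP A g)) x‖ ^ 2 ∂μ else 0) =
      ∫ x, ∑ p, ∑ q, (if τ p = τ q then 2 / (Fintype.card {r // τ r = τ p} : ℝ) *
        ‖ev (TT p q (cmpP A g)) x‖ ^ 2 else 0) ∂μ := by
    rw [integral_finsetSum _ fun p _ => integrable_finsetSum _ fun q _ => h.int (W := ℝ) (hcont p q)]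
    refine Finset.sum_congr rfl fun p _ => ?_
    rw [integral_finsetSum _ fun q _ => h.int (W := ℝ) (hcont p q)]
    refine Finset.sum_congr rfl fun q _ => ?_
    split_ifs
    · rw [integral_const_mul]
    · rw [integral_zero]
  rw [h2]
  have hgr : Continuous fun x : XX J P => fun i =>
      Pool.Agent.H212R2.KLS.ev (pderiv i g) (yv A x) :=
    continuous_pi fun i => (cont_ev _).comp (continuous_yv A)
  refine integral_mono_ae (h.int (W := ℝ) (continuous_finsetSum _ fun p _ =>
    continuous_finsetSum _ fun q _ => hcont p q)) (h.int (W := ℝ) ?_) ?_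
  · refine continuous_finsetSum _ fun q _ => continuous_const.mul ?_
    exact continuous_finsetSum _ fun j _ => (continuous_gA A hgr _).norm.pow 2
  · filter_upwards [h.mem] with x hx
    exact grad_pt hA g hx

end Pool.Agent.L0h31.KQ
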