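import Pool.Agent.L0h31.KQ.Idx

/-!
# Concentration of functions of the Gram matrix of a random frame
-/

set_option autoImplicit false
set_option linter.unusedSectionVars false

namespace Pool.Agent.L0h31.KQ

open MeasureTheory
open scoped ENNReal InnerProductSpace ComplexOrder

variable {J C α β : Type} [Fintype J] [DecidableEq J] [Fintype C] [DecidableEq C] [Fintype α]
  [DecidableEq α] [DecidableEq β] {at_ : J → α} {τ : C → α} {bl : C → β}

/-- hermitian, block diagonal, normalised -/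
structure Nrm (bl : C → β) (Y : Matrix (RR at_ τ) (RR at_ τ) ℂ) : Prop where
  herm : Y.IsHermitian
  blk : ∀ r s, bR bl r ≠ bR bl s → Y r s = 0
  nrm : ∀ j j' : J, ∑ c : C, (if h : τ c = at_ j ∧ τ c = at_ j' then
    (Nb at_ τ bl (bl c) : ℂ) * Y ⟨(c, j), h.1⟩ ⟨(c, j'), h.2⟩ else 0) = 0

theorem sumPP {M : Type*} [AddCommMonoid M] (F : PP at_ τ bl → M) :
    ∑ p, F p = ∑ c : C, ∑ k : RR at_ τ, if h : bl c = bl k.1.1 then F ⟨(c, k), h⟩ else 0 := by
  rw [← Fintype.sum_prod_type'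
      (f := fun (c : C) (k : RR at_ τ) => if h : bl c = bl k.1.1 then F ⟨(c, k), h⟩ else 0),
    sum_sub (fun q : C × RR at_ τ => bl q.1 = bl q.2.1.1)
      (fun q => if h : bl q.1 = bl q.2.1.1 then F ⟨(q.1, q.2), h⟩ else 0)
      (fun q hq => dif_neg hq)]
  refine Finset.sum_congr rfl fun q _ => ?_
  rw [dif_pos q.2]

theorem Nrm.trace {Y : Matrix (RR at_ τ) (RR at_ τ) ℂ} (h : Nrm bl Y) (j j' : J) :
    ∑ p : PP at_ τ bl, AY Y (j, p) (j', p) = 0 := by
  rw [sumPP]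
  refine Eq.trans ?_ (h.nrm j j')
  refine Finset.sum_congr rfl fun c _ => ?_
  have e : ∀ k : RR at_ τ, (if hk : bl c = bl k.1.1 then AY Y (j, (⟨(c, k), hk⟩ : PP at_ τ bl))
      (j', ⟨(c, k), hk⟩) else 0) = if bR bl k = bl c then
      (if h : τ c = at_ j ∧ τ c = at_ j' then Y ⟨(c, j), h.1⟩ ⟨(c, j'), h.2⟩ else 0) else 0 := by
    intro k
    by_cases hk : bl c = bl k.1.1
    · rw [dif_pos hk, if_pos (show bR bl k = bl c from hk.symm)]
      unfold AY
      by_cases h1 : τ c = at_ j ∧ τ c = at_ j'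
      · rw [dif_pos h1, dif_pos ⟨h1, rfl⟩]
      · rw [dif_neg h1, dif_neg fun h2 => h1 h2.1]
    · rw [dif_neg hk, if_neg fun h2 : bR bl k = bl c => hk h2.symm]
  refine (Finset.sum_congr rfl fun k _ => e k).trans ?_
  rw [← Finset.sum_filter, Finset.sum_const, nsmul_eq_mul]
  have e7 : ((Finset.univ.filter fun k : RR at_ τ => bR bl k = bl c).card : ℂ) =
      (Nb at_ τ bl (bl c) : ℂ) := by
    unfold Nb
    rw [Fintype.card_subtype]
    push_cast
    rfl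
  rw [e7]
  split_ifs
  · rfl
  · rw [mul_zero]

theorem two_copies {j0 : J} {c0 c1 : C} (hne : c0 ≠ c1) (h0 : τ c0 = at_ j0) (h1 : τ c1 = at_ j0) :
    2 * Fintype.card {j // at_ j = at_ j0} ≤
      Fintype.card {p : PP at_ τ bl // tP p = at_ j0} := by
  let f : Bool × {j // at_ j = at_ j0} → {p : PP at_ τ bl // tP p = at_ j0} := fun q =>
    if q.1 then ⟨⟨(c0, ⟨(c0, q.2.1), h0.trans q.2.2.symm⟩), rfl⟩, h0⟩
    else ⟨⟨(c1, ⟨(c1, q.2.1), h1.trans q.2.2.symm⟩), rfl⟩, h1⟩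
  have hf : Function.Injective f := by
    rintro ⟨b, j⟩ ⟨b', j'⟩ h
    have h2 : (f (b, j)).1.1.1 = (f (b', j')).1.1.1 := by rw [h]
    have h3 : (f (b, j)).1.1.2.1.2 = (f (b', j')).1.1.2.1.2 := by rw [h]
    cases b <;> cases b'
    · have : j.1 = j'.1 := h3
      rw [Subtype.ext this]
    · exact absurd (show c1 = c0 from h2) (Ne.symm hne)
    · exact absurd (show c0 = c1 from h2) hne
    · have : j.1 = j'.1 := h3
      rw [Subtype.ext this]
  have := Fintype.card_le_of_injective f hf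
  rwa [Fintype.card_prod, Fintype.card_bool] at this

theorem Nrm.size {Y : Matrix (RR at_ τ) (RR at_ τ) ℂ} (h : Nrm bl Y) {z z' : J × PP at_ τ bl}
    (hz : AY Y z z' ≠ 0) (hl : at_ z.1 = at_ z'.1) :
    2 * Fintype.card {j // at_ j = at_ z.1} ≤
      Fintype.card {p : PP at_ τ bl // tP p = at_ z.1} := by
  obtain ⟨hm1, hm2⟩ := AY_mask hz
  by_cases hc : ∃ c1, z.2.1.1 ≠ c1 ∧ τ c1 = at_ z.1
  · obtain ⟨c1, hne, hc1⟩ := hc
    exact two_copies hne hm1.symm hc1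
  · exfalso
    push Not at hc
    have hcc : z.2.1.1 = z'.2.1.1 := by
      by_contra hne
      exact hc _ hne (hm2.symm.trans hl.symm)
    have h1 : τ z.2.1.1 = at_ z.1 ∧ τ z.2.1.1 = at_ z'.1 := ⟨hm1.symm, hm1.symm.trans hl⟩
    have h2 := h.nrm z.1 z'.1
    rw [Finset.sum_eq_single z.2.1.1] at h2
    · rw [dif_pos h1] at h2
      apply hz
      unfold AY
      split_ifs with h3
      · have h4 : (⟨(z'.2.1.1, z'.1), h3.1.2⟩ : RR at_ τ) = ⟨(z.2.1.1, z'.1), h1.2⟩ := by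
          apply Subtype.ext
          exact Prod.ext hcc.symm rfl
        rw [h4]
        refine (mul_eq_zero.1 h2).resolve_left ?_
        have : 0 < Fintype.card {r : RR at_ τ // bR bl r = bl z.2.1.1} :=
          Fintype.card_pos_iff.2 ⟨⟨⟨(z.2.1.1, z.1), h1.1⟩, rfl⟩⟩
        unfold Nb
        exact_mod_cast this.ne'
      · rfl
    · intro c1 _ hc1
      rw [dif_neg]
      rintro ⟨h3, -⟩
      exact hc c1 (Ne.symm hc1) h3
    · intro h
      exact absurd (Finset.mem_univ _) h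

theorem AY_lin {k : ℕ} (Y : Fin k → Matrix (RR at_ τ) (RR at_ τ) ℂ) (t : Fin k → ℝ) :
    gA (fun i => AY (bl := bl) (Y i)) t = AY (∑ i, (t i : ℂ) • Y i) := by
  ext z z'
  unfold gA
  rw [Matrix.sum_apply]
  have e0 : ∀ i, ((t i : ℂ) • AY (bl := bl) (Y i)) z z' = (t i : ℂ) * AY (Y i) z z' := fun i => rfl
  refine (Finset.sum_congr rfl fun i _ => e0 i).trans ?_
  by_cases h : (tP z.2 = at_ z.1 ∧ tP z'.2 = at_ z'.1) ∧ z.2.1.2 = z'.2.1.2
  · have e1 : ∀ Y' : Matrix (RR at_ τ) (RR at_ τ) ℂ, AY Y' z z' =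
        Y' ⟨(z.2.1.1, z.1), h.1.1⟩ ⟨(z'.2.1.1, z'.1), h.1.2⟩ := fun Y' => dif_pos h
    rw [e1, Matrix.sum_apply]
    refine Finset.sum_congr rfl fun i _ => ?_
    rw [e1]
    rfl
  · have e1 : ∀ Y' : Matrix (RR at_ τ) (RR at_ τ) ℂ, AY Y' z z' = 0 := fun Y' => dif_neg h
    rw [e1]
    refine Finset.sum_eq_zero fun i _ => ?_
    rw [e1, mul_zero]

theorem qf_lin {P : Type} [Fintype P] [DecidableEq P] {k : ℕ}
    (A : Fin k → Matrix (J × P) (J × P) ℂ) (t : Fin k → ℝ) (x : XX J P) :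
    qf (gA A t) x = ∑ i, t i * qf (A i) x := by
  unfold qf gA
  have e : ∑ z, ap (∑ i, (t i : ℂ) • A i) x z * star (x z) =
      ∑ i, (t i : ℂ) * ∑ z, ap (A i) x z * star (x z) := by
    simp_rw [ap_lin, Finset.sum_mul, Finset.mul_sum]
    rw [Finset.sum_comm]
    exact Finset.sum_congr rfl fun i _ => Finset.sum_congr rfl fun z _ => by ring
  rw [e, Complex.re_sum]
  exact Finset.sum_congr rfl fun i _ => Complex.re_ofReal_mul _ _

theorem Nrm.lin {k : ℕ} {Y : Fin k → Matrix (RR at_ τ) (RR at_ τ) ℂ} (h : ∀ i, Nrm bl (Y i))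
    (t : Fin k → ℝ) : Nrm bl (∑ i, (t i : ℂ) • Y i) where
  herm := by
    ext r s
    rw [Matrix.conjTranspose_apply, Matrix.sum_apply, Matrix.sum_apply, star_sum]
    refine Finset.sum_congr rfl fun i _ => ?_
    rw [Matrix.smul_apply, Matrix.smul_apply, smul_eq_mul, smul_eq_mul, star_mul, star_re,
      (h i).herm.apply, mul_comm]
  blk r s hrs := by
    rw [Matrix.sum_apply]
    refine Finset.sum_eq_zero fun i _ => ?_
    rw [Matrix.smul_apply, (h i).blk r s hrs, smul_zero]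
  nrm j j' := by
    have e : ∀ c : C, (if h : τ c = at_ j ∧ τ c = at_ j' then
        (Nb at_ τ bl (bl c) : ℂ) * (∑ i, (t i : ℂ) • Y i) ⟨(c, j), h.1⟩ ⟨(c, j'), h.2⟩ else 0) =
        ∑ i, (t i : ℂ) * (if h : τ c = at_ j ∧ τ c = at_ j' then
        (Nb at_ τ bl (bl c) : ℂ) * Y i ⟨(c, j), h.1⟩ ⟨(c, j'), h.2⟩ else 0) := by
      intro c
      split_ifs with hc
      · rw [Matrix.sum_apply, Finset.mul_sum]
        refine Finset.sum_congr rfl fun i _ => ?_
        rw [Matrix.smul_apply, smul_eq_mul]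
        ring
      · simp
    simp_rw [e]
    rw [Finset.sum_comm]
    refine Finset.sum_eq_zero fun i _ => ?_
    rw [← Finset.mul_sum, (h i).nrm j j', mul_zero]

variable {μ : Measure (XX J (PP at_ τ bl))}

/-- the second moment of a linear functional of the Gram matrix -/
theorem var_lower (hM : S_MOM4) [IsProbabilityMeasure μ] (h : FL at_ tP μ)
    {Y : Matrix (RR at_ τ) (RR at_ τ) ℂ} (hY : Nrm bl Y) :
    (1 / 2) * Qn bl Y ≤ ∫ x, qf (AY Y) x ^ 2 ∂μ := by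
  have h1 := hM J (PP at_ τ bl) α at_ tP (Ex μ h.iev) h.expect (AY Y) (AY_herm hY.herm)
    (fun z z' hz => AY_mask hz) hY.trace (fun z z' hz hl => hY.size hz hl)
  rw [sum_AY Y hY.blk] at h1
  refine h1.trans (le_of_eq ?_)
  have h2 : Ex μ h.iev (psi (AY Y) ^ 2) = ((∫ x, qf (AY Y) x ^ 2 ∂μ : ℝ) : ℂ) := by
    change ∫ x, ev (psi (AY Y) ^ 2) x ∂μ = _
    rw [← integral_complex_ofReal]
    refine integral_congr_ae (Filter.Eventually.of_forall fun x => ?_)
    simp only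
    rw [pow_two, ev_mul, ev_psi (AY_herm hY.herm)]
    push_cast
    ring
  rw [h2, Complex.ofReal_re]

/-- the first moment -/
theorem mean_zero (hM : S_MOM2) [IsProbabilityMeasure μ] (h : FL at_ tP μ)
    {Y : Matrix (RR at_ τ) (RR at_ τ) ℂ} (hY : Nrm bl Y) :
    ∫ x, qf (AY Y) x ∂μ = 0 := by
  have h1 : Ex μ h.iev (psi (AY Y)) = ((∫ x, qf (AY Y) x ∂μ : ℝ) : ℂ) := by
    change ∫ x, ev (psi (AY Y)) x ∂μ = _
    rw [← integral_complex_ofReal]
    refine integral_congr_ae (Filter.Eventually.of_forall fun x => ?_)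
    simp only
    rw [ev_psi (AY_herm hY.herm)]
  have h2 : Ex μ h.iev (psi (AY Y)) = 0 := by
    unfold psi
    rw [map_sum]
    have e : ∀ z : J × PP at_ τ bl, Ex μ h.iev (∑ z', MvPolynomial.C (AY Y z' z) *
        (vv z.1 z.2 * vb z'.1 z'.2)) = AY Y z z *
        (Fintype.card {r // tP (at_ := at_) (τ := τ) (bl := bl) r = at_ z.1} : ℂ)⁻¹ := by
      intro z
      rw [map_sum, Finset.sum_eq_single z]
      · rw [← MvPolynomial.smul_eq_C_mul, map_smul, hM J (PP at_ τ bl) α at_ tP _ h.expect,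
          smul_eq_mul]
        by_cases hz : AY Y z z = 0
        · rw [hz, zero_mul, zero_mul]
        · have := (AY_mask hz).1
          rw [if_pos ⟨rfl, rfl, this⟩, ← this]
      · intro z' _ hz'
        rw [← MvPolynomial.smul_eq_C_mul, map_smul, hM J (PP at_ τ bl) α at_ tP _ h.expect,
          if_neg, smul_zero]
        rintro ⟨h3, h4, -⟩
        exact hz' (Prod.ext h3.symm h4.symm)
      · intro h
        exact absurd (Finset.mem_univ _) h
    simp_rw [e]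
    rw [Fintype.sum_prod_type]
    refine Finset.sum_eq_zero fun j _ => ?_
    refine (Finset.sum_mul Finset.univ (fun p : PP at_ τ bl => AY Y (j, p) (j, p))
      ((Fintype.card {r // tP (at_ := at_) (τ := τ) (bl := bl) r = at_ j} : ℂ)⁻¹)).symm.trans ?_
    rw [hY.trace j j, zero_mul]
  rw [h2] at h1
  exact_mod_cast h1.symm

theorem yv_inner {P : Type} [Fintype P] [DecidableEq P] {k : ℕ}
    (A : Fin k → Matrix (J × P) (J × P) ℂ) (t : EuclideanSpace ℝ (Fin k)) (x : XX J P) :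
    ⟪yv A x, t⟫_ℝ = qf (gA A fun i => t i) x := by
  rw [qf_lin, PiLp.inner_apply]
  exact Finset.sum_congr rfl fun i _ => rfl

/-- **the main estimate** -/
theorem varq (hJ : S_JOINT) (hM : S_MOM4) [IsProbabilityMeasure μ] (h : FL at_ tP μ) {k : ℕ}
    {Y : Fin k → Matrix (RR at_ τ) (RR at_ τ) ℂ} (hY : ∀ i, Nrm bl (Y i))
    {Zf : XX J (PP at_ τ bl) → ℝ} (hZi : Integrable Zf μ) (hZ0 : ∀ x, 0 ≤ Zf x)
    (hZ : ∀ᵐ x ∂μ, ∀ u : RR at_ τ → ℂ, (∑ r, ∑ s, star (u r) * Xm x r s * u s).re ≤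
      Zf x * ∑ r, Nb at_ τ bl (bR bl r) / Mc at_ τ bl (tR r) * ‖u r‖ ^ 2)
    {s : ℝ} (hs : 0 < s) (hvar : ∀ θ : EuclideanSpace ℝ (Fin k), ‖θ‖ = 1 →
      ∫ x, ⟪yv (fun i => AY (Y i)) x, θ⟫_ℝ ^ 2 ∂μ ≤ s)
    {κ0 : ℝ} (hκ : 0 < κ0) {v : EuclideanSpace ℝ (Fin k) → ℝ} (hv : ContDiff ℝ 1 v)
    (hvd : ∀ y, ‖fderiv ℝ v y‖ ≤ κ0 / Real.sqrt s) :
    ∃ c : ℝ, ∫ x, (v (yv (fun i => AY (Y i)) x) - c) ^ 2 ∂μ ≤
      (128 * ∫ x, Zf x ∂μ + 2) * κ0 ^ 2 := by
  set A : Fin k → Matrix (J × PP at_ τ bl) (J × PP at_ τ bl) ℂ := fun i => AY (Y i) with hA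
  have hAh : ∀ i, (A i).IsHermitian := fun i => AY_herm (hY i).herm
  have hsq : 0 < Real.sqrt s := Real.sqrt_pos.2 hs
  -- the quadratic form
  have hQ : ∀ t : EuclideanSpace ℝ (Fin k), Qn bl (∑ i, (t i : ℂ) • Y i) ≤ 2 * s * ‖t‖ ^ 2 := by
    intro t
    have h1 := var_lower hM h (Nrm.lin hY fun i => t i)
    have h2 : ∫ x, qf (AY (∑ i, (t i : ℂ) • Y i)) x ^ 2 ∂μ ≤ s * ‖t‖ ^ 2 := by
      have e : ∀ x, qf (AY (∑ i, (t i : ℂ) • Y i)) x = ⟪yv A x, t⟫_ℝ := by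
        intro x
        rw [yv_inner, ← AY_lin]
      simp_rw [e]
      rcases eq_or_ne t 0 with h0 | h0
      · rw [h0]
        simp
      · have hp : 0 < ‖t‖ := norm_pos_iff.2 h0
        have h3 := hvar (‖t‖⁻¹ • t) (by rw [norm_smul, norm_inv, norm_norm, inv_mul_cancel₀ hp.ne'])
        have e2 : ∀ x, ⟪yv A x, ‖t‖⁻¹ • t⟫_ℝ ^ 2 = (‖t‖ ^ 2)⁻¹ * ⟪yv A x, t⟫_ℝ ^ 2 := by
          intro x
          rw [inner_smul_right, mul_pow, inv_pow]
        simp_rw [e2] at h3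
        rw [integral_const_mul, inv_mul_le_iff₀ (by positivity)] at h3
        linarith
    linarith
  -- the polynomial
  obtain ⟨R, hR⟩ := (St_compact at_ (tP (at_ := at_) (τ := τ) (bl := bl))).exists_bound_of_continuousOn
    (continuous_yv A).continuousOn
  set ε : ℝ := min κ0 (κ0 / Real.sqrt s) with hε
  have hε0 : 0 < ε := lt_min hκ (by positivity)
  obtain ⟨g, hg⟩ := Pool.Agent.H212R2.KLS.poly_approx v hv R ε hε0
  obtain ⟨c, hc⟩ := h.poin_poly hJ hAh g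
  set t : XX J (PP at_ τ bl) → Fin k → ℝ := fun x i =>
    Pool.Agent.H212R2.KLS.ev (MvPolynomial.pderiv i g) (yv A x) with ht
  have hgrad : ∀ x ∈ St at_ (tP (at_ := at_) (τ := τ) (bl := bl)),
      ∑ i, t x i ^ 2 ≤ 4 * κ0 ^ 2 / s := by
    intro x hx
    have h1 := (hg (yv A x) (hR x hx)).2
    have h2 : ‖fderiv ℝ (Pool.Agent.H212R2.KLS.ev g) (yv A x)‖ ≤ 2 * (κ0 / Real.sqrt s) := by
      have h3 := norm_add_le (fderiv ℝ (Pool.Agent.H212R2.KLS.ev g) (yv A x) -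
        fderiv ℝ v (yv A x)) (fderiv ℝ v (yv A x))
      rw [sub_add_cancel] at h3
      have h4 := hvd (yv A x)
      have h5 : ε ≤ κ0 / Real.sqrt s := min_le_right _ _
      linarith
    have h3 := Pool.Agent.H212R2.KLS.A8.norm_fderiv_sq g (yv A x)
    rw [← h3]
    calc ‖fderiv ℝ (Pool.Agent.H212R2.KLS.ev g) (yv A x)‖ ^ 2
        ≤ (2 * (κ0 / Real.sqrt s)) ^ 2 := pow_le_pow_left₀ (norm_nonneg _) h2 2
      _ = _ := by rw [mul_pow, div_pow, Real.sq_sqrt hs.le]; ring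
  have hRHS : ∫ x, ∑ q, 8 / (Fintype.card {r // tP (at_ := at_) (τ := τ) (bl := bl) r = tP q} : ℝ) *
      ∑ j, ‖ap (gA A (t x)) x (j, q)‖ ^ 2 ∂μ ≤ ∫ x, 64 * κ0 ^ 2 * Zf x ∂μ := by
    have htc : Continuous t :=
      continuous_pi fun i => (cont_ev _).comp (continuous_yv A)
    refine integral_mono_ae (h.int (W := ℝ) ?_) (hZi.const_mul _) ?_
    · refine continuous_finsetSum _ fun q _ => continuous_const.mul ?_
      exact continuous_finsetSum _ fun j _ => (continuous_gA A htc _).norm.pow 2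
    · filter_upwards [h.mem, hZ] with x hx hZx
      have e1 : gA A (t x) = AY (∑ i, (t x i : ℂ) • Y i) := AY_lin Y (t x)
      rw [e1]
      refine (sum_ap_le (Nrm.lin hY (t x)).herm x hZx).trans ?_
      have h1 := hQ (WithLp.toLp 2 (t x))
      have h2 : ‖(WithLp.toLp 2 (t x) : EuclideanSpace ℝ (Fin k))‖ ^ 2 = ∑ i, t x i ^ 2 := by
        rw [EuclideanSpace.real_norm_sq_eq]
      rw [h2] at h1
      have h3 := hgrad x hx
      have h4 : Qn bl (∑ i, (t x i : ℂ) • Y i) ≤ 8 * κ0 ^ 2 := by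
        refine h1.trans ?_
        calc 2 * s * ∑ i, t x i ^ 2 ≤ 2 * s * (4 * κ0 ^ 2 / s) :=
              mul_le_mul_of_nonneg_left h3 (by positivity)
          _ = 8 * κ0 ^ 2 := by field_simp; ring
      calc 8 * Zf x * Qn bl (∑ i, (t x i : ℂ) • Y i) ≤ 8 * Zf x * (8 * κ0 ^ 2) :=
            mul_le_mul_of_nonneg_left h4 (by have := hZ0 x; positivity)
        _ = 64 * κ0 ^ 2 * Zf x := by ring
  rw [integral_const_mul] at hRHS
  refine ⟨c, ?_⟩
  have hvc : Continuous fun x => v (yv A x) := hv.continuous.comp (continuous_yv A)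
  have hgc : Continuous fun x => Pool.Agent.H212R2.KLS.ev g (yv A x) :=
    (cont_ev g).comp (continuous_yv A)
  have h5 : ∫ x, (v (yv A x) - c) ^ 2 ∂μ ≤
      ∫ x, (2 * (Pool.Agent.H212R2.KLS.ev g (yv A x) - c) ^ 2 + 2 * κ0 ^ 2) ∂μ := by
    refine integral_mono_ae (h.int (W := ℝ) ((hvc.sub continuous_const).pow 2))
      (h.int (W := ℝ) ((continuous_const.mul ((hgc.sub continuous_const).pow 2)).add
        continuous_const)) ?_
    filter_upwards [h.mem] with x hx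
    have h6 := (hg (yv A x) (hR x hx)).1
    have h7 : |Pool.Agent.H212R2.KLS.ev g (yv A x) - v (yv A x)| ≤ κ0 := h6.trans (min_le_left _ _)
    have h8 : (Pool.Agent.H212R2.KLS.ev g (yv A x) - v (yv A x)) ^ 2 ≤ κ0 ^ 2 := by
      rw [← sq_abs]
      exact pow_le_pow_left₀ (abs_nonneg _) h7 2
    nlinarith [sq_nonneg ((Pool.Agent.H212R2.KLS.ev g (yv A x) - c) +
      (Pool.Agent.H212R2.KLS.ev g (yv A x) - v (yv A x)))]
  have i1 : Integrable (fun x => 2 * (Pool.Agent.H212R2.KLS.ev g (yv A x) - c) ^ 2) μ :=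
    h.int (W := ℝ) (continuous_const.mul ((hgc.sub continuous_const).pow 2))
  rw [integral_add i1 (integrable_const _), integral_const_mul, integral_const, probReal_univ,
    one_smul] at h5
  have h9 := hc.trans hRHS
  calc _ ≤ _ := h5
    _ ≤ 2 * (64 * κ0 ^ 2 * ∫ x, Zf x ∂μ) + 2 * κ0 ^ 2 := by linarith
    _ = _ := by ring

end Pool.Agent.L0h31.KQ
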